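import Mathlib
import Pool.Agent.H617R3.BT.Sieve

/-!
Primes avoiding one nonzero residue class for each prime of a set with divergent sum of reciprocals.
-/

set_option autoImplicit false

namespace Pool.Agent.TH888.B1

open Finset Filter Topology

theorem totient_prod_primes (F : Finset ℕ) (hF : ∀ r ∈ F, r.Prime) :
    Nat.totient (∏ r ∈ F, r) = ∏ r ∈ F, (r - 1) := by
  classical
  induction F using Finset.induction_on with
  | empty => simp
  | insert a F ha ih =>
    rw [prod_insert ha, prod_insert ha, Nat.totient_mul, ih fun r hr => hF r (mem_insert_of_mem hr),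
      Nat.totient_prime (hF a (mem_insert_self _ _))]
    apply Nat.Coprime.prod_right
    intro r hr
    refine (Nat.coprime_primes (hF a (mem_insert_self _ _)) (hF r (mem_insert_of_mem hr))).mpr ?_
    rintro rfl
    exact ha hr

/-- the number of reduced residue classes avoiding a nonzero class for each prime of `F` -/
theorem bad_card (F : Finset ℕ) (hF : ∀ r ∈ F, r.Prime) (ρ : ∀ r : ℕ, ZMod r)
    (hρ : ∀ r ∈ F, ρ r ≠ 0) :
    ((range (∏ r ∈ F, r)).filter (fun a : ℕ => ∀ r ∈ F, (a : ZMod r) ≠ 0 ∧ (a : ZMod r) ≠ ρ r)).card ≤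
      ∏ r ∈ F, (r - 2) := by
  classical
  have hne : ∀ r : F, NeZero (r : ℕ) := fun r => ⟨(hF r r.2).ne_zero⟩
  have h1 : (Fintype.piFinset (fun r : F => (univ.erase (0 : ZMod (r : ℕ))).erase (ρ r))).card =
      ∏ r ∈ F, (r - 2) := by
    rw [Fintype.card_piFinset, ← Finset.prod_coe_sort F (fun r => r - 2)]
    apply prod_congr rfl
    intro r _
    rw [card_erase_of_mem, card_erase_of_mem (mem_univ _), card_univ, ZMod.card]
    · omega
    · exact mem_erase.mpr ⟨hρ r r.2, mem_univ _⟩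
  rw [← h1]
  apply card_le_card_of_injOn (fun (a : ℕ) (r : F) => ((a : ℕ) : ZMod (r : ℕ)))
  · intro a ha
    rw [mem_coe, mem_filter] at ha
    rw [mem_coe, Fintype.mem_piFinset]
    intro r
    exact mem_erase.mpr ⟨(ha.2 r r.2).2, mem_erase.mpr ⟨(ha.2 r r.2).1, mem_univ _⟩⟩
  · intro a ha b hb hab
    rw [mem_coe, mem_filter, mem_range] at ha hb
    have h2 : ∀ r ∈ F, (r : ℤ) ∣ (a : ℤ) - b := by
      intro r hr
      have h3 := congrFun hab ⟨r, hr⟩
      simp only at h3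
      rw [← ZMod.intCast_zmod_eq_zero_iff_dvd]
      push_cast
      rw [sub_eq_zero]
      exact h3
    have h4 : (∏ r ∈ F, r) ∣ ((a : ℤ) - b).natAbs := by
      apply Finset.prod_primes_dvd
      · intro r hr; exact (hF r hr).prime
      · intro r hr; exact Int.natCast_dvd.mp (h2 r hr)
    have h5 : ((a : ℤ) - b).natAbs < ∏ r ∈ F, r := by omega
    have h6 := Nat.eq_zero_of_dvd_of_lt h4 h5
    omega

theorem prod_ratio (F : Finset ℕ) (hF : ∀ r ∈ F, 3 ≤ r) :
    ((∏ r ∈ F, (r - 2) : ℕ) : ℝ) ≤ Real.exp (-∑ r ∈ F, (1 : ℝ) / r) * ((∏ r ∈ F, (r - 1) : ℕ) : ℝ) := by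
  rw [← sum_neg_distrib, Real.exp_sum]
  push_cast
  rw [← prod_mul_distrib]
  apply Finset.prod_le_prod
  · intro r _; exact Nat.cast_nonneg _
  · intro r hr
    have h3 := hF r hr
    rw [Nat.cast_sub (by omega), Nat.cast_sub (by omega)]
    have hr0 : (3 : ℝ) ≤ r := by exact_mod_cast h3
    have h1 : 1 - 1 / (r : ℝ) ≤ Real.exp (-(1 / (r : ℝ))) := by
      have := Real.add_one_le_exp (-(1 / (r : ℝ)))
      linarith
    have h2 : (r : ℝ) - 2 ≤ (1 - 1 / (r : ℝ)) * (r - 1) := by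
      have : (1 - 1 / (r : ℝ)) * (r - 1) = r - 2 + 1 / r := by field_simp; ring
      rw [this]
      have : 0 < 1 / (r : ℝ) := by positivity
      linarith
    calc ((r : ℝ) - ((2 : ℕ) : ℝ)) = (r : ℝ) - 2 := by norm_num
      _ ≤ (1 - 1 / (r : ℝ)) * (r - 1) := h2
      _ ≤ Real.exp (-(1 / (r : ℝ))) * (r - 1) := mul_le_mul_of_nonneg_right h1 (by linarith)
      _ = Real.exp (-(1 / (r : ℝ))) * (r - ((1 : ℕ) : ℝ)) := by norm_num

/-- the number of primes in a set of classes -/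
theorem primes_in_classes : ∃ N₁ : ℕ, ∀ (M : ℕ) (b : Finset ℕ), 1 ≤ M → ∀ N : ℕ, N₁ * M ≤ N → M ^ 2 ≤ N →
    4 ≤ N → ((((range (N + 1)).filter (fun p : ℕ => p.Prime ∧ p % M ∈ b)).card : ℕ) : ℝ) ≤
      12 * ((b.card : ℝ) / Nat.totient M) * (N / Real.log N) := by
  classical
  obtain ⟨N₁, hN₁3, hbt⟩ := Pool.Agent.H617R3.BT.bt2 1 one_pos
  refine ⟨N₁, fun M b hM N hN hMN hN4 => ?_⟩
  obtain ⟨T, hT⟩ : ∃ T, T = N / M + 1 := ⟨_, rfl⟩
  have hTN₁ : N₁ ≤ T := by
    have : N₁ ≤ N / M := (Nat.le_div_iff_mul_le (by omega)).mpr hN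
    omega
  have hsub : (range (N + 1)).filter (fun p : ℕ => p.Prime ∧ p % M ∈ b) ⊆
      b.biUnion (fun a => ((range T).filter (fun t => (a + t * M).Prime)).image (fun t => a + t * M)) := by
    intro p hp
    rw [mem_filter, mem_range] at hp
    obtain ⟨hpN, hpp, hpb⟩ := hp
    rw [mem_biUnion]
    refine ⟨p % M, hpb, ?_⟩
    rw [mem_image]
    have h1 : p % M + p / M * M = p := by rw [mul_comm]; exact Nat.mod_add_div p M
    refine ⟨p / M, ?_, h1⟩
    rw [mem_filter, mem_range, h1]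
    refine ⟨?_, hpp⟩
    rw [hT]
    exact Nat.lt_succ_of_le (Nat.div_le_div_right (by omega))
  have hMR : (1 : ℝ) ≤ M := by exact_mod_cast hM
  have hφ : (0 : ℝ) < Nat.totient M := by exact_mod_cast Nat.totient_pos.mpr (by omega)
  have hNR : (4 : ℝ) ≤ N := by exact_mod_cast hN4
  have hlogN : 0 < Real.log N := Real.log_pos (by linarith)
  -- bound for each class
  have hT1 : (T : ℝ) * M ≤ 2 * N := by
    have h1 : N / M * M ≤ N := Nat.div_mul_le_self N M
    have h2 : M ≤ N := by nlinarith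
    have h3 : T * M ≤ 2 * N := by rw [hT, add_mul, one_mul]; omega
    exact_mod_cast h3
  have hT2 : Real.log N / 2 ≤ Real.log T := by
    have h1 : N < T * M := by
      rw [hT, mul_comm]
      exact Nat.lt_mul_div_succ N hM
    have h2 : (N : ℝ) ≤ (T : ℝ) ^ 2 := by
      have h3 : (N : ℝ) < T * M := by exact_mod_cast h1
      have h4 : (M : ℝ) ^ 2 ≤ N := by exact_mod_cast hMN
      have h5 : (0 : ℝ) ≤ T := Nat.cast_nonneg _
      by_contra hcon
      push Not at hcon
      have h6 : (T : ℝ) < M := by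
        by_contra h7
        push Not at h7
        nlinarith
      nlinarith
    have h3 := Real.log_le_log (by linarith) h2
    rw [Real.log_pow] at h3
    push_cast at h3
    linarith
  have hT0 : 0 < Real.log T := by linarith
  have hcls : ∀ a ∈ b, ((((range T).filter (fun t => (a + t * M).Prime)).image
      (fun t => a + t * M)).card : ℝ) ≤ 12 * (1 / Nat.totient M) * (N / Real.log N) := by
    intro a _
    have h1 : ((((range T).filter (fun t => (a + t * M).Prime)).image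
        (fun t => a + t * M)).card : ℝ) ≤ (((range T).filter (fun t => (a + t * M).Prime)).card : ℝ) := by
      exact_mod_cast card_image_le
    refine h1.trans ((hbt a M T hM hTN₁).trans ?_)
    have h2 : (2 + 1) * ((M : ℝ) / Nat.totient M) * T / Real.log T =
        3 * (1 / Nat.totient M) * ((T * M) / Real.log T) := by ring
    rw [h2]
    have h3 : ((T : ℝ) * M) / Real.log T ≤ (2 * N) / (Real.log N / 2) :=
      div_le_div₀ (by linarith) hT1 (by linarith) hT2
    calc 3 * (1 / (Nat.totient M : ℝ)) * ((T * M) / Real.log T)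
        ≤ 3 * (1 / (Nat.totient M : ℝ)) * ((2 * N) / (Real.log N / 2)) :=
          mul_le_mul_of_nonneg_left h3 (by positivity)
      _ = 12 * (1 / Nat.totient M) * (N / Real.log N) := by field_simp; ring
  have h2 : ((((range (N + 1)).filter (fun p : ℕ => p.Prime ∧ p % M ∈ b)).card : ℕ) : ℝ) ≤
      ∑ a ∈ b, ((((range T).filter (fun t => (a + t * M).Prime)).image
        (fun t => a + t * M)).card : ℝ) := by
    exact_mod_cast (card_le_card hsub).trans card_biUnion_le
  refine h2.trans ((sum_le_sum hcls).trans (le_of_eq ?_))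
  rw [sum_const, nsmul_eq_mul]
  ring

/-- `N / log N ≤ 2 π(N)` -/
theorem pi_lower : ∃ N₂ : ℕ, ∀ N : ℕ, N₂ ≤ N → (N : ℝ) / Real.log N ≤ 2 * (Nat.primeCounting N : ℝ) := by
  refine ⟨64, fun N hN => ?_⟩
  have hNR : (64 : ℝ) ≤ N := by exact_mod_cast hN
  have hlogN : 0 < Real.log N := Real.log_pos (by linarith)
  rw [div_le_iff₀ hlogN]
  have h1 := Chebyshev.psi_ge N
  have h2 := Chebyshev.psi_le_primeCounting_mul_log N
  have h3 := Real.log_two_gt_d9
  have h4 : Real.log (N + 1) ≤ N * 0.15 := by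
    have h5 : Real.log (((N : ℝ) + 1) / 64) ≤ ((N : ℝ) + 1) / 64 - 1 :=
      Real.log_le_sub_one_of_pos (by positivity)
    have h6 : Real.log ((N : ℝ) + 1) = Real.log (((N : ℝ) + 1) / 64) + Real.log 64 := by
      rw [← Real.log_mul (by positivity) (by norm_num)]
      congr 1; field_simp
    have h7 : Real.log 64 = 6 * Real.log 2 := by
      rw [show (64 : ℝ) = 2 ^ 6 by norm_num, Real.log_pow]; norm_num
    have h8 := Real.log_two_lt_d9
    rw [h6, h7]
    linarith
  have h9 : (N : ℝ) * Real.log 2 ≥ N * 0.69 := mul_le_mul_of_nonneg_left (by linarith) (by linarith)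
  linarith

/-- almost all primes fall into a given nonzero class modulo one of the primes of a finite set -/
theorem prime_avoid (R : Set ℕ) (hR : ∀ r ∈ R, r.Prime ∧ r ≠ 2)
    (hdiv : ¬ Summable (fun r : ℕ => R.indicator (fun n : ℕ => (1 : ℝ) / n) r))
    (ρ : ∀ r : ℕ, ZMod r) (hρ : ∀ r ∈ R, ρ r ≠ 0) (ε : ℝ) (hε : 0 < ε) :
    ∃ F : Finset ℕ, (∀ r ∈ F, r ∈ R) ∧ ∃ N₀ : ℕ, ∀ N : ℕ, N₀ ≤ N →
      ((((range (N + 1)).filter (fun p : ℕ => p.Prime ∧ ∀ r ∈ F, (p : ZMod r) ≠ ρ r)).card : ℕ) : ℝ) ≤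
        ε * Nat.primeCounting N := by
  classical
  obtain ⟨F, hFR, hF⟩ : ∃ F : Finset ℕ, (∀ r ∈ F, r ∈ R) ∧
      Real.exp (-(∑ r ∈ F, (1 : ℝ) / r)) ≤ ε / 48 := by
    have h1 : ∃ F : Finset ℕ, (-Real.log (ε / 48)) ≤ ∑ r ∈ F, R.indicator (fun n : ℕ => (1 : ℝ) / n) r := by
      by_contra hcon
      push Not at hcon
      apply hdiv
      refine summable_of_sum_le (fun r => ?_) (fun F => (hcon F).le)
      exact Set.indicator_nonneg (fun n _ => by positivity) r
    obtain ⟨F, hF⟩ := h1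
    refine ⟨F.filter (· ∈ R), fun r hr => (mem_filter.mp hr).2, ?_⟩
    have h2 : ∑ r ∈ F.filter (· ∈ R), (1 : ℝ) / r = ∑ r ∈ F, R.indicator (fun n : ℕ => (1 : ℝ) / n) r := by
      rw [sum_filter]
      apply sum_congr rfl
      intro r _
      simp only [Set.indicator_apply]
    rw [h2]
    calc Real.exp (-(∑ r ∈ F, R.indicator (fun n : ℕ => (1 : ℝ) / n) r)) ≤ Real.exp (Real.log (ε / 48)) :=
          Real.exp_le_exp.mpr (by linarith)
      _ = ε / 48 := Real.exp_log (by positivity)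
  obtain ⟨N₁, hN₁⟩ := primes_in_classes
  obtain ⟨N₂, hN₂⟩ := pi_lower
  obtain ⟨M, hM⟩ : ∃ M, M = ∏ r ∈ F, r := ⟨_, rfl⟩
  have hF3 : ∀ r ∈ F, 3 ≤ r := by
    intro r hr
    have h1 := (hR r (hFR r hr)).1.two_le
    have h2 := (hR r (hFR r hr)).2
    omega
  have hMpos : 1 ≤ M := by
    rw [hM]
    exact Nat.succ_le_of_lt (Finset.prod_pos (fun r hr => Nat.lt_of_lt_of_le (by norm_num) (hF3 r hr)))
  obtain ⟨b, hb⟩ : ∃ b : Finset ℕ, b = (range M).filter (fun a : ℕ => ∀ r ∈ F, (a : ZMod r) ≠ 0 ∧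
      (a : ZMod r) ≠ ρ r) := ⟨_, rfl⟩
  have hbφ : (b.card : ℝ) / Nat.totient M ≤ ε / 48 := by
    have h1 : b.card ≤ ∏ r ∈ F, (r - 2) := by
      rw [hb, hM]
      exact bad_card F (fun r hr => (hR r (hFR r hr)).1) ρ (fun r hr => hρ r (hFR r hr))
    have h2 := prod_ratio F hF3
    have h3 : Nat.totient M = ∏ r ∈ F, (r - 1) := by
      rw [hM]; exact totient_prod_primes F fun r hr => (hR r (hFR r hr)).1
    have h4 : (0 : ℝ) < Nat.totient M := by exact_mod_cast Nat.totient_pos.mpr (by omega)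
    rw [div_le_iff₀ h4, h3]
    have h5 : (b.card : ℝ) ≤ ((∏ r ∈ F, (r - 2) : ℕ) : ℝ) := by exact_mod_cast h1
    refine h5.trans (h2.trans ?_)
    exact mul_le_mul_of_nonneg_right hF (Nat.cast_nonneg _)
  have hlim : Tendsto (fun N : ℕ => (N : ℝ) ^ (1 / 2 : ℝ)) atTop atTop :=
    (tendsto_rpow_atTop (by norm_num)).comp tendsto_natCast_atTop_atTop
  obtain ⟨N₃, hN₃⟩ : ∃ N₃ : ℕ, ∀ N : ℕ, N₃ ≤ N → (F.card : ℝ) ≤ ε / 2 * Nat.primeCounting N := by
    have h1 : Tendsto (fun N : ℕ => ε / 2 * (Nat.primeCounting N : ℝ)) atTop atTop :=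
      (tendsto_natCast_atTop_atTop.comp Nat.tendsto_primeCounting).const_mul_atTop (by positivity)
    exact eventually_atTop.mp (h1.eventually_ge_atTop _)
  refine ⟨F, hFR, N₁ * M + M ^ 2 + N₂ + N₃ + 4, fun N hN => ?_⟩
  have hM2 : M ≤ M ^ 2 := Nat.le_self_pow (by norm_num) M
  have h1 := hN₁ M b hMpos N (by omega) (by omega) (by omega)
  have h2 := hN₂ N (by omega)
  have h3 := hN₃ N (by omega)
  have hsub : (range (N + 1)).filter (fun p : ℕ => p.Prime ∧ ∀ r ∈ F, (p : ZMod r) ≠ ρ r) ⊆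
      F ∪ (range (N + 1)).filter (fun p : ℕ => p.Prime ∧ p % M ∈ b) := by
    intro p hp
    rw [mem_filter, mem_range] at hp
    obtain ⟨hpN, hpp, hpF⟩ := hp
    rw [mem_union]
    by_cases hpm : p ∈ F
    · exact Or.inl hpm
    · refine Or.inr ?_
      rw [mem_filter, mem_range, hb, mem_filter, mem_range]
      refine ⟨hpN, hpp, Nat.mod_lt _ (by omega), fun r hr => ?_⟩
      have hrM : r ∣ M := by rw [hM]; exact dvd_prod_of_mem _ hr
      have h4 : ((p % M : ℕ) : ZMod r) = (p : ZMod r) := by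
        rw [ZMod.natCast_eq_natCast_iff']
        exact Nat.mod_mod_of_dvd p hrM
      rw [h4]
      refine ⟨fun h5 => ?_, hpF r hr⟩
      rw [ZMod.natCast_eq_zero_iff] at h5
      have h6 := (Nat.prime_dvd_prime_iff_eq (hR r (hFR r hr)).1 hpp).mp h5
      rw [h6] at hr
      exact hpm hr
  have h4 : ((((range (N + 1)).filter (fun p : ℕ => p.Prime ∧ ∀ r ∈ F, (p : ZMod r) ≠ ρ r)).card : ℕ) : ℝ)
      ≤ (F.card : ℝ) + ((((range (N + 1)).filter (fun p : ℕ => p.Prime ∧ p % M ∈ b)).card : ℕ) : ℝ) := by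
    exact_mod_cast (card_le_card hsub).trans (card_union_le _ _)
  have hlogN : 0 ≤ (N : ℝ) / Real.log N := by positivity
  calc _ ≤ _ := h4
    _ ≤ ε / 2 * Nat.primeCounting N + 12 * (ε / 48) * (2 * (Nat.primeCounting N : ℝ)) := by
        refine add_le_add h3 (h1.trans ?_)
        apply mul_le_mul (mul_le_mul_of_nonneg_left hbφ (by norm_num)) h2 hlogN (by positivity)
    _ = ε * Nat.primeCounting N := by ring

end Pool.Agent.TH888.B1
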