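import Mathlib

/-!
A nonnegative bounded sequence on the primes with mean value one: the sum of `1 / p` over its
support diverges.
-/

set_option autoImplicit false

namespace Pool.Agent.TH888.B1

open Finset Filter Topology

/-- Abel summation with the weights `1 / n` -/
theorem abel (c : ℕ → ℝ) (h0 : c 0 = 0) (N : ℕ) :
    ∑ n ∈ range (N + 1), c n * (1 / (n : ℝ)) =
      (∑ i ∈ range (N + 1), c i) * (1 / ((N + 1 : ℕ) : ℝ)) +
      ∑ n ∈ range (N + 1), (∑ i ∈ range (n + 1), c i) * (1 / (n : ℝ) - 1 / ((n + 1 : ℕ) : ℝ)) := by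
  induction N with
  | zero => simp [h0]
  | succ N ih =>
    rw [sum_range_succ, ih, sum_range_succ (fun n => (∑ i ∈ range (n + 1), c i) *
      (1 / (n : ℝ) - 1 / ((n + 1 : ℕ) : ℝ))) (N + 1), sum_range_succ c (N + 1)]
    ring

theorem support_diverges (a : ℕ → ℝ) (C : ℝ) (ha : ∀ p, 0 ≤ a p) (hC : ∀ p : ℕ, p.Prime → a p ≤ C)
    (hlim : Tendsto (fun N : ℕ => (∑ p ∈ (range (N + 1)).filter Nat.Prime, a p) /
      (Nat.primeCounting N : ℝ)) atTop (𝓝 1)) :
    ¬ Summable (fun n : ℕ => {p : ℕ | p.Prime ∧ a p ≠ 0}.indicator (fun n : ℕ => (1 : ℝ) / n) n) := by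
  classical
  intro hsum
  have hC0 : 0 ≤ C := (ha 2).trans (hC 2 Nat.prime_two)
  set T := ∑' n : ℕ, {p : ℕ | p.Prime ∧ a p ≠ 0}.indicator (fun n : ℕ => (1 : ℝ) / n) n with hT
  set c : ℕ → ℝ := fun n => if n.Prime then a n - 1 / 2 else 0 with hc
  have hc0 : c 0 = 0 := by simp only [hc]; rw [if_neg Nat.not_prime_zero]
  have hD : ∀ N : ℕ, ∑ i ∈ range (N + 1), c i =
      (∑ p ∈ (range (N + 1)).filter Nat.Prime, a p) - (Nat.primeCounting N : ℝ) / 2 := by
    intro N
    simp only [hc]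
    rw [← sum_filter, sum_sub_distrib, sum_const, nsmul_eq_mul]
    congr 1
    rw [Nat.primeCounting, Nat.primeCounting', Nat.count_eq_card_filter_range]
    ring
  -- the partial sums are eventually nonnegative
  obtain ⟨N₀, hN₀⟩ : ∃ N₀ : ℕ, ∀ N ≥ N₀, 0 ≤ ∑ i ∈ range (N + 1), c i := by
    have h1 := hlim.eventually (lt_mem_nhds (show (1 / 2 : ℝ) < 1 by norm_num))
    obtain ⟨N₁, hN₁⟩ := eventually_atTop.mp h1
    refine ⟨max N₁ 2, fun N hN => ?_⟩
    have h2 := hN₁ N ((le_max_left _ _).trans hN)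
    have h3 : 0 < (Nat.primeCounting N : ℝ) := by
      have h4 : Nat.primeCounting 2 ≤ Nat.primeCounting N :=
        Nat.monotone_primeCounting ((le_max_right _ _).trans hN)
      have h5 : 0 < Nat.primeCounting 2 := by
        rw [Nat.primeCounting, Nat.primeCounting']
        decide
      exact_mod_cast lt_of_lt_of_le h5 h4
    rw [lt_div_iff₀ h3] at h2
    rw [hD]
    linarith
  set K := ∑ n ∈ range (N₀ + 1), |(∑ i ∈ range (n + 1), c i)| *
    |1 / (n : ℝ) - 1 / ((n + 1 : ℕ) : ℝ)| with hK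
  have hw : ∀ n : ℕ, 1 ≤ n → (0 : ℝ) ≤ 1 / (n : ℝ) - 1 / ((n + 1 : ℕ) : ℝ) := by
    intro n hn
    have hn' : (0 : ℝ) < n := by exact_mod_cast hn
    rw [sub_nonneg]
    apply one_div_le_one_div_of_le hn'
    push_cast; linarith
  have hlow : ∀ N ≥ N₀, -K ≤ ∑ n ∈ range (N + 1), c n * (1 / (n : ℝ)) := by
    intro N hN
    rw [abel c hc0 N]
    have h1 : 0 ≤ (∑ i ∈ range (N + 1), c i) * (1 / ((N + 1 : ℕ) : ℝ)) :=
      mul_nonneg (hN₀ N hN) (by positivity)
    have h2 : -K ≤ ∑ n ∈ range (N + 1), (∑ i ∈ range (n + 1), c i) *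
        (1 / (n : ℝ) - 1 / ((n + 1 : ℕ) : ℝ)) := by
      rw [← sum_range_add_sum_Ico _ (show N₀ + 1 ≤ N + 1 by omega)]
      have h3 : -K ≤ ∑ n ∈ range (N₀ + 1), (∑ i ∈ range (n + 1), c i) *
          (1 / (n : ℝ) - 1 / ((n + 1 : ℕ) : ℝ)) := by
        rw [hK, ← sum_neg_distrib]
        apply sum_le_sum
        intro n _
        rw [← abs_mul]
        exact neg_abs_le _
      have h4 : 0 ≤ ∑ n ∈ Ico (N₀ + 1) (N + 1), (∑ i ∈ range (n + 1), c i) *
          (1 / (n : ℝ) - 1 / ((n + 1 : ℕ) : ℝ)) := by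
        apply sum_nonneg
        intro n hn
        rw [mem_Ico] at hn
        exact mul_nonneg (hN₀ n (by omega)) (hw n (by omega))
      linarith
    linarith
  -- upper bound for the weighted sum of `a`
  have hup : ∀ N : ℕ, ∑ n ∈ range (N + 1), (if n.Prime then a n else 0) * (1 / (n : ℝ)) ≤ C * T := by
    intro N
    have h1 : ∀ n ∈ range (N + 1), (if n.Prime then a n else 0) * (1 / (n : ℝ)) ≤
        C * {p : ℕ | p.Prime ∧ a p ≠ 0}.indicator (fun n : ℕ => (1 : ℝ) / n) n := by
      intro n _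
      by_cases hn : n.Prime
      · by_cases han : a n = 0
        · rw [if_pos hn, han, zero_mul]
          apply mul_nonneg hC0
          apply Set.indicator_nonneg
          intro _ _; positivity
        · rw [if_pos hn, Set.indicator_of_mem (show n ∈ {p : ℕ | p.Prime ∧ a p ≠ 0} from ⟨hn, han⟩)]
          exact mul_le_mul_of_nonneg_right (hC n hn) (by positivity)
      · rw [if_neg hn, zero_mul]
        apply mul_nonneg hC0
        apply Set.indicator_nonneg
        intro _ _; positivity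
    calc _ ≤ ∑ n ∈ range (N + 1),
          C * {p : ℕ | p.Prime ∧ a p ≠ 0}.indicator (fun n : ℕ => (1 : ℝ) / n) n := sum_le_sum h1
      _ = C * ∑ n ∈ range (N + 1),
          {p : ℕ | p.Prime ∧ a p ≠ 0}.indicator (fun n : ℕ => (1 : ℝ) / n) n := by rw [mul_sum]
      _ ≤ C * T := by
        apply mul_le_mul_of_nonneg_left _ hC0
        apply hsum.sum_le_tsum
        intro n _
        apply Set.indicator_nonneg
        intro _ _; positivity
  -- the sum over the primes is bounded
  apply not_summable_one_div_on_primes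
  have hnn : ∀ n : ℕ, 0 ≤ Set.indicator {p : ℕ | p.Prime} (fun n : ℕ => (1 : ℝ) / n) n := by
    intro n
    apply Set.indicator_nonneg
    intro _ _; positivity
  refine summable_of_sum_range_le (c := 2 * (C * T + K)) hnn ?_
  intro N
  have h1 : ∑ i ∈ range N, Set.indicator {p : ℕ | p.Prime} (fun n : ℕ => (1 : ℝ) / n) i ≤
      ∑ i ∈ range (max N N₀ + 1), Set.indicator {p : ℕ | p.Prime} (fun n : ℕ => (1 : ℝ) / n) i :=
    sum_le_sum_of_subset_of_nonneg (range_mono (by omega)) (fun i _ _ => hnn i)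
  have h2 := hlow (max N N₀) (le_max_right _ _)
  have h3 := hup (max N N₀)
  have h4 : ∑ n ∈ range (max N N₀ + 1), c n * (1 / (n : ℝ)) =
      (∑ n ∈ range (max N N₀ + 1), (if n.Prime then a n else 0) * (1 / (n : ℝ))) -
      (1 / 2) * ∑ i ∈ range (max N N₀ + 1),
        Set.indicator {p : ℕ | p.Prime} (fun n : ℕ => (1 : ℝ) / n) i := by
    rw [mul_sum, ← sum_sub_distrib]
    apply sum_congr rfl
    intro n _
    simp only [hc]
    by_cases hn : n.Prime
    · rw [if_pos hn, if_pos hn, Set.indicator_of_mem (show n ∈ {p : ℕ | p.Prime} from hn)]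
      ring
    · rw [if_neg hn, if_neg hn, Set.indicator_of_notMem (show n ∉ {p : ℕ | p.Prime} from hn)]
      ring
  rw [h4] at h2
  linarith

/-- removing finitely many primes does not matter -/
theorem diverges_diff {R T : Set ℕ} (hT : T.Finite)
    (h : ¬ Summable (fun n : ℕ => R.indicator (fun n : ℕ => (1 : ℝ) / n) n)) :
    ¬ Summable (fun n : ℕ => (R \ T).indicator (fun n : ℕ => (1 : ℝ) / n) n) := by
  intro h1
  apply h
  have h2 : Summable (fun n : ℕ => (R ∩ T).indicator (fun n : ℕ => (1 : ℝ) / n) n) := by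
    apply summable_of_hasFiniteSupport
    exact (hT.subset fun n hn => by
      by_contra hnT
      exact hn (Set.indicator_of_notMem (fun h3 => hnT h3.2) _))
  refine (h1.add h2).congr fun n => ?_
  by_cases hR : n ∈ R
  · by_cases hnT : n ∈ T
    · rw [Set.indicator_of_notMem (fun h3 => h3.2 hnT), Set.indicator_of_mem (show n ∈ R ∩ T from ⟨hR, hnT⟩),
        Set.indicator_of_mem hR, zero_add]
    · rw [Set.indicator_of_mem (show n ∈ R \ T from ⟨hR, hnT⟩), Set.indicator_of_notMem (fun h3 => hnT h3.2),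
        Set.indicator_of_mem hR, add_zero]
  · rw [Set.indicator_of_notMem (fun h3 => hR h3.1), Set.indicator_of_notMem (fun h3 => hR h3.1),
      Set.indicator_of_notMem hR, add_zero]

theorem diverges_mono {R T : Set ℕ} (hRT : R ⊆ T)
    (h : ¬ Summable (fun n : ℕ => R.indicator (fun n : ℕ => (1 : ℝ) / n) n)) :
    ¬ Summable (fun n : ℕ => T.indicator (fun n : ℕ => (1 : ℝ) / n) n) := by
  intro h1
  apply h
  refine Summable.of_nonneg_of_le ?_ ?_ h1
  · intro n
    apply Set.indicator_nonneg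
    intro _ _; positivity
  · intro n
    apply Set.indicator_le_indicator_of_subset hRT
    intro _; positivity

end Pool.Agent.TH888.B1
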