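import Mathlib
import Pool.Agent.W401.Cheb.Main
import Pool.Agent.TH888.B1.Div

/-!
Chebotarev: for every element of a Galois group the sum of `1 / p` over the primes with this
Frobenius diverges; primes modulo which a polynomial has a root.
-/

set_option autoImplicit false

namespace Pool.Agent.TH888.B1

open Finset Filter Topology NumberField Polynomial
open Pool.Agent.W401.Cheb

theorem frob_diverges (L : Type) [Field L] [NumberField L] [IsGalois ℚ L] (g : Gal(L/ℚ)) :
    ¬ Summable (fun n : ℕ => {p : ℕ | p.Prime ∧ xp L g p ≠ 0}.indicator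
      (fun n : ℕ => (1 : ℝ) / n) n) := by
  obtain ⟨D, hD, hTor⟩ := torsor L
  set C : ℕ := Nat.card Gal(L/ℚ) + ∑ p ∈ range (D + 1), xp L g p with hC
  have hb : ∀ p : ℕ, p.Prime → (xp L g p : ℝ) ≤ C := by
    intro p hp
    have : Fact p.Prime := ⟨hp⟩
    by_cases hpD : p ∣ D
    · have h1 : p ∈ range (D + 1) := mem_range.mpr (by have := Nat.le_of_dvd hD hpD; omega)
      have h2 : xp L g p ≤ ∑ p ∈ range (D + 1), xp L g p :=
        single_le_sum (f := fun p => xp L g p) (fun _ _ => Nat.zero_le _) h1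
      exact_mod_cast h2.trans (Nat.le_add_left _ _)
    · obtain ⟨h1, -, -⟩ := hTor p hpD
      have h2 : xp L g p ≤ Nat.card Gal(L/ℚ) := by
        unfold xp
        rw [dif_pos hp]
        have hf : Finite (𝓞 L →+* AlgebraicClosure (ZMod p)) := by
          apply Nat.finite_of_card_ne_zero
          rw [h1]
          exact Nat.card_pos.ne'
        rw [← h1]
        exact Nat.card_le_card_of_injective (fun φ => φ.1) Subtype.val_injective
      exact_mod_cast h2.trans (Nat.le_add_right _ _)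
  have h := support_diverges (fun p => (xp L g p : ℝ)) C (fun p => Nat.cast_nonneg _) hb
    (chebotarev L g)
  refine diverges_mono ?_ h
  rintro p ⟨hp, hx⟩
  exact ⟨hp, by exact_mod_cast hx⟩

/-- a homomorphism with given Frobenius -/
theorem exists_hom {L : Type} [Field L] [NumberField L] (g : Gal(L/ℚ)) {p : ℕ} (hp : p.Prime)
    (h : xp L g p ≠ 0) : haveI : Fact p.Prime := ⟨hp⟩
    ∃ φ : 𝓞 L →+* AlgebraicClosure (ZMod p), ∀ x : 𝓞 L, φ (g • x) = φ x ^ p := by
  have : Fact p.Prime := ⟨hp⟩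
  unfold xp at h
  rw [dif_pos hp] at h
  have h1 : Nonempty {φ : 𝓞 L →+* AlgebraicClosure (ZMod p) // HasFrob p φ g} := by
    by_contra hcon
    rw [not_nonempty_iff] at hcon
    exact h Nat.card_of_isEmpty
  obtain ⟨φ, hφ⟩ := h1
  exact ⟨φ, hφ⟩

/-- roots modulo `p` from homomorphisms: `a α = y` integral, `f α = 0` and `φ y` in `F_p` -/
theorem root_of_hom {L : Type} [Field L] [NumberField L] {p : ℕ} [Fact p.Prime]
    (φ : 𝓞 L →+* AlgebraicClosure (ZMod p)) (f : ℤ[X]) (α : L) (hα : aeval α f = 0) (y : 𝓞 L)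
    (a : ℤ) (hy : (y : L) = a * α) (ha : ¬ (p : ℤ) ∣ a) (z : ZMod p)
    (hz : algebraMap (ZMod p) (AlgebraicClosure (ZMod p)) z = φ y) :
    (f.map (Int.castRingHom (ZMod p))).eval (z / (a : ZMod p)) = 0 := by
  have ha0 : (a : ZMod p) ≠ 0 := by
    rwa [Ne, ZMod.intCast_zmod_eq_zero_iff_dvd]
  set d := f.natDegree with hd
  -- the homogenised identity in `𝓞 L`
  have h1 : ∑ i ∈ range (d + 1), (f.coeff i : 𝓞 L) * (a : 𝓞 L) ^ (d - i) * y ^ i = 0 := by
    apply RingOfIntegers.coe_injective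
    simp only [map_sum, map_mul, map_pow, map_intCast, map_zero, hy]
    have h2 : (aeval α f) = ∑ i ∈ range (d + 1), (f.coeff i : L) * α ^ i := by
      rw [aeval_eq_sum_range]
      apply sum_congr rfl
      intro i _
      rw [zsmul_eq_mul]
    rw [h2] at hα
    have h3 : ∑ i ∈ range (d + 1), (f.coeff i : L) * (a : L) ^ (d - i) * ((a : L) * α) ^ i =
        (a : L) ^ d * ∑ i ∈ range (d + 1), (f.coeff i : L) * α ^ i := by
      rw [mul_sum]
      apply sum_congr rfl
      intro i hi
      have hi' : i ≤ d := by rw [mem_range] at hi; omega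
      rw [mul_pow, ← Nat.sub_add_cancel hi', pow_add]
      rw [Nat.sub_add_cancel hi']
      ring
    rw [h3, hα, mul_zero]
  have h4 := congrArg φ h1
  simp only [map_sum, map_mul, map_pow, map_intCast, map_zero, ← hz] at h4
  have h5 : ∑ i ∈ range (d + 1), (f.coeff i : ZMod p) * (a : ZMod p) ^ (d - i) * z ^ i = 0 := by
    apply (algebraMap (ZMod p) (AlgebraicClosure (ZMod p))).injective
    simp only [map_sum, map_mul, map_pow, map_intCast, map_zero]
    exact h4
  have h6 : (f.map (Int.castRingHom (ZMod p))).eval (z / (a : ZMod p)) =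
      ∑ i ∈ range (d + 1), (f.coeff i : ZMod p) * (z / (a : ZMod p)) ^ i := by
    rw [eval_map, eval₂_eq_sum_range]
    rfl
  have h7 : (a : ZMod p) ^ d * (f.map (Int.castRingHom (ZMod p))).eval (z / (a : ZMod p)) = 0 := by
    rw [h6, mul_sum, ← h5]
    apply sum_congr rfl
    intro i hi
    have hi' : i ≤ d := by rw [mem_range] at hi; omega
    have h8 : (a : ZMod p) ^ d = (a : ZMod p) ^ (d - i) * (a : ZMod p) ^ i := by
      rw [← pow_add, Nat.sub_add_cancel hi']
    rw [h8, div_pow]
    field_simp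
  exact (mul_eq_zero.mp h7).resolve_left (pow_ne_zero _ ha0)

/-- the primes modulo which a nonconstant polynomial has a root -/
def RootPrimes (f : ℤ[X]) : Set ℕ :=
  {p | p.Prime ∧ ∃ x : ZMod p, (f.map (Int.castRingHom (ZMod p))).eval x = 0}

theorem rootPrimes_aux (L : Type) [Field L] [NumberField L] [IsGalois ℚ L] (f : ℤ[X])
    (hf : 0 < f.natDegree) (α : L) (hα : aeval α f = 0) :
    ¬ Summable (fun n : ℕ => (RootPrimes f).indicator (fun n : ℕ => (1 : ℝ) / n) n) := by
  have hint : IsIntegral ℤ (f.leadingCoeff • α) := isIntegral_leadingCoeff_smul f α hα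
  obtain ⟨y, hy⟩ : ∃ y : 𝓞 L, (y : L) = f.leadingCoeff • α := ⟨⟨_, hint⟩, rfl⟩
  have hyL : (y : L) = (f.leadingCoeff : L) * α := by
    rw [hy, zsmul_eq_mul]
  have hlc : f.leadingCoeff ≠ 0 := by
    rw [Ne, leadingCoeff_eq_zero]
    rintro rfl
    simp at hf
  have h1 := frob_diverges L (1 : Gal(L/ℚ))
  have hfin : {p : ℕ | (p : ℤ) ∣ f.leadingCoeff}.Finite := by
    apply (Set.finite_Icc 0 f.leadingCoeff.natAbs).subset
    intro p hp
    rw [Set.mem_ofPred_eq, Int.natCast_dvd] at hp
    exact ⟨Nat.zero_le _, Nat.le_of_dvd (Int.natAbs_pos.mpr hlc) hp⟩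
  refine diverges_mono ?_ (diverges_diff hfin h1)
  rintro p ⟨⟨hp, hx⟩, hpl⟩
  have : Fact p.Prime := ⟨hp⟩
  obtain ⟨φ, hφ⟩ := exists_hom (1 : Gal(L/ℚ)) hp hx
  refine ⟨hp, ?_⟩
  have h2 : φ y ^ p = φ y := by
    rw [← hφ y, one_smul]
  obtain ⟨z, hz⟩ := W54.ChTor.frob_fixed p (φ y) h2
  exact ⟨_, root_of_hom φ f α hα y f.leadingCoeff hyL hpl z hz⟩

theorem aeval_of_map (f : ℤ[X]) (F : ℚ[X]) (hF : F = f.map (Int.castRingHom ℚ)) {L : Type}
    [Field L] [Algebra ℚ L] (α : L) (h : aeval α F = 0) : aeval α f = 0 := by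
  subst hF
  rw [aeval_def, eval₂_map] at h
  rw [aeval_def, ← h, RingHom.ext_int (algebraMap ℤ L) ((algebraMap ℚ L).comp (Int.castRingHom ℚ))]

theorem rootPrimes_diverges (f : ℤ[X]) (hf : 0 < f.natDegree) :
    ¬ Summable (fun n : ℕ => (RootPrimes f).indicator (fun n : ℕ => (1 : ℝ) / n) n) := by
  obtain ⟨F, hF⟩ : ∃ F : ℚ[X], F = f.map (Int.castRingHom ℚ) := ⟨_, rfl⟩
  have hFdeg : F.natDegree = f.natDegree := by
    rw [hF]; exact natDegree_map_eq_of_injective (Int.castRingHom ℚ).injective_int f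
  have hF0 : F ≠ 0 := by
    intro h
    rw [h, natDegree_zero] at hFdeg
    omega
  have hS : IsSplittingField ℚ F.SplittingField F := IsSplittingField.splittingField F
  have h1 : FiniteDimensional ℚ F.SplittingField := IsSplittingField.finiteDimensional _ F
  have h2 : CharZero F.SplittingField :=
    charZero_of_injective_algebraMap (algebraMap ℚ F.SplittingField).injective
  have hnf : NumberField F.SplittingField := ⟨⟩
  have hN : Normal ℚ F.SplittingField := Normal.of_isSplittingField F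
  have hG : IsGalois ℚ F.SplittingField := ⟨⟩
  have hdeg : (F.map (algebraMap ℚ F.SplittingField)).degree ≠ 0 := by
    rw [degree_map]
    intro h
    rw [degree_eq_natDegree hF0] at h
    have : F.natDegree = 0 := by exact_mod_cast h
    omega
  obtain ⟨α, hα⟩ := (SplittingField.splits F).exists_eval_eq_zero hdeg
  rw [eval_map_algebraMap] at hα
  exact rootPrimes_aux F.SplittingField f hf α (aeval_of_map f F hF α hα)

end Pool.Agent.TH888.B1
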