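import Mathlib
import Pool.Agent.TH907.Bak.Weak

/-!
Exponents of `a ^ l ± b ^ m = ± c ^ k` when `a` and `b` have small odd prime factors
(`p`-adic linear forms in logarithms, `Pool.Agent.TH907.Bak.Weak`).
-/

set_option autoImplicit false

namespace Pool.Agent.TH888.B1

open Filter Topology

theorem baker_two : ∃ C κ : ℕ, ∀ (p : ℕ) [Fact p.Prime], p ≠ 2 → ∀ S : ℕ, p ≤ S →
    ∀ a c i j M : ℕ, ¬ p ∣ a → ¬ p ∣ c → a ≤ 2 ^ S → c ≤ 2 ^ S → i ≤ 2 ^ S → j ≤ 2 ^ S →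
      a ^ i ≠ c ^ j → (p : ℤ) ^ M ∣ (a : ℤ) ^ i - (c : ℤ) ^ j → M ≤ C * S ^ κ := by
  obtain ⟨C, κ, hC⟩ := Pool.Agent.TH907.Bak.weakBaker 2
  refine ⟨C, κ, ?_⟩
  intro p hp hp2 S hpS a c i j M hpa hpc ha hc hi hj hne hdvd
  have hco : ∀ n : ℕ, ¬ p ∣ n → Nat.Coprime n (p ^ M) := fun n hn =>
    (((Nat.Prime.coprime_iff_not_dvd hp.out).mpr hn).symm).pow_right M
  have ha0 : 0 < a := Nat.pos_of_ne_zero (by rintro rfl; exact hpa (dvd_zero p))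
  have hc0 : 0 < c := Nat.pos_of_ne_zero (by rintro rfl; exact hpc (dvd_zero p))
  refine hC p hp2 S hpS ![a, c] ![(i : ℤ), -(j : ℤ)] M
    ![ZMod.unitOfCoprime a (hco a hpa), ZMod.unitOfCoprime c (hco c hpc)] ?_ ?_ ?_ ?_ ?_ ?_
  · intro t
    fin_cases t <;> simp [ZMod.coe_unitOfCoprime]
  · intro t
    fin_cases t <;> simp [ha0, hc0]
  · intro t
    fin_cases t <;> simp [ha, hc]
  · intro t
    fin_cases t
    · simp only [Fin.zero_eta, Matrix.cons_val_zero, Nat.abs_cast]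
      exact_mod_cast hi
    · change |(-(j : ℤ))| ≤ 2 ^ S
      rw [abs_neg, Nat.abs_cast]
      exact_mod_cast hj
  · simp only [Fin.prod_univ_two, Matrix.cons_val_zero, Matrix.cons_val_one]
    intro h
    apply hne
    have hc' : (c : ℚ) ^ j ≠ 0 := pow_ne_zero _ (by exact_mod_cast hc0.ne')
    rw [zpow_neg, zpow_natCast, zpow_natCast, mul_inv_eq_one₀ hc'] at h
    exact_mod_cast h
  · simp only [Fin.prod_univ_two, Matrix.cons_val_zero, Matrix.cons_val_one]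
    rw [zpow_neg, zpow_natCast, zpow_natCast, mul_inv_eq_one]
    apply Units.ext
    rw [Units.val_pow_eq_pow_val, Units.val_pow_eq_pow_val, ZMod.coe_unitOfCoprime,
      ZMod.coe_unitOfCoprime]
    have h1 : (((p ^ M : ℕ) : ℤ)) ∣ (a : ℤ) ^ i - (c : ℤ) ^ j := by exact_mod_cast hdvd
    rw [← ZMod.intCast_zmod_eq_zero_iff_dvd] at h1
    push_cast at h1
    exact sub_eq_zero.mp h1

theorem growth (C κ : ℕ) : ∃ L₀ : ℕ, ∀ L : ℕ, 2 ^ L ≤ C * L ^ κ → L ≤ L₀ := by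
  have h := tendsto_pow_const_div_const_pow_of_one_lt κ (r := 2) (by norm_num)
  have h2 := h.eventually (gt_mem_nhds (show (0 : ℝ) < 1 / (C + 1) by positivity))
  obtain ⟨L₀, hL₀⟩ := eventually_atTop.mp h2
  refine ⟨L₀, fun L hL => ?_⟩
  by_contra hcon
  have h3 := hL₀ L (by omega)
  rw [div_lt_div_iff₀ (by positivity) (by positivity), one_mul] at h3
  have h4 : (2 : ℝ) ^ L ≤ C * (L : ℝ) ^ κ := by exact_mod_cast hL
  have h5 : (0 : ℝ) ≤ (L : ℝ) ^ κ := by positivity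
  nlinarith

/-- The exponents are bounded by a power of the logarithm of the bases. -/
theorem exp_bound : ∃ C κ : ℕ, ∀ S₀ : ℕ, 1 ≤ S₀ → ∀ p p' : ℕ, p.Prime → p'.Prime → p ≠ 2 → p' ≠ 2 →
    p ≤ S₀ → p' ≤ S₀ → ∀ a b c l m k : ℕ, 2 ≤ a → 2 ≤ b → 1 ≤ c → a ≤ 2 ^ S₀ → b ≤ 2 ^ S₀ →
      c ≤ 2 ^ S₀ → Nat.Coprime a b → Nat.Coprime a c → Nat.Coprime b c → p ∣ b → p' ∣ a →
      0 < l → 0 < m → ∀ s t : ℤ, (s = 1 ∨ s = -1) → (t = 1 ∨ t = -1) →
        (a : ℤ) ^ l + s * (b : ℤ) ^ m = t * (c : ℤ) ^ k →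
        l ≤ C * S₀ ^ κ ∧ m ≤ C * S₀ ^ κ ∧ (2 ≤ c → k ≤ C * S₀ ^ κ) := by
  obtain ⟨C, κ, hC⟩ := baker_two
  obtain ⟨L₀, hL₀⟩ := growth (4 * (C + 2)) (κ + 1)
  refine ⟨(C + 2) * (L₀ + 1) ^ (κ + 1), κ + 1, ?_⟩
  intro S₀ hS₀ p p' hp hp' hp2 hp2' hpS hpS' a b c l m k ha hb hc haS hbS hcS hab hac hbc hpb hpa hl
    hm s t hs ht h
  have : Fact p.Prime := ⟨hp⟩
  have : Fact p'.Prime := ⟨hp'⟩
  have hs2 : s * s = 1 := by rcases hs with rfl | rfl <;> norm_num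
  have ht2 : t * t = 1 := by rcases ht with rfl | rfl <;> norm_num
  -- not divisible
  have nd : ∀ {q x y : ℕ}, q.Prime → Nat.Coprime x y → q ∣ x → ¬ q ∣ y := by
    intro q x y hq hxy hx hy
    have := Nat.dvd_gcd hx hy
    rw [hxy.gcd_eq_one] at this
    exact hq.one_lt.ne' (Nat.dvd_one.mp this)
  -- the exponent of `c`
  obtain ⟨j, k', hj, hjk, hk'⟩ : ∃ j k' : ℕ, (c : ℤ) ^ j = (c : ℤ) ^ (2 * k) ∧ j ≤ 2 * k' ∧
      ((2 ≤ c ∧ k' = k) ∨ (c = 1 ∧ k' = 0)) := by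
    rcases Nat.lt_or_ge c 2 with h1 | h1
    · have : c = 1 := by omega
      subst this
      exact ⟨0, 0, by simp, by omega, Or.inr ⟨rfl, rfl⟩⟩
    · exact ⟨2 * k, k, rfl, le_rfl, Or.inl ⟨h1, rfl⟩⟩
  have hcj : (c : ℤ) ^ j = ((a : ℤ) ^ l + s * (b : ℤ) ^ m) ^ 2 := by
    rw [hj, h]
    have : (t * (c : ℤ) ^ k) ^ 2 = (t * t) * (c : ℤ) ^ (2 * k) := by ring
    rw [this, ht2, one_mul]
  set X := max (max l m) k' with hX
  set S := max S₀ (Nat.log 2 (2 * X) + 1) with hS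
  have hXS : 2 * X ≤ 2 ^ S := by
    have h1 : 2 * X < 2 ^ (Nat.log 2 (2 * X) + 1) := Nat.lt_pow_succ_log_self (by norm_num) _
    exact h1.le.trans (Nat.pow_le_pow_right (by norm_num) (le_max_right _ _))
  have h2S : (2 : ℕ) ^ S₀ ≤ 2 ^ S := Nat.pow_le_pow_right (by norm_num) (le_max_left _ _)
  have hlX : l ≤ X := (le_max_left _ _).trans (le_max_left _ _)
  have hmX : m ≤ X := (le_max_right _ _).trans (le_max_left _ _)
  have hkX : k' ≤ X := le_max_right _ _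
  -- nondegeneracy
  have hne : ∀ {x : ℕ} {i : ℕ}, 2 ≤ x → 0 < i → Nat.Coprime x c → x ^ (2 * i) ≠ c ^ j := by
    intro x i hx hi hxc he
    obtain ⟨q, hq, hqx⟩ := Nat.exists_prime_and_dvd (show x ≠ 1 by omega)
    have h1 : q ∣ c ^ j := by rw [← he]; exact dvd_pow hqx (by omega)
    exact nd hq hxc hqx (hq.dvd_of_dvd_pow h1)
  -- bound for `m`
  have hmB : m ≤ C * S ^ κ := by
    refine hC p hp2 S (hpS.trans (le_max_left _ _)) a c (2 * l) j m (nd hp hab.symm hpb)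
      (nd hp hbc hpb) (haS.trans h2S) (hcS.trans h2S) (by omega) (by omega) (hne ha hl hac) ?_
    have h1 : (a : ℤ) ^ (2 * l) - (c : ℤ) ^ j = (b : ℤ) ^ m * (-(2 * s * (a : ℤ) ^ l + (b : ℤ) ^ m)) := by
      rw [hcj]
      linear_combination (-((b : ℤ) ^ m) ^ 2) * hs2
    rw [h1]
    apply Dvd.dvd.mul_right
    exact pow_dvd_pow_of_dvd (by exact_mod_cast hpb) m
  have hlB : l ≤ C * S ^ κ := by
    refine hC p' hp2' S (hpS'.trans (le_max_left _ _)) b c (2 * m) j l (nd hp' hab hpa)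
      (nd hp' hac hpa) (hbS.trans h2S) (hcS.trans h2S) (by omega) (by omega) (hne hb hm hbc) ?_
    have h1 : (b : ℤ) ^ (2 * m) - (c : ℤ) ^ j = (a : ℤ) ^ l * (-((a : ℤ) ^ l + 2 * s * (b : ℤ) ^ m)) := by
      rw [hcj]
      linear_combination (-((b : ℤ) ^ m) ^ 2) * hs2
    rw [h1]
    apply Dvd.dvd.mul_right
    exact pow_dvd_pow_of_dvd (by exact_mod_cast hpa) l
  -- bound for `k'`
  have hkB : k' ≤ S₀ * (C * S ^ κ) + 1 := by
    rcases hk' with ⟨hc2, rfl⟩ | ⟨-, rfl⟩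
    · have h1 : (2 : ℤ) ^ k' ≤ 2 ^ (S₀ * (C * S ^ κ) + 1) := by
        have e1 : (2 : ℤ) ^ k' ≤ (c : ℤ) ^ k' := pow_le_pow_left₀ (by norm_num) (by exact_mod_cast hc2) _
        have e2 : (c : ℤ) ^ k' ≤ (a : ℤ) ^ l + (b : ℤ) ^ m := by
          have e3 : (c : ℤ) ^ k' = |(a : ℤ) ^ l + s * (b : ℤ) ^ m| := by
            rw [h, abs_mul]
            have : |t| = 1 := by rcases ht with rfl | rfl <;> simp
            rw [this, one_mul, abs_of_nonneg (by positivity)]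
          rw [e3]
          refine (abs_add_le _ _).trans ?_
          rw [abs_mul, abs_of_nonneg (by positivity : (0:ℤ) ≤ (a : ℤ) ^ l),
            abs_of_nonneg (by positivity : (0:ℤ) ≤ (b : ℤ) ^ m)]
          have : |s| = 1 := by rcases hs with rfl | rfl <;> simp
          rw [this, one_mul]
        have e4 : ∀ {x i : ℕ}, x ≤ 2 ^ S₀ → i ≤ C * S ^ κ → (x : ℤ) ^ i ≤ 2 ^ (S₀ * (C * S ^ κ)) := by
          intro x i hx hi
          calc (x : ℤ) ^ i ≤ ((2 : ℤ) ^ S₀) ^ i := pow_le_pow_left₀ (by positivity) (by exact_mod_cast hx) _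
            _ = 2 ^ (S₀ * i) := by rw [← pow_mul]
            _ ≤ 2 ^ (S₀ * (C * S ^ κ)) := pow_le_pow_right₀ (by norm_num) (Nat.mul_le_mul_left _ hi)
        have e5 := e4 haS hlB
        have e6 := e4 hbS hmB
        rw [pow_succ]
        linarith
      exact (pow_le_pow_iff_right₀ (by norm_num : (1 : ℤ) < 2)).mp h1
    · exact Nat.zero_le _
  -- conclusion
  have hXB : X ≤ S₀ * ((C + 1) * S ^ κ) + 1 := by
    have h1 : C * S ^ κ ≤ S₀ * (C * S ^ κ) := Nat.le_mul_of_pos_left _ hS₀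
    have h2 : S₀ * (C * S ^ κ) ≤ S₀ * ((C + 1) * S ^ κ) :=
      Nat.mul_le_mul_left _ (Nat.mul_le_mul_right _ (by omega))
    rw [hX]
    omega
  have hSpos : 1 ≤ S := hS₀.trans (le_max_left _ _)
  have hXB2 : X ≤ (C + 2) * S ^ (κ + 1) := by
    have h1 : S₀ * ((C + 1) * S ^ κ) ≤ (C + 1) * S ^ (κ + 1) := by
      calc S₀ * ((C + 1) * S ^ κ) ≤ S * ((C + 1) * S ^ κ) := Nat.mul_le_mul_right _ (le_max_left _ _)
        _ = (C + 1) * S ^ (κ + 1) := by ring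
    have h2 : 1 ≤ S ^ (κ + 1) := Nat.one_le_pow _ _ hSpos
    nlinarith
  have hfin : X ≤ (C + 2) * (L₀ + 1) ^ (κ + 1) * S₀ ^ (κ + 1) := by
    have hS0p : 1 ≤ S₀ ^ (κ + 1) := Nat.one_le_pow _ _ hS₀
    have hL0p : 1 ≤ (L₀ + 1) ^ (κ + 1) := Nat.one_le_pow _ _ (by omega)
    rcases le_total (Nat.log 2 (2 * X) + 1) S₀ with h1 | h1
    · have : S = S₀ := max_eq_left h1
      rw [this] at hXB2
      calc X ≤ _ := hXB2
        _ ≤ (C + 2) * (L₀ + 1) ^ (κ + 1) * S₀ ^ (κ + 1) :=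
          Nat.mul_le_mul_right _ (Nat.le_mul_of_pos_right _ hL0p)
    · have hSL : S = Nat.log 2 (2 * X) + 1 := max_eq_right h1
      have hX0 : 2 * X ≠ 0 := by omega
      have h2 : 2 ^ (Nat.log 2 (2 * X)) ≤ 2 * X := Nat.pow_log_le_self 2 hX0
      have h3 : 2 ^ S ≤ 4 * (C + 2) * S ^ (κ + 1) := by
        calc 2 ^ S = 2 * 2 ^ (Nat.log 2 (2 * X)) := by rw [hSL, pow_succ]; ring
          _ ≤ 2 * (2 * X) := Nat.mul_le_mul_left _ h2
          _ ≤ 2 * (2 * ((C + 2) * S ^ (κ + 1))) := by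
            exact Nat.mul_le_mul_left _ (Nat.mul_le_mul_left _ hXB2)
          _ = _ := by ring
      have h4 := hL₀ S h3
      calc X ≤ _ := hXB2
        _ ≤ (C + 2) * (L₀ + 1) ^ (κ + 1) :=
          Nat.mul_le_mul_left _ (Nat.pow_le_pow_left (by omega) _)
        _ ≤ _ := Nat.le_mul_of_pos_right _ hS0p
  refine ⟨hlX.trans hfin, hmX.trans hfin, fun hc2 => ?_⟩
  rcases hk' with ⟨-, hkk⟩ | ⟨h1, -⟩
  · rw [← hkk]; exact hkX.trans hfin
  · omega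

end Pool.Agent.TH888.B1
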