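import Mathlib
import Pool.Agent.H374R2.BealDens

/-!
Sets of natural numbers of uniform (upper Banach) density zero; the one-dimensional form of the
local sieve of `Pool.Agent.H374R2.BealDens`.
-/

set_option autoImplicit false

namespace Pool.Agent.TH888.B1

open Pool.Agent.H374R2.Beal

/-- A set of natural numbers has uniform (upper Banach) density zero. -/
def Null (E : Set ℕ) : Prop :=
  ∀ ε : ℝ, 0 < ε → ∃ L : ℕ, ∀ X : ℕ, L ≤ X → ∀ a : ℕ,
    ((E ∩ Set.Ioc a (a + X)).ncard : ℝ) ≤ ε * X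

theorem Null.mono {E F : Set ℕ} (h : Null F) (hEF : E ⊆ F) : Null E := by
  intro ε hε
  obtain ⟨L, hL⟩ := h ε hε
  refine ⟨L, fun X hX a => le_trans ?_ (hL X hX a)⟩
  exact_mod_cast Set.ncard_le_ncard (Set.inter_subset_inter_left _ hEF)
    ((Set.finite_Ioc a (a + X)).subset Set.inter_subset_right)

theorem Null.union {E F : Set ℕ} (h : Null E) (h' : Null F) : Null (E ∪ F) := by
  intro ε hε
  obtain ⟨L, hL⟩ := h (ε / 2) (by positivity)
  obtain ⟨L', hL'⟩ := h' (ε / 2) (by positivity)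
  refine ⟨max L L', fun X hX a => ?_⟩
  have h1 := hL X ((le_max_left _ _).trans hX) a
  have h2 := hL' X ((le_max_right _ _).trans hX) a
  have h3 : (((E ∪ F) ∩ Set.Ioc a (a + X)).ncard : ℝ) ≤
      (E ∩ Set.Ioc a (a + X)).ncard + (F ∩ Set.Ioc a (a + X)).ncard := by
    rw [Set.union_inter_distrib_right]
    exact_mod_cast Set.ncard_union_le _ _
  calc _ ≤ _ := h3
    _ ≤ ε / 2 * X + ε / 2 * X := add_le_add h1 h2
    _ = ε * X := by ring

theorem null_empty : Null (∅ : Set ℕ) := by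
  intro ε hε
  refine ⟨0, fun X _ a => ?_⟩
  simp only [Set.empty_inter, Set.ncard_empty, Nat.cast_zero]
  positivity

theorem Null.biUnion {ι : Type*} (s : Finset ι) (E : ι → Set ℕ) (h : ∀ i ∈ s, Null (E i)) :
    Null (⋃ i ∈ s, E i) := by
  classical
  induction s using Finset.induction_on with
  | empty => simpa using null_empty
  | insert i s hi ih =>
    rw [Finset.set_biUnion_insert]
    exact (h i (Finset.mem_insert_self i s)).union
      (ih fun j hj => h j (Finset.mem_insert_of_mem hj))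

/-- translation invariance -/
theorem Null.shift {E : Set ℕ} (h : Null E) (k : ℕ) : Null {n | n + k ∈ E} := by
  intro ε hε
  obtain ⟨L, hL⟩ := h ε hε
  refine ⟨L, fun X hX a => le_trans ?_ (hL X hX (a + k))⟩
  have h1 : (fun n => n + k) '' ({n | n + k ∈ E} ∩ Set.Ioc a (a + X)) ⊆
      E ∩ Set.Ioc (a + k) (a + k + X) := by
    rintro _ ⟨n, ⟨hn, hn1, hn2⟩, rfl⟩
    exact ⟨hn, by simp only; omega, by simp only; omega⟩
  have h2 := Set.ncard_le_ncard h1 ((Set.finite_Ioc _ _).subset Set.inter_subset_right)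
  rw [Set.ncard_image_of_injective _ (add_left_injective k)] at h2
  exact_mod_cast h2

/-- from pairs to integers -/
theorem null_of_pairs {E : Set ℕ} (h : UniformNull {p : ℕ × ℕ | p.1 ∈ E}) : Null E := by
  intro ε hε
  obtain ⟨L, hL⟩ := h ε hε
  refine ⟨L, fun X hX a => ?_⟩
  have h1 := hL X (L + 1) hX (by omega) a 0
  have h2 : {p : ℕ × ℕ | p.1 ∈ E} ∩ (Set.Ioc a (a + X) ×ˢ Set.Ioc 0 (0 + (L + 1))) =
      (E ∩ Set.Ioc a (a + X)) ×ˢ Set.Ioc 0 (0 + (L + 1)) := by
    ext ⟨x, y⟩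
    simp only [Set.mem_inter_iff, Set.mem_ofPred_eq, Set.mem_prod]
    tauto
  rw [h2, Set.ncard_prod] at h1
  have h3 : (Set.Ioc 0 (0 + (L + 1))).ncard = L + 1 := by
    rw [← Finset.coe_Ioc, Set.ncard_coe_finset, Nat.card_Ioc]; omega
  rw [h3] at h1
  push_cast at h1
  have h4 : (0 : ℝ) < (L : ℝ) + 1 := by positivity
  have h5 : ((E ∩ Set.Ioc a (a + X)).ncard : ℝ) * ((L : ℝ) + 1) ≤ (ε * X) * ((L : ℝ) + 1) := by
    calc _ ≤ _ := h1
      _ = _ := by ring
  exact le_of_mul_le_mul_right h5 h4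

/-- If `∑_{r ∈ R} 1 / r` diverges (`R` a set of primes), almost all integers are divisible by a
member of `R`. -/
theorem null_not_dvd (R : Set ℕ) (hR : ∀ r ∈ R, r.Prime)
    (hdiv : ¬ Summable (fun r : ℕ => R.indicator (fun n : ℕ => (1 : ℝ) / n) r)) :
    Null {n | ∀ r ∈ R, ¬ r ∣ n} := by
  have h := uniformNull_core R hR hdiv (fun _ => Set.univ) 1 one_pos (fun r hr => by
    have : NeZero r := ⟨(hR r hr).ne_zero⟩
    rw [Set.ncard_univ, Nat.card_eq_fintype_card, ZMod.card, one_mul])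
  refine null_of_pairs (h.mono ?_)
  rintro ⟨x, y⟩ hx r hr ⟨h1, -⟩
  exact hx r hr h1

end Pool.Agent.TH888.B1
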