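import Mathlib
import Pool.Agent.H374R2.BealDens
import Pool.Agent.TH888.B1.Null

/-!
The local sieve of `Pool.Agent.H374R2.BealDens` with general sets of residue classes, and its
one-dimensional form with one residue class for each prime.
-/

set_option autoImplicit false

namespace Pool.Agent.TH888.B1

open Finset Pool.Agent.H374R2.Beal

/-- If `∑_{r ∈ R} 1 / r` diverges and each `W r ⊆ (ℤ/r)^2` has at least `c r` elements, then for
every `ε > 0` there is a finite subset `F` of `R` such that in large boxes all but a proportion `ε`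
of the pairs are in `W r` modulo `r` for some `r ∈ F`. -/
theorem uniform_fin (R : Set ℕ) (hR : ∀ r ∈ R, r.Prime)
    (hdiv : ¬ Summable (fun r : ℕ => R.indicator (fun n : ℕ => (1 : ℝ) / n) r))
    (W : ∀ r : ℕ, Set (ZMod r × ZMod r)) (c : ℝ) (hc : 0 < c)
    (hT : ∀ r ∈ R, c * r ≤ (W r).ncard) (ε : ℝ) (hε : 0 < ε) :
    ∃ F : Finset ℕ, (∀ r ∈ F, r ∈ R) ∧ ∃ L : ℕ, ∀ X Y : ℕ, L ≤ X → L ≤ Y → ∀ a b : ℕ,
      (({p : ℕ × ℕ | ∀ r ∈ F, ¬ (((p.1 : ZMod r), (p.2 : ZMod r)) ∈ W r)} ∩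
        (Set.Ioc a (a + X) ×ˢ Set.Ioc b (b + Y))).ncard : ℝ) ≤ ε * (X * Y) := by
  classical
  obtain ⟨F, hFR, hF⟩ : ∃ F : Finset ℕ, (∀ r ∈ F, r ∈ R) ∧
      Real.exp (-(c * ∑ r ∈ F, (1 : ℝ) / r)) ≤ ε / 4 := by
    have h1 : ∃ F : Finset ℕ, (-Real.log (ε / 4)) / c ≤ ∑ r ∈ F, R.indicator (fun n : ℕ => (1 : ℝ) / n) r := by
      by_contra hcon
      push Not at hcon
      apply hdiv
      refine summable_of_sum_le (c := (-Real.log (ε / 4)) / c) ?_ ?_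
      · intro r
        apply Set.indicator_nonneg
        intro n _
        positivity
      · intro F
        exact (hcon F).le
    obtain ⟨F, hF⟩ := h1
    refine ⟨F.filter (fun r => r ∈ R), fun r hr => (Finset.mem_filter.mp hr).2, ?_⟩
    have h2 : ∑ r ∈ F, R.indicator (fun n : ℕ => (1 : ℝ) / n) r =
        ∑ r ∈ F.filter (fun r => r ∈ R), (1 : ℝ) / r := by
      rw [Finset.sum_filter]
      apply Finset.sum_congr rfl
      intro r _
      rw [Set.indicator_apply]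
    rw [h2, div_le_iff₀ hc] at hF
    have h3 : -(c * ∑ r ∈ F.filter (fun r => r ∈ R), (1 : ℝ) / r) ≤ Real.log (ε / 4) := by
      linarith
    calc _ ≤ Real.exp (Real.log (ε / 4)) := Real.exp_le_exp.mpr h3
      _ = ε / 4 := Real.exp_log (by positivity)
  have hpr : ∀ i : F, ((i : ℕ)).Prime := fun i => hR _ (hFR _ i.2)
  have hco : Pairwise fun i j : F => Nat.Coprime (i : ℕ) (j : ℕ) := by
    intro i j hij
    exact (Nat.coprime_primes (hpr i) (hpr j)).mpr (fun h => hij (Subtype.ext h))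
  have : ∀ i : F, NeZero (i : ℕ) := fun i => ⟨(hpr i).ne_zero⟩
  let S : ∀ i : F, Finset (ZMod (i : ℕ) × ZMod (i : ℕ)) := fun i =>
    Finset.univ.filter (fun p => ¬ (p ∈ W i))
  obtain ⟨M, hM, B, hBcard, hB⟩ := crt_count (fun i : F => (i : ℕ)) hco S
  have hMpos : 0 < M := hM ▸ Finset.prod_pos (fun i _ => (hpr i).pos)
  have hMR : (0 : ℝ) < M := by exact_mod_cast hMpos
  have hS : ∀ i : F, ((S i).card : ℝ) ≤ (i : ℝ) ^ 2 * Real.exp (-(c * ((1 : ℝ) / (i : ℕ)))) := by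
    intro i
    have hi0 : (0 : ℝ) < ((i : ℕ) : ℝ) := by exact_mod_cast (hpr i).pos
    have h1 : ((Finset.univ : Finset (ZMod (i : ℕ) × ZMod (i : ℕ))).filter
        (fun p => p ∈ W i)).card = (W i).ncard := by
      rw [← Set.ncard_coe_finset]
      congr 1
      ext x
      simp
    have h3 := Finset.card_filter_add_card_filter_not (s := (Finset.univ : Finset (ZMod (i : ℕ) × ZMod (i : ℕ))))
      (fun p => p ∈ W i)
    rw [h1, Finset.card_univ, Fintype.card_prod, ZMod.card] at h3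
    have h4 : ((S i).card : ℝ) = (i : ℝ) ^ 2 - (W i).ncard := by
      have : (((W i).ncard + (S i).card : ℕ) : ℝ) = ((((i : ℕ) * (i : ℕ)) : ℕ) : ℝ) := by
        exact_mod_cast h3
      push_cast at this
      linarith
    rw [h4]
    have h5 := hT i (hFR _ i.2)
    have h6 := Real.add_one_le_exp (-(c * ((1 : ℝ) / (i : ℕ))))
    have h7 : (i : ℝ) ^ 2 * (-(c * ((1 : ℝ) / (i : ℕ))) + 1) ≤ (i : ℝ) ^ 2 * Real.exp (-(c * ((1 : ℝ) / (i : ℕ)))) :=
      mul_le_mul_of_nonneg_left h6 (by positivity)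
    have h8 : (i : ℝ) ^ 2 * (-(c * ((1 : ℝ) / (i : ℕ))) + 1) = (i : ℝ) ^ 2 - c * i := by
      field_simp
      ring
    linarith
  have hBle : (B.card : ℝ) ≤ (M : ℝ) ^ 2 * (ε / 4) := by
    rw [hBcard]
    push_cast
    calc ∏ i : F, ((S i).card : ℝ) ≤ ∏ i : F, ((i : ℝ) ^ 2 * Real.exp (-(c * ((1 : ℝ) / (i : ℕ))))) :=
          Finset.prod_le_prod (fun i _ => by positivity) (fun i _ => hS i)
      _ = (M : ℝ) ^ 2 * Real.exp (-(c * ∑ r ∈ F, (1 : ℝ) / r)) := by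
          rw [Finset.prod_mul_distrib, Finset.prod_pow, hM]
          push_cast
          congr 1
          rw [← Real.exp_sum, Finset.sum_neg_distrib, ← Finset.mul_sum]
          congr 3
          exact Finset.sum_coe_sort F (fun r : ℕ => (1 : ℝ) / r)
      _ ≤ _ := mul_le_mul_of_nonneg_left hF (by positivity)
  refine ⟨F, hFR, M, fun X Y hX hY a b => ?_⟩
  have h1 := box_le M hMpos B {p | ∀ r ∈ F, ¬ (((p.1 : ZMod r), (p.2 : ZMod r)) ∈ W r)} (by
    rintro ⟨u, v⟩ h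
    apply hB
    intro i
    simp only [S, Finset.mem_filter, Finset.mem_univ, true_and]
    exact h i i.2) X Y a b
  have h2 : (((X / M + 1 : ℕ)) : ℝ) ≤ 2 * X / M := by
    have h3 : ((X / M : ℕ) : ℝ) ≤ X / M := Nat.cast_div_le
    have h4 : (1 : ℝ) ≤ X / M := by
      rw [le_div_iff₀ hMR, one_mul]; exact_mod_cast hX
    push_cast
    have : (2 : ℝ) * X / M = X / M + X / M := by ring
    linarith
  have h3 : (((Y / M + 1 : ℕ)) : ℝ) ≤ 2 * Y / M := by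
    have h3 : ((Y / M : ℕ) : ℝ) ≤ Y / M := Nat.cast_div_le
    have h4 : (1 : ℝ) ≤ Y / M := by
      rw [le_div_iff₀ hMR, one_mul]; exact_mod_cast hY
    push_cast
    have : (2 : ℝ) * Y / M = Y / M + Y / M := by ring
    linarith
  calc (({p | ∀ r ∈ F, ¬ (((p.1 : ZMod r), (p.2 : ZMod r)) ∈ W r)} ∩
        (Set.Ioc a (a + X) ×ˢ Set.Ioc b (b + Y))).ncard : ℝ)
      ≤ ((B.card * ((X / M + 1) * (Y / M + 1)) : ℕ) : ℝ) := by exact_mod_cast h1
    _ = (B.card : ℝ) * ((((X / M + 1 : ℕ)) : ℝ) * (((Y / M + 1 : ℕ)) : ℝ)) := by push_cast; ring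
    _ ≤ ((M : ℝ) ^ 2 * (ε / 4)) * ((2 * X / M) * (2 * Y / M)) := by
        apply mul_le_mul hBle _ (by positivity) (by positivity)
        exact mul_le_mul h2 h3 (by positivity) (by positivity)
    _ = ε * (X * Y) := by
        field_simp
        ring

/-- one residue class for each prime of `R`, finite form -/
theorem class_fin (R : Set ℕ) (hR : ∀ r ∈ R, r.Prime)
    (hdiv : ¬ Summable (fun r : ℕ => R.indicator (fun n : ℕ => (1 : ℝ) / n) r))
    (ρ : ∀ r : ℕ, ZMod r) (ε : ℝ) (hε : 0 < ε) :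
    ∃ F : Finset ℕ, (∀ r ∈ F, r ∈ R) ∧ ∃ L : ℕ, ∀ X : ℕ, L ≤ X → ∀ a : ℕ,
      (({n : ℕ | ∀ r ∈ F, (n : ZMod r) ≠ ρ r} ∩ Set.Ioc a (a + X)).ncard : ℝ) ≤ ε * X := by
  obtain ⟨F, hF, L, hL⟩ := uniform_fin R hR hdiv (fun r => {p | p.1 = ρ r}) 1 one_pos (fun r hr => by
    have : NeZero r := ⟨(hR r hr).ne_zero⟩
    have h1 : ({p : ZMod r × ZMod r | p.1 = ρ r}) = (fun y => (ρ r, y)) '' Set.univ := by
      ext ⟨x, y⟩
      simp only [Set.mem_ofPred_eq, Set.mem_image, Set.mem_univ, true_and, Prod.mk.injEq]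
      exact ⟨fun h => ⟨y, h.symm, rfl⟩, fun ⟨_, h, _⟩ => h.symm⟩
    rw [h1, Set.ncard_image_of_injective _ (fun a b hab => (Prod.mk.inj hab).2), Set.ncard_univ,
      Nat.card_eq_fintype_card, ZMod.card, one_mul]) ε hε
  refine ⟨F, hF, L, fun X hX a => ?_⟩
  have h1 := hL X (L + 1) hX (by omega) a 0
  have h2 : {p : ℕ × ℕ | ∀ r ∈ F, ¬ (((p.1 : ZMod r), (p.2 : ZMod r)) ∈
      {p : ZMod r × ZMod r | p.1 = ρ r})} ∩ (Set.Ioc a (a + X) ×ˢ Set.Ioc 0 (0 + (L + 1))) =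
      ({n : ℕ | ∀ r ∈ F, (n : ZMod r) ≠ ρ r} ∩ Set.Ioc a (a + X)) ×ˢ Set.Ioc 0 (0 + (L + 1)) := by
    ext ⟨x, y⟩
    simp only [Set.mem_inter_iff, Set.mem_ofPred_eq, Set.mem_prod]
    tauto
  rw [h2, Set.ncard_prod] at h1
  have h3 : (Set.Ioc 0 (0 + (L + 1))).ncard = L + 1 := by
    rw [← Finset.coe_Ioc, Set.ncard_coe_finset, Nat.card_Ioc]; omega
  rw [h3] at h1
  push_cast at h1
  have h4 : (0 : ℝ) < (L : ℝ) + 1 := by positivity
  have h5 : ((({n : ℕ | ∀ r ∈ F, (n : ZMod r) ≠ ρ r} ∩ Set.Ioc a (a + X)).ncard : ℝ)) *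
      ((L : ℝ) + 1) ≤ (ε * X) * ((L : ℝ) + 1) := by
    calc _ ≤ _ := h1
      _ = _ := by ring
  exact le_of_mul_le_mul_right h5 h4

/-- one residue class for each prime of `R` -/
theorem null_class (R : Set ℕ) (hR : ∀ r ∈ R, r.Prime)
    (hdiv : ¬ Summable (fun r : ℕ => R.indicator (fun n : ℕ => (1 : ℝ) / n) r))
    (ρ : ∀ r : ℕ, ZMod r) : Null {n | ∀ r ∈ R, (n : ZMod r) ≠ ρ r} := by
  intro ε hε
  obtain ⟨F, hF, L, hL⟩ := class_fin R hR hdiv ρ ε hε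
  refine ⟨L, fun X hX a => le_trans ?_ (hL X hX a)⟩
  have h1 : {n : ℕ | ∀ r ∈ R, (n : ZMod r) ≠ ρ r} ∩ Set.Ioc a (a + X) ⊆
      {n : ℕ | ∀ r ∈ F, (n : ZMod r) ≠ ρ r} ∩ Set.Ioc a (a + X) := by
    rintro n ⟨h1, h2⟩
    exact ⟨fun r hr => h1 r (hF r hr), h2⟩
  exact_mod_cast Set.ncard_le_ncard h1 ((Set.finite_Ioc _ _).subset Set.inter_subset_right)

end Pool.Agent.TH888.B1
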