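import Mathlib
import Pool.Agent.TH888.B1.Core
import Pool.Agent.TH888.B1.Roots
import Pool.Agent.TH888.B1.Bak

/-!
The generalised Fermat equation with three bases given by polynomials, all exponents free.
-/

set_option autoImplicit false

namespace Pool.Agent.TH888.B1

open Finset Polynomial Filter Topology

/-- the sum of the absolute values of the coefficients -/
def ht (f : ℤ[X]) : ℕ := ∑ i ∈ range (f.natDegree + 1), (f.coeff i).natAbs

theorem natAbs_sum_le {ι : Type*} (s : Finset ι) (F : ι → ℤ) :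
    (∑ i ∈ s, F i).natAbs ≤ ∑ i ∈ s, (F i).natAbs := by
  classical
  induction s using Finset.induction_on with
  | empty => simp
  | insert i s hi ih =>
    rw [sum_insert hi, sum_insert hi]
    exact (Int.natAbs_add_le _ _).trans (Nat.add_le_add_left ih _)

theorem eval_bound (f : ℤ[X]) {D n Λ : ℕ} (hD : f.natDegree ≤ D) (hn : 1 ≤ n) (hΛ : n ≤ 2 ^ Λ) :
    (f.eval (n : ℤ)).natAbs ≤ 2 ^ (ht f + D * Λ) := by
  rw [eval_eq_sum_range]
  have h1 : ∀ i ∈ range (f.natDegree + 1), (f.coeff i * (n : ℤ) ^ i).natAbs ≤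
      (f.coeff i).natAbs * n ^ D := by
    intro i hi
    rw [Int.natAbs_mul, Int.natAbs_pow, Int.natAbs_natCast]
    exact Nat.mul_le_mul_left _ (Nat.pow_le_pow_right hn (by rw [mem_range] at hi; omega))
  calc (∑ i ∈ range (f.natDegree + 1), f.coeff i * (n : ℤ) ^ i).natAbs
      ≤ ∑ i ∈ range (f.natDegree + 1), (f.coeff i * (n : ℤ) ^ i).natAbs := natAbs_sum_le _ _
    _ ≤ ∑ i ∈ range (f.natDegree + 1), (f.coeff i).natAbs * n ^ D := sum_le_sum h1
    _ = ht f * n ^ D := by rw [ht, sum_mul]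
    _ ≤ 2 ^ ht f * (2 ^ Λ) ^ D :=
      Nat.mul_le_mul Nat.lt_two_pow_self.le (Nat.pow_le_pow_left hΛ D)
    _ = 2 ^ (ht f + D * Λ) := by rw [← pow_mul, ← pow_add, mul_comm Λ D]

theorem nat_roots (F : ℤ[X]) (hF : F ≠ 0) :
    {n : ℕ | F.eval (n : ℤ) = 0}.Finite ∧ {n : ℕ | F.eval (n : ℤ) = 0}.ncard ≤ F.natDegree := by
  classical
  have hinj : Function.Injective (fun n : ℕ => (n : ℤ)) := Nat.cast_injective
  have h1 : (fun n : ℕ => (n : ℤ)) '' {n : ℕ | F.eval (n : ℤ) = 0} ⊆ (F.roots.toFinset : Set ℤ) := by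
    rintro _ ⟨n, hn, rfl⟩
    rw [mem_coe, Multiset.mem_toFinset, mem_roots hF]
    exact hn
  have h2 : ((fun n : ℕ => (n : ℤ)) '' {n : ℕ | F.eval (n : ℤ) = 0}).Finite :=
    (Finset.finite_toSet _).subset h1
  refine ⟨Set.Finite.of_finite_image h2 hinj.injOn, ?_⟩
  rw [← Set.ncard_image_of_injective _ hinj]
  calc _ ≤ (F.roots.toFinset : Set ℤ).ncard := Set.ncard_le_ncard h1 (Finset.finite_toSet _)
    _ = F.roots.toFinset.card := Set.ncard_coe_finset _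
    _ ≤ F.roots.card := Multiset.toFinset_card_le _
    _ ≤ F.natDegree := card_roots' F

/-- the polynomial of an equation -/
noncomputable def Pol (f g h : ℤ[X]) (l m k : ℕ) (s t : ℤ) : ℤ[X] :=
  f ^ l + C s * g ^ m - C t * h ^ k

theorem pol_ne_zero {f g h : ℤ[X]} (hf : 0 < f.natDegree) (hg : g ≠ 0) (hh : h ≠ 0)
    (hcop : IsCoprime (f.map (Int.castRingHom ℚ)) (g.map (Int.castRingHom ℚ))) {l m k : ℕ}
    (hl : 0 < l) (hm : 0 < m) (hk : 0 < k) (hineq : m * k + k * l + l * m ≤ l * m * k) {s t : ℤ}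
    (hs : s = 1 ∨ s = -1) (ht : t = 1 ∨ t = -1) : Pol f g h l m k s t ≠ 0 := by
  intro h0
  have hinj : Function.Injective (Int.castRingHom ℚ) := (Int.castRingHom ℚ).injective_int
  have h1 := congrArg (fun P : ℤ[X] => P.map (Int.castRingHom ℚ)) h0
  simp only [Pol, Polynomial.map_sub, Polynomial.map_add, Polynomial.map_mul, Polynomial.map_pow,
    map_C, Polynomial.map_zero] at h1
  have hne : ∀ {P : ℤ[X]}, P ≠ 0 → P.map (Int.castRingHom ℚ) ≠ 0 := fun {P} hP =>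
    (Polynomial.map_ne_zero_iff hinj).mpr hP
  have hs0 : (Int.castRingHom ℚ) s ≠ 0 := by rcases hs with rfl | rfl <;> simp
  have ht0 : -(Int.castRingHom ℚ) t ≠ 0 := by rcases ht with rfl | rfl <;> simp
  have hf0 : f ≠ 0 := by rintro rfl; simp at hf
  have h2 := Polynomial.flt_catalan (k := ℚ) hl.ne' hm.ne' hk.ne' hineq
    (by exact_mod_cast hl.ne') (by exact_mod_cast hm.ne') (by exact_mod_cast hk.ne')
    (hne hf0) (hne hg) (hne hh) hcop (u := 1) (v := (Int.castRingHom ℚ) s)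
    (w := -(Int.castRingHom ℚ) t) one_ne_zero hs0 ht0 (by
      rw [C_neg, C_1, one_mul]
      linear_combination h1)
  rw [natDegree_map_eq_of_injective hinj] at h2
  omega

theorem pol_natDegree {f g h : ℤ[X]} {l m k B D : ℕ} {s t : ℤ} (hl : l ≤ B) (hm : m ≤ B) (hk : k ≤ B)
    (hD : f.natDegree ≤ D) (hD' : g.natDegree ≤ D) (hD'' : h.natDegree ≤ D) :
    (Pol f g h l m k s t).natDegree ≤ B * D := by
  have h1 : ∀ {P : ℤ[X]} {i : ℕ}, i ≤ B → P.natDegree ≤ D → (P ^ i).natDegree ≤ B * D := by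
    intro P i hi hP
    exact natDegree_pow_le.trans (Nat.mul_le_mul hi hP)
  unfold Pol
  refine (natDegree_sub_le _ _).trans (max_le ((natDegree_add_le _ _).trans (max_le (h1 hl hD) ?_)) ?_)
  · exact (natDegree_C_mul_le _ _).trans (h1 hm hD')
  · exact (natDegree_C_mul_le _ _).trans (h1 hk hD'')

/-- the index set of the equations with exponents at most `B` -/
def Ind (B : ℕ) : Finset ((ℕ × ℕ × ℕ) × (ℤ × ℤ)) :=
  ((range (B + 1) ×ˢ range (B + 1) ×ˢ range (B + 1)).filter (fun e : ℕ × ℕ × ℕ =>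
    0 < e.1 ∧ 0 < e.2.1 ∧ 0 < e.2.2 ∧ e.2.1 * e.2.2 + e.2.2 * e.1 + e.1 * e.2.1 ≤
      e.1 * e.2.1 * e.2.2)) ×ˢ (({1, -1} : Finset ℤ) ×ˢ ({1, -1} : Finset ℤ))

theorem ind_card (B : ℕ) : (Ind B).card ≤ (B + 1) ^ 3 * 4 := by
  unfold Ind
  rw [card_product]
  have h1 : (({1, -1} : Finset ℤ) ×ˢ ({1, -1} : Finset ℤ)).card = 4 := by decide
  rw [h1]
  apply Nat.mul_le_mul_right
  refine (card_filter_le _ _).trans ?_
  rw [card_product, card_product, card_range]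
  apply le_of_eq; ring

/-- the integers which are roots of an equation with exponents at most `B` -/
def Rts (f g h : ℤ[X]) (B : ℕ) : Set ℕ :=
  ⋃ e ∈ Ind B, {n : ℕ | (Pol f g h e.1.1 e.1.2.1 e.1.2.2 e.2.1 e.2.2).eval (n : ℤ) = 0}

theorem rts_card {f g h : ℤ[X]} (hf : 0 < f.natDegree) (hg : g ≠ 0) (hh : h ≠ 0)
    (hcop : IsCoprime (f.map (Int.castRingHom ℚ)) (g.map (Int.castRingHom ℚ))) {B D : ℕ}
    (hD : f.natDegree ≤ D) (hD' : g.natDegree ≤ D) (hD'' : h.natDegree ≤ D) :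
    (Rts f g h B).Finite ∧ (Rts f g h B).ncard ≤ (B + 1) ^ 3 * 4 * (B * D) := by
  classical
  have hmem : ∀ e ∈ Ind B, {n : ℕ | (Pol f g h e.1.1 e.1.2.1 e.1.2.2 e.2.1 e.2.2).eval
      (n : ℤ) = 0}.Finite ∧ {n : ℕ | (Pol f g h e.1.1 e.1.2.1 e.1.2.2 e.2.1 e.2.2).eval
      (n : ℤ) = 0}.ncard ≤ B * D := by
    rintro ⟨⟨l, m, k⟩, s, t⟩ he
    simp only [Ind, mem_product, mem_filter, mem_range, mem_insert, mem_singleton] at he
    obtain ⟨⟨⟨h1, h2, h3⟩, h4, h5, h6, h7⟩, hs, ht⟩ := he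
    have h8 := nat_roots _ (pol_ne_zero hf hg hh hcop h4 h5 h6 h7 hs ht)
    exact ⟨h8.1, h8.2.trans (pol_natDegree (by omega) (by omega) (by omega) hD hD' hD'')⟩
  constructor
  · unfold Rts
    exact Set.Finite.biUnion (Finset.finite_toSet _) (fun e he => (hmem e he).1)
  · have h1 : ∀ I : Finset ((ℕ × ℕ × ℕ) × (ℤ × ℤ)), I ⊆ Ind B →
        (⋃ e ∈ I, {n : ℕ | (Pol f g h e.1.1 e.1.2.1 e.1.2.2 e.2.1 e.2.2).eval (n : ℤ) = 0}).ncard ≤
          I.card * (B * D) := by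
      intro I
      induction I using Finset.induction_on with
      | empty => intro _; simp
      | insert e I he ih =>
        intro hI
        rw [Finset.set_biUnion_insert, card_insert_of_notMem he, add_mul, one_mul]
        refine (Set.ncard_union_le _ _).trans ?_
        have h2 := (hmem e (hI (mem_insert_self e I))).2
        have h3 := ih ((subset_insert e I).trans hI)
        omega
    exact (h1 (Ind B) (Subset.refl _)).trans (Nat.mul_le_mul_right _ (ind_card B))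

/-- the exceptional integers -/
def Exceptional (f g h : ℤ[X]) : Set ℕ :=
  {n | ∃ (l m k : ℕ) (s t : ℤ), 0 < l ∧ 0 < m ∧ 0 < k ∧
    m * k + k * l + l * m ≤ l * m * k ∧ (s = 1 ∨ s = -1) ∧ (t = 1 ∨ t = -1) ∧
    f.eval (n : ℤ) ≠ 0 ∧ g.eval (n : ℤ) ≠ 0 ∧ h.eval (n : ℤ) ≠ 0 ∧
    IsCoprime (f.eval (n : ℤ)) (g.eval (n : ℤ)) ∧
    f.eval (n : ℤ) ^ l + s * g.eval (n : ℤ) ^ m = t * h.eval (n : ℤ) ^ k}

theorem sign_pow (x : ℤ) (l : ℕ) : ∃ σ : ℤ, (σ = 1 ∨ σ = -1) ∧ x ^ l = σ * (x.natAbs : ℤ) ^ l := by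
  rcases Int.natAbs_eq x with h | h
  · exact ⟨1, Or.inl rfl, by rw [one_mul, ← h]⟩
  · rcases neg_one_pow_eq_or ℤ l with h1 | h1
    · exact ⟨1, Or.inl rfl, by
        conv_lhs => rw [h]
        rw [neg_pow, h1]⟩
    · exact ⟨-1, Or.inr rfl, by
        conv_lhs => rw [h]
        rw [neg_pow, h1]⟩

theorem third_exponent {l m k k' : ℕ} (hl : 0 < l) (hm : 0 < m)
    (h : m * k + k * l + l * m ≤ l * m * k) (hk' : 6 ≤ k') : m * k' + k' * l + l * m ≤ l * m * k' := by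
  have h1 : l + m < l * m := by
    by_contra hcon
    push Not at hcon
    have h2 : l * m * k ≤ (l + m) * k := Nat.mul_le_mul_right _ hcon
    have h3 : 0 < l * m := Nat.mul_pos hl hm
    nlinarith
  have hl2 : 2 ≤ l := by
    rcases Nat.lt_or_ge l 2 with h2 | h2
    · have : l = 1 := by omega
      subst this; omega
    · exact h2
  have hm2 : 2 ≤ m := by
    rcases Nat.lt_or_ge m 2 with h2 | h2
    · have : m = 1 := by omega
      subst this; omega
    · exact h2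
  have h5 : 6 * (l + m) ≤ 5 * (l * m) := by
    rcases Nat.lt_or_ge l 3 with h2 | h2
    · have : l = 2 := by omega
      subst this
      omega
    · rcases Nat.lt_or_ge m 3 with h3 | h3
      · have : m = 2 := by omega
        subst this
        omega
      · nlinarith
  obtain ⟨j, rfl⟩ := Nat.exists_eq_add_of_le hk'
  nlinarith

/-- an exceptional integer with small odd prime factors of `f n` and `g n` is a root of an
equation with small exponents -/
theorem mem_rts : ∃ C κ : ℕ, ∀ (f g h : ℤ[X]) (S₀ : ℕ), 1 ≤ S₀ → ∀ n : ℕ, n ∈ Exceptional f g h →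
    (f.eval (n : ℤ)).natAbs ≤ 2 ^ S₀ → (g.eval (n : ℤ)).natAbs ≤ 2 ^ S₀ →
    (h.eval (n : ℤ)).natAbs ≤ 2 ^ S₀ → 2 ≤ (f.eval (n : ℤ)).natAbs → 2 ≤ (g.eval (n : ℤ)).natAbs →
    (∃ p : ℕ, p.Prime ∧ p ≠ 2 ∧ p ≤ S₀ ∧ (p : ℤ) ∣ f.eval (n : ℤ)) →
    (∃ p : ℕ, p.Prime ∧ p ≠ 2 ∧ p ≤ S₀ ∧ (p : ℤ) ∣ g.eval (n : ℤ)) →
    n ∈ Rts f g h (C * S₀ ^ κ + 7) := by
  obtain ⟨C, κ, hC⟩ := exp_bound
  refine ⟨C, κ, ?_⟩
  rintro f g h S₀ hS₀ n ⟨l, m, k, s, t, hl, hm, hk, hineq, hs, ht, hf0, hg0, hh0, hcop, heq⟩ hfS hgS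
    hhS hf2 hg2 ⟨p', hp', hp2', hpS', hpf⟩ ⟨p, hp, hp2, hpS, hpg⟩
  set a := f.eval (n : ℤ) with ha
  set b := g.eval (n : ℤ) with hb
  set c := h.eval (n : ℤ) with hc
  -- coprimality
  have hac : IsCoprime a c := by
    have h1 : IsCoprime a (b ^ m) := hcop.pow_right
    have h2 : IsCoprime a (c ^ k) := by
      have h3 : c ^ k = (t * s) * b ^ m + a * (t * a ^ (l - 1)) := by
        have ht2 : t * t = 1 := by rcases ht with rfl | rfl <;> norm_num
        have h4 : a ^ l = a * a ^ (l - 1) := by rw [← pow_succ', Nat.sub_add_cancel hl]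
        have h5 : c ^ k = t * (a ^ l + s * b ^ m) := by rw [heq]; linear_combination (-c ^ k) * ht2
        rw [h5, h4]; ring
      rw [h3]
      refine IsCoprime.add_mul_left_right ?_ _
      apply IsCoprime.mul_right _ h1
      rcases hs with rfl | rfl <;> rcases ht with rfl | rfl <;> simp [isCoprime_one_right, IsCoprime.neg_right_iff]
    exact (IsCoprime.pow_right_iff hk).mp h2
  have hbc : IsCoprime b c := by
    have h1 : IsCoprime b (a ^ l) := hcop.symm.pow_right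
    have h2 : IsCoprime b (c ^ k) := by
      have h3 : c ^ k = t * a ^ l + b * (t * s * b ^ (m - 1)) := by
        have ht2 : t * t = 1 := by rcases ht with rfl | rfl <;> norm_num
        have h4 : b ^ m = b * b ^ (m - 1) := by rw [← pow_succ', Nat.sub_add_cancel hm]
        have h5 : c ^ k = t * (a ^ l + s * b ^ m) := by rw [heq]; linear_combination (-c ^ k) * ht2
        rw [h5, h4]; ring
      rw [h3]
      refine IsCoprime.add_mul_left_right ?_ _
      apply IsCoprime.mul_right _ h1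
      rcases ht with rfl | rfl <;> simp [isCoprime_one_right, IsCoprime.neg_right_iff]
    exact (IsCoprime.pow_right_iff hk).mp h2
  have hnc : ∀ {x y : ℤ}, IsCoprime x y → Nat.Coprime x.natAbs y.natAbs := fun h =>
    Int.isCoprime_iff_gcd_eq_one.mp h
  -- signs
  obtain ⟨σ₁, hσ₁, e1⟩ := sign_pow a l
  obtain ⟨σ₂, hσ₂, e2⟩ := sign_pow b m
  obtain ⟨σ₃, hσ₃, e3⟩ := sign_pow c k
  have heq' : (a.natAbs : ℤ) ^ l + (s * σ₁ * σ₂) * (b.natAbs : ℤ) ^ m =
      (t * σ₁ * σ₃) * (c.natAbs : ℤ) ^ k := by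
    have h1 : σ₁ * σ₁ = 1 := by rcases hσ₁ with rfl | rfl <;> norm_num
    rw [e1, e2, e3] at heq
    linear_combination σ₁ * heq - ((a.natAbs : ℤ) ^ l) * h1
  have hsg : (s * σ₁ * σ₂ = 1 ∨ s * σ₁ * σ₂ = -1) := by
    rcases hs with rfl | rfl <;> rcases hσ₁ with rfl | rfl <;> rcases hσ₂ with rfl | rfl <;> norm_num
  have htg : (t * σ₁ * σ₃ = 1 ∨ t * σ₁ * σ₃ = -1) := by
    rcases ht with rfl | rfl <;> rcases hσ₁ with rfl | rfl <;> rcases hσ₃ with rfl | rfl <;> norm_num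
  have hc1 : 1 ≤ c.natAbs := Int.natAbs_pos.mpr hh0
  obtain ⟨b1, b2, b3⟩ := hC S₀ hS₀ p p' hp hp' hp2 hp2' hpS hpS' a.natAbs b.natAbs c.natAbs l m k
    hf2 hg2 hc1 hfS hgS hhS (hnc hcop) (hnc hac) (hnc hbc) (Int.natCast_dvd.mp hpg)
    (Int.natCast_dvd.mp hpf) hl hm _ _ hsg htg heq'
  -- the third exponent
  obtain ⟨k', hk'0, hk'B, hk'i, hk'e⟩ : ∃ k' : ℕ, 0 < k' ∧ k' ≤ C * S₀ ^ κ + 7 ∧
      m * k' + k' * l + l * m ≤ l * m * k' ∧ c ^ k' = c ^ k := by
    rcases Nat.lt_or_ge c.natAbs 2 with h2 | h2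
    · rcases Nat.lt_or_ge k 8 with h3 | h3
      · exact ⟨k, hk, by omega, hineq, rfl⟩
      · refine ⟨6 + k % 2, by omega, by omega, third_exponent hl hm hineq (by omega), ?_⟩
        have h4 : c = 1 ∨ c = -1 := Int.natAbs_eq_iff.mp (by omega : c.natAbs = 1)
        rcases h4 with h4 | h4
        · rw [h4, one_pow, one_pow]
        · rw [h4]
          have h5 : k % 2 = 0 ∨ k % 2 = 1 := by omega
          rcases h5 with h5 | h5
          · have h6 : Even k := Nat.even_iff.mpr h5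
            rw [h5, h6.neg_one_pow]; norm_num
          · have h6 : Odd k := Nat.odd_iff.mpr h5
            rw [h5, h6.neg_one_pow]; norm_num
    · exact ⟨k, hk, (b3 h2).trans (Nat.le_add_right _ _), hineq, rfl⟩
  unfold Rts
  simp only [Set.mem_iUnion, exists_prop]
  refine ⟨((l, m, k'), (s, t)), ?_, ?_⟩
  · simp only [Ind, mem_product, mem_filter, mem_range, mem_insert, mem_singleton]
    exact ⟨⟨⟨by omega, by omega, by omega⟩, hl, hm, hk'0, hk'i⟩, hs, ht⟩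
  · simp only [Set.mem_ofPred_eq, Pol, eval_sub, eval_add, eval_mul, eval_pow, eval_C]
    rw [← ha, ← hb, ← hc, hk'e]
    linear_combination heq

/-- for almost all `n`, `f n` has an odd prime factor from a fixed finite set -/
theorem small_factor (f : ℤ[X]) (hf : 0 < f.natDegree) (ε : ℝ) (hε : 0 < ε) : ∃ P L : ℕ, ∀ X : ℕ,
    L ≤ X → ∀ a : ℕ, (({n : ℕ | ¬ ∃ p : ℕ, p.Prime ∧ p ≠ 2 ∧ p ≤ P ∧ (p : ℤ) ∣ f.eval (n : ℤ)} ∩
      Set.Ioc a (a + X)).ncard : ℝ) ≤ ε * X := by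
  classical
  have hdiv := diverges_diff (Set.finite_singleton 2) (rootPrimes_diverges f hf)
  set ρ : ∀ r : ℕ, ZMod r := fun r =>
    if h : ∃ x : ZMod r, (f.map (Int.castRingHom (ZMod r))).eval x = 0 then h.choose else 0 with hρ
  obtain ⟨F, hF, L, hL⟩ := class_fin (RootPrimes f \ {2}) (fun r hr => hr.1.1) hdiv ρ ε hε
  refine ⟨F.sup id, L, fun X hX a => le_trans ?_ (hL X hX a)⟩
  have h1 : {n : ℕ | ¬ ∃ p : ℕ, p.Prime ∧ p ≠ 2 ∧ p ≤ F.sup id ∧ (p : ℤ) ∣ f.eval (n : ℤ)} ∩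
      Set.Ioc a (a + X) ⊆ {n : ℕ | ∀ r ∈ F, (n : ZMod r) ≠ ρ r} ∩ Set.Ioc a (a + X) := by
    rintro n ⟨h1, h2⟩
    refine ⟨fun r hr hn => h1 ⟨r, (hF r hr).1.1, (hF r hr).2, Finset.le_sup (f := id) hr, ?_⟩, h2⟩
    have h3 : ∃ x : ZMod r, (f.map (Int.castRingHom (ZMod r))).eval x = 0 := (hF r hr).1.2
    have h4 : (f.map (Int.castRingHom (ZMod r))).eval (ρ r) = 0 := by
      simp only [hρ]
      rw [dif_pos h3]
      exact h3.choose_spec
    rw [← ZMod.intCast_zmod_eq_zero_iff_dvd]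
    have h5 : ((f.eval (n : ℤ) : ℤ) : ZMod r) =
        (f.map (Int.castRingHom (ZMod r))).eval ((n : ℤ) : ZMod r) := by
      rw [eval_intCast_map]; simp
    rw [h5, Int.cast_natCast, hn, h4]
  exact_mod_cast Set.ncard_le_ncard h1 ((Set.finite_Ioc _ _).subset Set.inter_subset_right)

/-- polylogarithmic growth -/
theorem polylog_small (c d : ℕ) (δ : ℝ) (hδ : 0 < δ) : ∃ L : ℕ, ∀ X : ℕ, L ≤ X →
    (c : ℝ) * ((Nat.log 2 X + 1 : ℕ) : ℝ) ^ d ≤ δ * X := by
  have h1 : Tendsto (fun Y : ℕ => (Y : ℝ) ^ d / (2 : ℝ) ^ Y) atTop (𝓝 0) :=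
    tendsto_pow_const_div_const_pow_of_one_lt d (by norm_num)
  have h2 := h1.eventually (gt_mem_nhds (show (0 : ℝ) < δ / (2 * (c + 1)) by positivity))
  obtain ⟨Y₀, hY₀⟩ := eventually_atTop.mp h2
  refine ⟨2 ^ Y₀, fun X hX => ?_⟩
  have hX0 : X ≠ 0 := by
    rintro rfl
    have : 0 < 2 ^ Y₀ := by positivity
    omega
  have h3 : Y₀ ≤ Nat.log 2 X := Nat.le_log_of_pow_le (by norm_num) hX
  have h4 := hY₀ (Nat.log 2 X + 1) (by omega)
  rw [div_lt_iff₀ (by positivity)] at h4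
  have h5 : (2 : ℝ) ^ (Nat.log 2 X + 1) ≤ 2 * X := by
    rw [pow_succ, mul_comm]
    have : (2 : ℝ) ^ Nat.log 2 X ≤ X := by exact_mod_cast Nat.pow_log_le_self 2 hX0
    linarith
  have hc : (0 : ℝ) ≤ c := Nat.cast_nonneg c
  calc (c : ℝ) * ((Nat.log 2 X + 1 : ℕ) : ℝ) ^ d
      ≤ (c + 1) * (δ / (2 * (c + 1)) * 2 ^ (Nat.log 2 X + 1)) := by
        apply mul_le_mul (by linarith) h4.le (by positivity) (by positivity)
    _ ≤ (c + 1) * (δ / (2 * (c + 1)) * (2 * X)) := by gcongr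
    _ = δ * X := by field_simp

end Pool.Agent.TH888.B1
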