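import Mathlib
import Pool.Agent.TH888.B1.Poly

/-!
Assembly: outside a thin set of residue classes the exceptional integers for three polynomial
bases are polylogarithmically rare.
-/

set_option autoImplicit false

namespace Pool.Agent.TH888.B1

open Finset Polynomial Filter Topology

/-- integers with a small value of a nonconstant polynomial -/
theorem small_values (f : ℤ[X]) (hf : 0 < f.natDegree) :
    {n : ℕ | (f.eval (n : ℤ)).natAbs ≤ 1}.Finite ∧
      {n : ℕ | (f.eval (n : ℤ)).natAbs ≤ 1}.ncard ≤ 3 * f.natDegree := by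
  have h1 : ∀ c : ℤ, {n : ℕ | (f - C c).eval (n : ℤ) = 0}.Finite ∧
      {n : ℕ | (f - C c).eval (n : ℤ) = 0}.ncard ≤ f.natDegree := by
    intro c
    have h2 : (f - C c).natDegree = f.natDegree := natDegree_sub_C
    have h3 : f - C c ≠ 0 := by
      intro h
      rw [h, natDegree_zero] at h2
      omega
    have := nat_roots _ h3
    rwa [h2] at this
  have h2 : {n : ℕ | (f.eval (n : ℤ)).natAbs ≤ 1} ⊆ {n : ℕ | (f - C 0).eval (n : ℤ) = 0} ∪
      ({n : ℕ | (f - C 1).eval (n : ℤ) = 0} ∪ {n : ℕ | (f - C (-1)).eval (n : ℤ) = 0}) := by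
    intro n hn
    simp only [Set.mem_ofPred_eq, Set.mem_union, eval_sub, eval_C] at hn ⊢
    omega
  have hfin : ({n : ℕ | (f - C 0).eval (n : ℤ) = 0} ∪
      ({n : ℕ | (f - C 1).eval (n : ℤ) = 0} ∪ {n : ℕ | (f - C (-1)).eval (n : ℤ) = 0})).Finite :=
    (h1 0).1.union ((h1 1).1.union (h1 (-1)).1)
  refine ⟨hfin.subset h2, (Set.ncard_le_ncard h2 hfin).trans ?_⟩
  refine (Set.ncard_union_le _ _).trans ?_
  have h3 := (h1 0).2
  have h4 := (Set.ncard_union_le {n : ℕ | (f - C 1).eval (n : ℤ) = 0}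
    {n : ℕ | (f - C (-1)).eval (n : ℤ) = 0})
  have h5 := (h1 1).2
  have h6 := (h1 (-1)).2
  omega

/-- for almost all `n`, `f n` has a prime factor from a fixed finite set of odd primes -/
theorem factor_fin (f : ℤ[X]) (hf : 0 < f.natDegree) (ε : ℝ) (hε : 0 < ε) : ∃ F : Finset ℕ,
    (∀ r ∈ F, r.Prime ∧ r ≠ 2) ∧ ∃ L : ℕ, ∀ X : ℕ,
    L ≤ X → ∀ a : ℕ, (({n : ℕ | ¬ ∃ p ∈ F, (p : ℤ) ∣ f.eval (n : ℤ)} ∩
      Set.Ioc a (a + X)).ncard : ℝ) ≤ ε * X := by
  classical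
  have hdiv := diverges_diff (Set.finite_singleton 2) (rootPrimes_diverges f hf)
  set ρ : ∀ r : ℕ, ZMod r := fun r =>
    if h : ∃ x : ZMod r, (f.map (Int.castRingHom (ZMod r))).eval x = 0 then h.choose else 0 with hρ
  obtain ⟨F, hF, L, hL⟩ := class_fin (RootPrimes f \ {2}) (fun r hr => hr.1.1) hdiv ρ ε hε
  refine ⟨F, fun r hr => ⟨(hF r hr).1.1, (hF r hr).2⟩, L, fun X hX a => le_trans ?_ (hL X hX a)⟩
  have h1 : {n : ℕ | ¬ ∃ p ∈ F, (p : ℤ) ∣ f.eval (n : ℤ)} ∩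
      Set.Ioc a (a + X) ⊆ {n : ℕ | ∀ r ∈ F, (n : ZMod r) ≠ ρ r} ∩ Set.Ioc a (a + X) := by
    rintro n ⟨h1, h2⟩
    refine ⟨fun r hr hn => h1 ⟨r, hr, ?_⟩, h2⟩
    have h3 : ∃ x : ZMod r, (f.map (Int.castRingHom (ZMod r))).eval x = 0 := (hF r hr).1.2
    have h4 : (f.map (Int.castRingHom (ZMod r))).eval (ρ r) = 0 := by
      simp only [hρ]
      rw [dif_pos h3]
      exact h3.choose_spec
    rw [← ZMod.intCast_zmod_eq_zero_iff_dvd]
    have h5 : ((f.eval (n : ℤ) : ℤ) : ZMod r) =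
        (f.map (Int.castRingHom (ZMod r))).eval ((n : ℤ) : ZMod r) := by
      rw [eval_intCast_map]; simp
    rw [h5, Int.cast_natCast, hn, h4]
  exact_mod_cast Set.ncard_le_ncard h1 ((Set.finite_Ioc _ _).subset Set.inter_subset_right)

/-- polynomial values modulo `r` are periodic -/
theorem dvd_eval_periodic (f : ℤ[X]) {r M : ℕ} (hr : r ∣ M) (n : ℕ) :
    (r : ℤ) ∣ f.eval ((n + M : ℕ) : ℤ) ↔ (r : ℤ) ∣ f.eval (n : ℤ) := by
  have h1 : (r : ℤ) ∣ f.eval ((n + M : ℕ) : ℤ) - f.eval (n : ℤ) := by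
    refine dvd_trans ?_ (sub_dvd_eval_sub _ _ f)
    push_cast
    rw [add_sub_cancel_left]
    exact_mod_cast hr
  constructor
  · intro h
    have := dvd_sub h h1
    rwa [sub_sub_cancel] at this
  · intro h
    have := dvd_add h1 h
    rwa [sub_add_cancel] at this

theorem periodic_count (p : ℕ → Prop) [DecidablePred p] (M : ℕ) (hp : Function.Periodic p M) (T : ℕ) :
    ((Finset.Ico 1 (1 + M * T)).filter p).card = T * ((Finset.range M).filter p).card := by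
  induction T with
  | zero => simp
  | succ T ih =>
    have h1 : Finset.Ico 1 (1 + M * (T + 1)) = Finset.Ico 1 (1 + M * T) ∪
        Finset.Ico (1 + M * T) (1 + M * T + M) := by
      rw [Finset.Ico_union_Ico_eq_Ico (by omega) (by omega)]
      congr 1
      ring
    rw [h1, Finset.filter_union, Finset.card_union_of_disjoint, ih,
      Nat.filter_Ico_card_eq_of_periodic _ M p hp, Nat.count_eq_card_filter_range]
    · ring
    · apply Finset.disjoint_filter_filter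
      exact Finset.Ico_disjoint_Ico_consecutive _ _ _

theorem log_le {N : ℕ} (hN : 2 ≤ N) : ((Nat.log 2 N + 1 : ℕ) : ℝ) ≤ 3 * Real.log N := by
  have hN0 : N ≠ 0 := by omega
  have h1 : (2 : ℝ) ^ Nat.log 2 N ≤ N := by exact_mod_cast Nat.pow_log_le_self 2 hN0
  have h2 := Real.log_le_log (by positivity) h1
  rw [Real.log_pow] at h2
  have h3 : Real.log 2 ≤ Real.log N := Real.log_le_log (by norm_num) (by exact_mod_cast hN)
  have h4 := Real.log_two_gt_d9
  have h5 : (0 : ℝ) ≤ Nat.log 2 N := Nat.cast_nonneg _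
  push_cast
  nlinarith

theorem poly_main : ∃ κ : ℕ, ∀ f g h : ℤ[X], 0 < f.natDegree → 0 < g.natDegree →
    IsCoprime (f.map (Int.castRingHom ℚ)) (g.map (Int.castRingHom ℚ)) → ∀ ε : ℝ, 0 < ε →
    ∃ (M : ℕ) (G : Finset ℕ) (A : ℝ), 0 < M ∧ G ⊆ range M ∧ (1 - ε) * M ≤ (G.card : ℝ) ∧
      ∀ N : ℕ, 2 ≤ N → (({n : ℕ | 1 ≤ n ∧ n ≤ N ∧ n % M ∈ G ∧ n ∈ Exceptional f g h}.ncard : ℝ)) ≤
        A * Real.log N ^ κ := by
  classical
  obtain ⟨C, κ, hC⟩ := mem_rts
  refine ⟨4 * κ, ?_⟩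
  intro f g h hf hg hcop ε hε
  obtain ⟨F₁, hF₁, L₁, hL₁⟩ := factor_fin f hf (ε / 2) (by positivity)
  obtain ⟨F₂, hF₂, L₂, hL₂⟩ := factor_fin g hg (ε / 2) (by positivity)
  set M := (∏ r ∈ F₁, r) * ∏ r ∈ F₂, r with hM
  have hMpos : 0 < M := Nat.mul_pos (prod_pos fun r hr => (hF₁ r hr).1.pos)
    (prod_pos fun r hr => (hF₂ r hr).1.pos)
  set good : ℕ → Prop := fun n => (∃ p ∈ F₁, (p : ℤ) ∣ f.eval (n : ℤ)) ∧
    (∃ p ∈ F₂, (p : ℤ) ∣ g.eval (n : ℤ)) with hgood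
  have hper : ∀ n, good (n + M) ↔ good n := by
    intro n
    simp only [hgood]
    apply and_congr
    · apply exists_congr; intro p
      apply and_congr_right; intro hp
      exact dvd_eval_periodic f ((dvd_prod_of_mem (fun r => r) hp).trans (dvd_mul_right _ _)) n
    · apply exists_congr; intro p
      apply and_congr_right; intro hp
      exact dvd_eval_periodic g ((dvd_prod_of_mem (fun r => r) hp).trans (dvd_mul_left _ _)) n
  have hper' : Function.Periodic (fun n => ¬ good n) M := by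
    intro n
    exact propext (not_congr (hper n))
  have hmod : ∀ n, good (n % M) ↔ good n := by
    intro n
    have h1 : ∀ j m : ℕ, good (m + M * j) ↔ good m := by
      intro j
      induction j with
      | zero => intro m; simp
      | succ j ih =>
        intro m
        rw [show m + M * (j + 1) = (m + M * j) + M by ring, hper, ih]
    conv_rhs => rw [← Nat.mod_add_div n M]
    exact (h1 (n / M) (n % M)).symm
  set G := (range M).filter good with hG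
  -- the density of the good classes
  have hdens : (1 - ε) * M ≤ (G.card : ℝ) := by
    set T := L₁ + L₂ + 1 with hT
    have hX1 : L₁ ≤ M * T := by
      calc L₁ ≤ T := by omega
        _ ≤ M * T := Nat.le_mul_of_pos_left _ hMpos
    have hX2 : L₂ ≤ M * T := by
      calc L₂ ≤ T := by omega
        _ ≤ M * T := Nat.le_mul_of_pos_left _ hMpos
    have h1 := hL₁ (M * T) hX1 0
    have h2 := hL₂ (M * T) hX2 0
    have h3 := periodic_count (fun n => ¬ good n) M hper' T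
    have h4 : (((Finset.Ico 1 (1 + M * T)).filter (fun n => ¬ good n) : Finset ℕ) : Set ℕ) ⊆
        ({n : ℕ | ¬ ∃ p ∈ F₁, (p : ℤ) ∣ f.eval (n : ℤ)} ∩ Set.Ioc 0 (0 + M * T)) ∪
        ({n : ℕ | ¬ ∃ p ∈ F₂, (p : ℤ) ∣ g.eval (n : ℤ)} ∩ Set.Ioc 0 (0 + M * T)) := by
      intro n hn
      rw [mem_coe, mem_filter, mem_Ico] at hn
      have h5 : n ∈ Set.Ioc 0 (0 + M * T) := ⟨by omega, by omega⟩
      simp only [hgood, not_and_or] at hn
      rcases hn.2 with h6 | h6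
      · exact Or.inl ⟨h6, h5⟩
      · exact Or.inr ⟨h6, h5⟩
    have h5 : (((Finset.Ico 1 (1 + M * T)).filter (fun n => ¬ good n)).card : ℝ) ≤ ε * (M * T : ℕ) := by
      rw [← Set.ncard_coe_finset]
      have h6 := Set.ncard_le_ncard h4 (((Set.finite_Ioc _ _).subset Set.inter_subset_right).union
        ((Set.finite_Ioc _ _).subset Set.inter_subset_right))
      have h7 := h6.trans (Set.ncard_union_le _ _)
      have h8 : ((((Finset.Ico 1 (1 + M * T)).filter (fun n => ¬ good n) : Finset ℕ) : Set ℕ).ncard : ℝ) ≤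
          (({n : ℕ | ¬ ∃ p ∈ F₁, (p : ℤ) ∣ f.eval (n : ℤ)} ∩ Set.Ioc 0 (0 + M * T)).ncard : ℝ) +
          (({n : ℕ | ¬ ∃ p ∈ F₂, (p : ℤ) ∣ g.eval (n : ℤ)} ∩ Set.Ioc 0 (0 + M * T)).ncard : ℝ) := by
        exact_mod_cast h7
      linarith
    rw [h3] at h5
    push_cast at h5
    have hTpos : (0 : ℝ) < T := by
      have : 0 < T := by omega
      exact_mod_cast this
    have h6 : (((range M).filter (fun n => ¬ good n)).card : ℝ) ≤ ε * M := by
      have h7 : (T : ℝ) * (((range M).filter (fun n => ¬ good n)).card : ℝ) ≤ T * (ε * M) := by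
        calc _ ≤ _ := h5
          _ = _ := by ring
      exact le_of_mul_le_mul_left h7 hTpos
    have h7 := Finset.card_filter_add_card_filter_not (s := range M) good
    rw [card_range] at h7
    have h8 : (G.card : ℝ) + (((range M).filter (fun n => ¬ good n)).card : ℝ) = M := by
      rw [hG]; exact_mod_cast h7
    linarith
  rcases eq_or_ne h 0 with rfl | hh
  · -- no solution with `h n = 0`
    refine ⟨M, G, 0, hMpos, filter_subset _ _, hdens, fun N _ => ?_⟩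
    have h1 : {n : ℕ | 1 ≤ n ∧ n ≤ N ∧ n % M ∈ G ∧ n ∈ Exceptional f g 0} = ∅ := by
      ext n
      simp only [Set.mem_ofPred_eq, Set.mem_empty_iff_false, iff_false]
      rintro ⟨-, -, -, l, m, k, s, t, -, -, -, -, -, -, -, -, h0, -⟩
      exact h0 (by simp)
    rw [h1, Set.ncard_empty, Nat.cast_zero, zero_mul]
  have hg0 : g ≠ 0 := by rintro rfl; simp at hg
  set D := f.natDegree + g.natDegree + h.natDegree with hD
  set P := F₁.sup id + F₂.sup id with hP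
  set c₀ := P + ht f + ht g + ht h + D + 1 with hc₀
  set c₁ := C * c₀ ^ κ + 7 with hc₁
  refine ⟨M, G, ((((c₁ + 1) ^ 3 * 4 * (c₁ * D)) + 6 * D : ℕ) : ℝ) * 3 ^ (4 * κ), hMpos,
    filter_subset _ _, hdens, fun N hN => ?_⟩
  set Y := Nat.log 2 N + 1 with hY
  have hY1 : 1 ≤ Y := by omega
  have hNY : N ≤ 2 ^ Y := (Nat.lt_pow_succ_log_self (by norm_num) N).le
  set S₀ := c₀ * Y with hS₀
  have hS₀1 : 1 ≤ S₀ := by
    have : 1 ≤ c₀ := by omega
    exact Nat.mul_pos this hY1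
  set B := C * S₀ ^ κ + 7 with hB
  have hval : ∀ (F : ℤ[X]), F.natDegree ≤ D → ht F ≤ ht f + ht g + ht h → ∀ n : ℕ,
      1 ≤ n → n ≤ N → (F.eval (n : ℤ)).natAbs ≤ 2 ^ S₀ := by
    intro F hFD hFh n h1 h2
    refine (eval_bound F hFD h1 (h2.trans hNY)).trans (Nat.pow_le_pow_right (by norm_num) ?_)
    rw [hS₀, hc₀]
    have e1 : ht F ≤ (ht f + ht g + ht h) * Y := hFh.trans (Nat.le_mul_of_pos_right _ hY1)
    have e3 : (P + ht f + ht g + ht h + D + 1) * Y =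
      (ht f + ht g + ht h) * Y + D * Y + (P + 1) * Y := by ring
    rw [e3]
    omega
  have hPS : P ≤ S₀ := by
    have : P ≤ c₀ := by omega
    exact this.trans (Nat.le_mul_of_pos_right _ hY1)
  obtain ⟨hRf, hRc⟩ := rts_card (B := B) (D := D) hf hg0 hh hcop (by omega) (by omega) (by omega)
  obtain ⟨hsf, hsf'⟩ := small_values f hf
  obtain ⟨hsg, hsg'⟩ := small_values g hg
  have hsub : {n : ℕ | 1 ≤ n ∧ n ≤ N ∧ n % M ∈ G ∧ n ∈ Exceptional f g h} ⊆
      ({n : ℕ | (f.eval (n : ℤ)).natAbs ≤ 1} ∪ {n : ℕ | (g.eval (n : ℤ)).natAbs ≤ 1}) ∪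
          Rts f g h B := by
    rintro n ⟨hn1, hnN, hnG, hne⟩
    by_cases h3 : (f.eval (n : ℤ)).natAbs ≤ 1
    · exact Or.inl (Or.inl h3)
    by_cases h4 : (g.eval (n : ℤ)).natAbs ≤ 1
    · exact Or.inl (Or.inr h4)
    refine Or.inr ?_
    have hgn : good n := (hmod n).mp (mem_filter.mp hnG).2
    obtain ⟨⟨p', hp', hpf⟩, ⟨p, hp, hpg⟩⟩ := hgn
    have hp'P : p' ≤ S₀ := by
      have h5 : p' ≤ F₁.sup id := Finset.le_sup (f := id) hp'
      omega
    have hpP : p ≤ S₀ := by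
      have h5 : p ≤ F₂.sup id := Finset.le_sup (f := id) hp
      omega
    exact hC f g h S₀ hS₀1 n hne (hval f (by omega) (by omega) n hn1 hnN)
      (hval g (by omega) (by omega) n hn1 hnN) (hval h (by omega) (by omega) n hn1 hnN) (by omega)
      (by omega) ⟨p', (hF₁ p' hp').1, (hF₁ p' hp').2, hp'P, hpf⟩
      ⟨p, (hF₂ p hp).1, (hF₂ p hp).2, hpP, hpg⟩
  have hcard : {n : ℕ | 1 ≤ n ∧ n ≤ N ∧ n % M ∈ G ∧ n ∈ Exceptional f g h}.ncard ≤
      (3 * f.natDegree + 3 * g.natDegree) + (B + 1) ^ 3 * 4 * (B * D) := by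
    refine (Set.ncard_le_ncard hsub ((hsf.union hsg).union hRf)).trans ?_
    refine (Set.ncard_union_le _ _).trans (Nat.add_le_add ?_ hRc)
    exact (Set.ncard_union_le _ _).trans (Nat.add_le_add hsf' hsg')
  have hBY : B ≤ c₁ * Y ^ κ := by
    rw [hB, hS₀, hc₁, mul_pow, add_mul]
    have h1 : 1 ≤ Y ^ κ := Nat.one_le_pow _ _ hY1
    have h2 : C * (c₀ ^ κ * Y ^ κ) = C * c₀ ^ κ * Y ^ κ := by ring
    omega
  have hB1Y : B + 1 ≤ (c₁ + 1) * Y ^ κ := by
    have h1 : 1 ≤ Y ^ κ := Nat.one_le_pow _ _ hY1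
    rw [add_mul]
    omega
  have hpoly : (3 * f.natDegree + 3 * g.natDegree) + (B + 1) ^ 3 * 4 * (B * D) ≤
      (((c₁ + 1) ^ 3 * 4 * (c₁ * D)) + 6 * D) * Y ^ (4 * κ) := by
    have h1 : 1 ≤ Y ^ (4 * κ) := Nat.one_le_pow _ _ hY1
    have h2 : (B + 1) ^ 3 * 4 * (B * D) ≤ ((c₁ + 1) * Y ^ κ) ^ 3 * 4 * ((c₁ * Y ^ κ) * D) :=
      Nat.mul_le_mul (Nat.mul_le_mul_right _ (Nat.pow_le_pow_left hB1Y 3))
        (Nat.mul_le_mul_right _ hBY)
    have h3 : ((c₁ + 1) * Y ^ κ) ^ 3 * 4 * ((c₁ * Y ^ κ) * D) =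
        ((c₁ + 1) ^ 3 * 4 * (c₁ * D)) * Y ^ (4 * κ) := by
      rw [mul_pow, ← pow_mul]
      have : Y ^ (4 * κ) = Y ^ (κ * 3) * Y ^ κ := by rw [← pow_add]; congr 1; ring
      rw [this]; ring
    have h4 : 3 * f.natDegree + 3 * g.natDegree ≤ 6 * D * Y ^ (4 * κ) := by
      have : 3 * f.natDegree + 3 * g.natDegree ≤ 6 * D := by omega
      exact this.trans (Nat.le_mul_of_pos_right _ h1)
    calc _ ≤ 6 * D * Y ^ (4 * κ) + ((c₁ + 1) ^ 3 * 4 * (c₁ * D)) * Y ^ (4 * κ) :=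
          Nat.add_le_add h4 (h2.trans h3.le)
      _ = _ := by ring
  have h5 : ((Y : ℕ) : ℝ) ^ (4 * κ) ≤ (3 * Real.log N) ^ (4 * κ) :=
    pow_le_pow_left₀ (by positivity) (log_le hN) _
  calc (({n : ℕ | 1 ≤ n ∧ n ≤ N ∧ n % M ∈ G ∧ n ∈ Exceptional f g h}.ncard : ℝ))
      ≤ (((((c₁ + 1) ^ 3 * 4 * (c₁ * D)) + 6 * D) * Y ^ (4 * κ) : ℕ) : ℝ) := by
        exact_mod_cast hcard.trans hpoly
    _ = ((((c₁ + 1) ^ 3 * 4 * (c₁ * D)) + 6 * D : ℕ) : ℝ) * (Y : ℝ) ^ (4 * κ) := by push_cast; ring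
    _ ≤ ((((c₁ + 1) ^ 3 * 4 * (c₁ * D)) + 6 * D : ℕ) : ℝ) * (3 * Real.log N) ^ (4 * κ) :=
        mul_le_mul_of_nonneg_left h5 (Nat.cast_nonneg _)
    _ = _ := by rw [mul_pow]; ring

end Pool.Agent.TH888.B1
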