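import Mathlib

/-!
Integral points with `w ^ z = F n`: at most `N ^ (1/2 + ε)` integers `n ≤ N` with `|w| ≤ W`, uniformly
in `F`, `z` and for `W` up to `exp (polylog N)` (Siegel's lemma modulo a power of a prime `r`; this is
the `r`-adic determinant method).
-/

set_option autoImplicit false

namespace Pool.Agent.TH888.B1

open Finset Polynomial

/-- the root `w` of `w ^ z = F n` in a residue class is a polynomial in `n` modulo `r ^ T` -/
theorem hensel_poly (F : ℤ[X]) {r z : ℕ} (hr : r.Prime) (hz : ¬ r ∣ z) (n₀ w₀ : ℤ)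
    (hw₀ : ¬ (r : ℤ) ∣ w₀) (T : ℕ) : ∃ P : ℤ[X], ∀ n w : ℤ, (r : ℤ) ∣ n - n₀ → (r : ℤ) ∣ w - w₀ →
      w ^ z = F.eval n → (r : ℤ) ^ T ∣ w - P.eval n := by
  -- the inverse of the derivative
  have hrp : Prime (r : ℤ) := Nat.prime_iff_prime_int.mp hr
  have hcop : IsCoprime ((z : ℤ) * w₀ ^ (z - 1)) (r : ℤ) := by
    rw [isCoprime_comm, hrp.irreducible.coprime_iff_not_dvd]
    intro h
    rcases hrp.dvd_or_dvd h with h1 | h1
    · exact hz (by exact_mod_cast h1)
    · exact hw₀ (hrp.dvd_of_dvd_pow h1)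
  obtain ⟨u, v, huv⟩ := hcop
  have key : ∀ T : ℕ, ∃ P : ℤ[X], ∀ n w : ℤ, (r : ℤ) ∣ n - n₀ → (r : ℤ) ∣ w - w₀ →
      w ^ z = F.eval n → (r : ℤ) ^ (T + 1) ∣ w - P.eval n := by
    intro T
    induction T with
    | zero => exact ⟨C w₀, fun n w _ hw _ => by simpa using hw⟩
    | succ T ih =>
      obtain ⟨P, hP⟩ := ih
      refine ⟨P - C u * (P ^ z - F), fun n w hn hw hF => ?_⟩
      obtain ⟨d, hd⟩ := hP n w hn hw hF
      simp only [eval_sub, eval_mul, eval_pow, eval_C]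
      -- `P n = w - δ`
      set δ := w - P.eval n with hδ
      have hPn : P.eval n = w - δ := by rw [hδ]; ring
      obtain ⟨q, hq⟩ : ∃ q : ℤ, (w - δ) ^ z = w ^ z - z * w ^ (z - 1) * δ + δ ^ 2 * q := by
        obtain ⟨q, hq⟩ := Polynomial.powAddExpansion w (-δ) z
        refine ⟨q, ?_⟩
        rw [sub_eq_add_neg, hq]; ring
      rw [hPn, hq, ← hF]
      have h1 : (r : ℤ) ∣ 1 - u * (z * w ^ (z - 1)) := by
        have h2 : (r : ℤ) ∣ w ^ (z - 1) - w₀ ^ (z - 1) := hw.trans (sub_dvd_pow_sub_pow _ _ _)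
        have h3 : 1 - u * ((z : ℤ) * w ^ (z - 1)) = v * r - u * z * (w ^ (z - 1) - w₀ ^ (z - 1)) := by
          linear_combination -huv
        rw [h3]
        exact dvd_sub (Dvd.intro_left _ rfl) (h2.mul_left _)
      have h4 : w - (w - δ - u * (w ^ z - z * w ^ (z - 1) * δ + δ ^ 2 * q - w ^ z)) =
          δ * (1 - u * (z * w ^ (z - 1))) + δ ^ 2 * (u * q) := by ring
      rw [h4]
      apply dvd_add
      · rw [pow_succ]
        exact mul_dvd_mul ⟨d, hd⟩ h1
      · apply Dvd.dvd.mul_right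
        have h5 : (r : ℤ) ^ (T + 1 + 1) ∣ ((r : ℤ) ^ (T + 1)) ^ 2 := by
          rw [← pow_mul]
          exact pow_dvd_pow _ (by omega)
        exact h5.trans (pow_dvd_pow_of_dvd ⟨d, hd⟩ 2)
  rcases Nat.eq_zero_or_pos T with rfl | hT
  · exact ⟨0, fun n w _ _ _ => by simp⟩
  · obtain ⟨P, hP⟩ := key (T - 1)
    refine ⟨P, fun n w h1 h2 h3 => ?_⟩
    have := hP n w h1 h2 h3
    rwa [Nat.sub_add_cancel hT] at this

/-- divisibility of the values in a class from the Taylor coefficients -/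
theorem taylor_dvd (Q : ℤ[X]) (r T : ℕ) (n₀ : ℤ)
    (h : ∀ k : Fin T, ((r : ℤ) ^ (T - k)) ∣ (taylor n₀ Q).coeff k) (n : ℤ) (hn : (r : ℤ) ∣ n - n₀) :
    (r : ℤ) ^ T ∣ Q.eval n := by
  have h1 : Q.eval n = (taylor n₀ Q).eval (n - n₀) := by
    rw [taylor_eval]; congr 1; ring
  rw [h1, eval_eq_sum_range]
  apply Finset.dvd_sum
  intro k _
  rcases Nat.lt_or_ge k T with hk | hk
  · have h2 : (r : ℤ) ^ T = (r : ℤ) ^ (T - k) * (r : ℤ) ^ k := by
      rw [← pow_add]; congr 1; omega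
    rw [h2]
    exact mul_dvd_mul (h ⟨k, hk⟩) (pow_dvd_pow_of_dvd hn k)
  · apply Dvd.dvd.mul_left
    exact (pow_dvd_pow _ hk).trans (pow_dvd_pow_of_dvd hn k)

/-- the number of residues -/
theorem prod_residues (r a : ℕ) : ∏ k : Fin (2 * (a + 1)), r ^ (2 * (a + 1) - (k : ℕ)) =
    r ^ ((a + 1) * (2 * a + 3)) := by
  rw [Fin.prod_univ_eq_prod_range (fun k => r ^ (2 * (a + 1) - k)), prod_pow_eq_pow_sum]
  congr 1
  have h : ∀ n : ℕ, 2 * ∑ i ∈ range n, (n - i) = n * (n + 1) := by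
    intro n
    induction n with
    | zero => simp
    | succ n ih =>
      rw [sum_range_succ']
      have h1 : ∑ i ∈ range n, (n + 1 - (i + 1)) = ∑ i ∈ range n, (n - i) :=
        sum_congr rfl fun i _ => by omega
      rw [h1, mul_add, ih]
      simp only [Nat.sub_zero]
      ring
  have h1 := h (2 * (a + 1))
  have h2 : 2 * (a + 1) * (2 * (a + 1) + 1) = 2 * ((a + 1) * (2 * a + 3)) := by ring
  rw [h2] at h1
  omega

theorem prod_weights (N W a : ℕ) : ∏ j : Fin (a + 1) ⊕ Fin (a + 1),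
    (Sum.elim (fun i : Fin (a + 1) => N ^ (i : ℕ)) (fun i : Fin (a + 1) => N ^ (i : ℕ) * W) j) =
      (N ^ a * W) ^ (a + 1) := by
  rw [Fintype.prod_sum_type]
  simp only [Sum.elim_inl, Sum.elim_inr]
  rw [prod_mul_distrib, prod_const, card_univ, Fintype.card_fin,
    Fin.prod_univ_eq_prod_range (fun k => N ^ k) (a + 1), prod_pow_eq_pow_sum]
  have h : (∑ i ∈ range (a + 1), i) * 2 = (a + 1) * a := Finset.sum_range_id_mul_two (a + 1)
  rw [← mul_assoc, ← pow_add, ← mul_two, h, mul_pow, ← pow_mul, mul_comm a (a + 1)]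

theorem card_ineq {r a N W H : ℕ} (hN : 1 ≤ N) (hW : 1 ≤ W)
    (hbig : N ^ a * W * (2 * (a + 1)) ^ 2 < r ^ (2 * a + 1))
    (hH : r ^ (2 * (a + 1)) ≤ (H + 1) * (2 * (a + 1))) :
    r ^ ((a + 1) * (2 * a + 3)) < ∏ j : Fin (a + 1) ⊕ Fin (a + 1),
      (H / (Sum.elim (fun i : Fin (a + 1) => N ^ (i : ℕ)) (fun i : Fin (a + 1) => N ^ (i : ℕ) * W) j)
        + 1) := by
  set q : Fin (a + 1) ⊕ Fin (a + 1) → ℕ := Sum.elim (fun i => N ^ (i : ℕ)) (fun i => N ^ (i : ℕ) * W)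
    with hq
  have hqpos : ∀ j, 0 < q j := by
    rintro (i | i) <;> simp only [hq, Sum.elim_inl, Sum.elim_inr] <;> positivity
  have h1 : (H + 1) ^ (2 * (a + 1)) ≤ (∏ j, (H / q j + 1)) * ∏ j, q j := by
    rw [← prod_mul_distrib]
    have h2 : (H + 1) ^ (2 * (a + 1)) = ∏ _j : Fin (a + 1) ⊕ Fin (a + 1), (H + 1) := by
      rw [prod_const, card_univ, Fintype.card_sum, Fintype.card_fin]
      congr 1
      ring
    rw [h2]
    apply prod_le_prod (fun _ _ => Nat.zero_le _)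
    intro j _
    have h3 : H < q j * (H / q j + 1) := Nat.lt_mul_div_succ H (hqpos j)
    rw [mul_comm]
    exact h3
  rw [prod_weights] at h1
  have h4 : r ^ (2 * (a + 1) * (2 * (a + 1))) ≤ (H + 1) ^ (2 * (a + 1)) * (2 * (a + 1)) ^ (2 * (a + 1)) := by
    rw [pow_mul, ← mul_pow]
    exact Nat.pow_le_pow_left hH _
  have h5 : (N ^ a * W * (2 * (a + 1)) ^ 2) ^ (a + 1) < (r ^ (2 * a + 1)) ^ (a + 1) :=
    Nat.pow_lt_pow_left hbig (by omega)
  have h6 : r ^ ((a + 1) * (2 * a + 3)) * ((N ^ a * W) ^ (a + 1) * (2 * (a + 1)) ^ (2 * (a + 1))) <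
      (∏ j, (H / q j + 1)) * ((N ^ a * W) ^ (a + 1) * (2 * (a + 1)) ^ (2 * (a + 1))) := by
    have hr0 : 0 < r := by
      rcases Nat.eq_zero_or_pos r with rfl | h
      · rw [zero_pow (by omega)] at hbig
        omega
      · exact h
    calc r ^ ((a + 1) * (2 * a + 3)) * ((N ^ a * W) ^ (a + 1) * (2 * (a + 1)) ^ (2 * (a + 1)))
        = r ^ ((a + 1) * (2 * a + 3)) * (N ^ a * W * (2 * (a + 1)) ^ 2) ^ (a + 1) := by
          rw [mul_pow (N ^ a * W), ← pow_mul]
      _ < r ^ ((a + 1) * (2 * a + 3)) * (r ^ (2 * a + 1)) ^ (a + 1) :=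
          Nat.mul_lt_mul_of_pos_left h5 (by positivity)
      _ = r ^ (2 * (a + 1) * (2 * (a + 1))) := by
          rw [← pow_mul, ← pow_add]; congr 1; ring
      _ ≤ (H + 1) ^ (2 * (a + 1)) * (2 * (a + 1)) ^ (2 * (a + 1)) := h4
      _ ≤ ((∏ j, (H / q j + 1)) * (N ^ a * W) ^ (a + 1)) * (2 * (a + 1)) ^ (2 * (a + 1)) :=
          Nat.mul_le_mul_right _ h1
      _ = _ := by ring
  exact Nat.lt_of_mul_lt_mul_right h6

theorem siegel_class (P : ℤ[X]) {r a N W : ℕ} (n₀ : ℤ) (hN : 1 ≤ N) (hW : 1 ≤ W) (hr : 2 ≤ r)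
    (hbig : N ^ a * W * (2 * (a + 1)) ^ 2 < r ^ (2 * a + 1)) :
    ∃ A B : ℤ[X], (A ≠ 0 ∨ B ≠ 0) ∧ A.natDegree ≤ a ∧ B.natDegree ≤ a ∧
      ∀ (n : ℕ) (w : ℤ), n ≤ N → |w| ≤ W → (r : ℤ) ∣ n - n₀ →
        (r : ℤ) ^ (2 * (a + 1)) ∣ w - P.eval (n : ℤ) → A.eval (n : ℤ) + B.eval (n : ℤ) * w = 0 := by
  classical
  set T := 2 * (a + 1) with hT
  set H := (r ^ T - 1) / T with hH
  have hTpos : 0 < T := by omega
  have hrT : 1 ≤ r ^ T := Nat.one_le_pow _ _ (by omega)
  have hH1 : T * H < r ^ T := by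
    have : T * H ≤ r ^ T - 1 := Nat.mul_div_le _ _
    omega
  have hH2 : r ^ T ≤ (H + 1) * T := by
    have : r ^ T - 1 < T * (H + 1) := Nat.lt_mul_div_succ _ hTpos
    rw [mul_comm]; omega
  -- weights and monomials
  set q : Fin (a + 1) ⊕ Fin (a + 1) → ℕ := Sum.elim (fun i => N ^ (i : ℕ)) (fun i => N ^ (i : ℕ) * W)
    with hq
  have hqpos : ∀ j, 0 < q j := by
    rintro (i | i) <;> simp only [hq, Sum.elim_inl, Sum.elim_inr] <;> positivity
  set Q : (Fin (a + 1) ⊕ Fin (a + 1) → ℕ) → ℤ[X] := fun v =>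
    (∑ i : Fin (a + 1), C (v (Sum.inl i) : ℤ) * X ^ (i : ℕ)) +
      (∑ i : Fin (a + 1), C (v (Sum.inr i) : ℤ) * X ^ (i : ℕ)) * P with hQ
  set box := Fintype.piFinset (fun j => range (H / q j + 1)) with hbox
  set Φ : (Fin (a + 1) ⊕ Fin (a + 1) → ℕ) → (Fin T → ℕ) := fun v k =>
    ((taylor n₀ (Q v)).coeff k % ((r : ℤ) ^ (T - k))).toNat with hΦ
  set tgt := Fintype.piFinset (fun k : Fin T => range (r ^ (T - (k : ℕ)))) with htgt
  have hmaps : ∀ v ∈ box, Φ v ∈ tgt := by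
    intro v _
    rw [htgt, Fintype.mem_piFinset]
    intro k
    rw [mem_range]
    have hpos : (0 : ℤ) < (r : ℤ) ^ (T - (k : ℕ)) := by
      have : (0 : ℤ) < r := by exact_mod_cast (by omega : 0 < r)
      positivity
    have h1 := Int.emod_lt_of_pos ((taylor n₀ (Q v)).coeff k) hpos
    have h2 := Int.emod_nonneg ((taylor n₀ (Q v)).coeff k) hpos.ne'
    simp only [hΦ]
    zify
    rw [Int.toNat_of_nonneg h2]
    exact h1
  have hcard : tgt.card < box.card := by
    rw [htgt, hbox, Fintype.card_piFinset, Fintype.card_piFinset]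
    simp only [card_range]
    have h1 : ∏ k : Fin T, r ^ (T - (k : ℕ)) = r ^ ((a + 1) * (2 * a + 3)) := prod_residues r a
    rw [h1]
    exact card_ineq hN hW hbig hH2
  obtain ⟨v, hv, v', hv', hne, heq⟩ := exists_ne_map_eq_of_card_lt_of_maps_to hcard hmaps
  rw [hbox, Fintype.mem_piFinset] at hv hv'
  set d : Fin (a + 1) ⊕ Fin (a + 1) → ℤ := fun j => (v j : ℤ) - v' j with hd
  have hdabs : ∀ j, |d j| ≤ (H / q j : ℕ) := by
    intro j
    have h1 := hv j
    have h2 := hv' j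
    rw [mem_range] at h1 h2
    simp only [hd]
    rw [abs_le]
    constructor <;> omega
  have hdabs' : ∀ j, |d j| * q j ≤ H := by
    intro j
    calc |d j| * q j ≤ (H / q j : ℕ) * (q j : ℤ) :=
          mul_le_mul_of_nonneg_right (hdabs j) (by positivity)
      _ ≤ H := by exact_mod_cast Nat.div_mul_le_self H (q j)
  set A : ℤ[X] := ∑ i : Fin (a + 1), C (d (Sum.inl i)) * X ^ (i : ℕ) with hA
  set B : ℤ[X] := ∑ i : Fin (a + 1), C (d (Sum.inr i)) * X ^ (i : ℕ) with hB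
  have hcoefA : ∀ i : Fin (a + 1), A.coeff i = d (Sum.inl i) := by
    intro i
    rw [hA, finsetSum_coeff]
    simp only [coeff_C_mul, coeff_X_pow]
    rw [Finset.sum_eq_single i]
    · simp
    · intro j _ hj
      have : (i : ℕ) ≠ j := fun h => hj (Fin.ext h.symm)
      simp [this]
    · simp
  have hcoefB : ∀ i : Fin (a + 1), B.coeff i = d (Sum.inr i) := by
    intro i
    rw [hB, finsetSum_coeff]
    simp only [coeff_C_mul, coeff_X_pow]
    rw [Finset.sum_eq_single i]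
    · simp
    · intro j _ hj
      have : (i : ℕ) ≠ j := fun h => hj (Fin.ext h.symm)
      simp [this]
    · simp
  have hdeg : ∀ c : Fin (a + 1) → ℤ, (∑ i : Fin (a + 1), C (c i) * X ^ (i : ℕ) : ℤ[X]).natDegree ≤ a := by
    intro c
    apply natDegree_sum_le_of_forall_le
    intro i _
    refine (natDegree_C_mul_X_pow_le _ _).trans ?_
    have := i.isLt
    omega
  refine ⟨A, B, ?_, hdeg _, hdeg _, ?_⟩
  · by_contra hcon
    push Not at hcon
    apply hne
    funext j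
    have h1 : d j = 0 := by
      rcases j with i | i
      · rw [← hcoefA i, hcon.1, coeff_zero]
      · rw [← hcoefB i, hcon.2, coeff_zero]
    simp only [hd] at h1
    omega
  · intro n w hn hw hn₀ hwP
    have hQd : Q v - Q v' = A + B * P := by
      simp only [hQ, hA, hB, hd, C_sub, sub_mul, sum_sub_distrib]
      ring
    have h1 : (r : ℤ) ^ T ∣ (Q v - Q v').eval (n : ℤ) := by
      apply taylor_dvd _ _ _ n₀ _ _ hn₀
      intro k
      rw [map_sub, coeff_sub]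
      have h2 := congrFun heq k
      simp only [hΦ] at h2
      have hpos : (0 : ℤ) < (r : ℤ) ^ (T - (k : ℕ)) := by
        have : (0 : ℤ) < r := by exact_mod_cast (by omega : 0 < r)
        positivity
      have h3 : (taylor n₀ (Q v)).coeff k % ((r : ℤ) ^ (T - (k : ℕ))) =
          (taylor n₀ (Q v')).coeff k % ((r : ℤ) ^ (T - (k : ℕ))) := by
        have e1 := Int.emod_nonneg ((taylor n₀ (Q v)).coeff k) hpos.ne'
        have e2 := Int.emod_nonneg ((taylor n₀ (Q v')).coeff k) hpos.ne'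
        rw [← Int.toNat_of_nonneg e1, ← Int.toNat_of_nonneg e2, h2]
      exact Int.ModEq.dvd (show (taylor n₀ (Q v')).coeff k ≡ (taylor n₀ (Q v)).coeff k
        [ZMOD ((r : ℤ) ^ (T - (k : ℕ)))] from h3.symm)
    have h2 : (r : ℤ) ^ T ∣ A.eval (n : ℤ) + B.eval (n : ℤ) * w := by
      have e1 : A.eval (n : ℤ) + B.eval (n : ℤ) * w =
          (Q v - Q v').eval (n : ℤ) + B.eval (n : ℤ) * (w - P.eval (n : ℤ)) := by
        rw [hQd, eval_add, eval_mul]; ring
      rw [e1]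
      exact dvd_add h1 (hwP.mul_left _)
    have hsum : ∀ c : Fin (a + 1) → ℤ, |(∑ i : Fin (a + 1), C (c i) * X ^ (i : ℕ) : ℤ[X]).eval (n : ℤ)| ≤
        ∑ i : Fin (a + 1), |c i| * (N : ℤ) ^ (i : ℕ) := by
      intro c
      rw [eval_finsetSum]
      refine (abs_sum_le_sum_abs _ _).trans (sum_le_sum fun i _ => ?_)
      rw [eval_mul, eval_C, eval_pow, eval_X, abs_mul, abs_pow, Nat.abs_cast]
      exact mul_le_mul_of_nonneg_left (pow_le_pow_left₀ (by positivity) (by exact_mod_cast hn) _)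
        (abs_nonneg _)
    have hAb : |A.eval (n : ℤ)| ≤ (a + 1 : ℕ) * H := by
      refine (hsum _).trans ?_
      calc ∑ i : Fin (a + 1), |d (Sum.inl i)| * (N : ℤ) ^ (i : ℕ) ≤ ∑ _i : Fin (a + 1), (H : ℤ) := by
            apply sum_le_sum
            intro i _
            have := hdabs' (Sum.inl i)
            simpa [hq] using this
        _ = _ := by simp
    have hBb : |B.eval (n : ℤ) * w| ≤ (a + 1 : ℕ) * H := by
      rw [abs_mul]
      calc |B.eval (n : ℤ)| * |w| ≤ (∑ i : Fin (a + 1), |d (Sum.inr i)| * (N : ℤ) ^ (i : ℕ)) * W :=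
            mul_le_mul (hsum _) hw (abs_nonneg _) (by positivity)
        _ = ∑ i : Fin (a + 1), |d (Sum.inr i)| * (N : ℤ) ^ (i : ℕ) * W := by rw [sum_mul]
        _ ≤ ∑ _i : Fin (a + 1), (H : ℤ) := by
            apply sum_le_sum
            intro i _
            have := hdabs' (Sum.inr i)
            simp only [hq, Sum.elim_inr, Nat.cast_mul, Nat.cast_pow] at this
            rwa [mul_assoc]
        _ = _ := by simp
    have h3 : |A.eval (n : ℤ) + B.eval (n : ℤ) * w| < (r : ℤ) ^ T := by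
      have e1 := abs_add_le (A.eval (n : ℤ)) (B.eval (n : ℤ) * w)
      have e2 : (T : ℤ) * H < (r : ℤ) ^ T := by exact_mod_cast hH1
      have e3 : ((T : ℕ) : ℤ) = 2 * ((a + 1 : ℕ) : ℤ) := by rw [hT]; push_cast; ring
      rw [e3] at e2
      linarith
    exact Int.eq_zero_of_abs_lt_dvd h2 h3

/-- a polynomial relation that would make `F` a perfect power -/
theorem perfect_of_rel {F A B : ℤ[X]} {z : ℕ} (hz : 0 < z) (hAB : A ≠ 0 ∨ B ≠ 0)
    (h : A ^ z = (-B) ^ z * F) : ∃ G : ℚ[X], F.map (Int.castRingHom ℚ) = G ^ z := by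
  have hinj : Function.Injective (Int.castRingHom ℚ) := (Int.castRingHom ℚ).injective_int
  have hB : B ≠ 0 := by
    rintro rfl
    rw [neg_zero, zero_pow hz.ne', zero_mul] at h
    rcases hAB with h1 | h1
    · exact h1 (pow_eq_zero_iff hz.ne' |>.mp h)
    · exact h1 rfl
  set a := A.map (Int.castRingHom ℚ) with ha
  set b := (-B).map (Int.castRingHom ℚ) with hb
  have hb0 : b ≠ 0 := (Polynomial.map_ne_zero_iff hinj).mpr (neg_ne_zero.mpr hB)
  have h1 : a ^ z = b ^ z * F.map (Int.castRingHom ℚ) := by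
    have := congrArg (fun P : ℤ[X] => P.map (Int.castRingHom ℚ)) h
    simpa only [Polynomial.map_pow, Polynomial.map_mul] using this
  have h2 : b ∣ a := (UniqueFactorizationMonoid.pow_dvd_pow_iff_dvd hz.ne').mp ⟨_, h1⟩
  obtain ⟨G, hG⟩ := h2
  refine ⟨G, ?_⟩
  rw [hG, mul_pow] at h1
  exact (mul_left_cancel₀ (pow_ne_zero z hb0) h1).symm

/-- the number of points of `w ^ z = F n` in a residue class -/
theorem class_card {F : ℤ[X]} {r a N W z D : ℕ} (hr : r.Prime) (hz0 : 0 < z) (hz : ¬ r ∣ z)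
    (hF : ¬ ∃ G : ℚ[X], F.map (Int.castRingHom ℚ) = G ^ z) (hD : F.natDegree ≤ D)
    (hN : 1 ≤ N) (hW : 1 ≤ W)
    (hbig : N ^ a * W * (2 * (a + 1)) ^ 2 < r ^ (2 * a + 1)) (n₀ w₀ : ℤ) (hw₀ : ¬ (r : ℤ) ∣ w₀)
    (S : Finset ℕ) (hS : ∀ n ∈ S, n ≤ N ∧ (r : ℤ) ∣ n - n₀ ∧ ∃ w : ℤ, |w| ≤ W ∧ (r : ℤ) ∣ w - w₀ ∧
      w ^ z = F.eval (n : ℤ)) : S.card ≤ z * a + D := by
  classical
  obtain ⟨P, hP⟩ := hensel_poly F hr hz n₀ w₀ hw₀ (2 * (a + 1))
  obtain ⟨A, B, hAB, hA, hB, hroot⟩ := siegel_class P n₀ hN hW hr.two_le hbig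
  set R := A ^ z - (-B) ^ z * F with hR
  have hR0 : R ≠ 0 := by
    intro h
    exact hF (perfect_of_rel hz0 hAB (sub_eq_zero.mp h))
  have hRdeg : R.natDegree ≤ z * a + D := by
    refine (natDegree_sub_le _ _).trans (max_le ?_ ?_)
    · exact (natDegree_pow_le.trans (Nat.mul_le_mul_left _ hA)).trans (Nat.le_add_right _ _)
    · refine natDegree_mul_le.trans (Nat.add_le_add ?_ hD)
      refine natDegree_pow_le.trans (Nat.mul_le_mul_left _ ?_)
      rw [natDegree_neg]; exact hB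
  have hsub : S.map ⟨fun n : ℕ => (n : ℤ), Nat.cast_injective⟩ ⊆ R.roots.toFinset := by
    intro x hx
    rw [mem_map] at hx
    obtain ⟨n, hn, rfl⟩ := hx
    obtain ⟨h1, h2, w, h3, h4, h5⟩ := hS n hn
    rw [Multiset.mem_toFinset, mem_roots hR0, IsRoot.def]
    have h6 := hroot n w h1 h3 h2 (hP n w h2 h4 h5)
    simp only [hR, Function.Embedding.coeFn_mk, eval_sub, eval_mul, eval_pow, eval_neg]
    have h7 : A.eval (n : ℤ) = (-B.eval (n : ℤ)) * w := by linear_combination h6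
    rw [h7, mul_pow, h5, sub_self]
  calc S.card = (S.map ⟨fun n : ℕ => (n : ℤ), Nat.cast_injective⟩).card := (card_map _).symm
    _ ≤ R.roots.toFinset.card := card_le_card hsub
    _ ≤ R.roots.card := Multiset.toFinset_card_le _
    _ ≤ R.natDegree := card_roots' R
    _ ≤ _ := hRdeg

theorem residue_card (r N : ℕ) [NeZero r] (x : ZMod r) :
    ((Icc 1 N).filter (fun n : ℕ => (n : ZMod r) = x)).card ≤ N / r + 1 := by
  rw [← card_range (N / r + 1)]
  apply card_le_card_of_injOn (fun n => n / r)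
  · intro n hn
    rw [mem_coe, mem_filter, mem_Icc] at hn
    rw [mem_coe, mem_range]
    exact Nat.lt_succ_of_le (Nat.div_le_div_right hn.1.2)
  · intro n hn m hm hnm
    rw [mem_coe, mem_filter] at hn hm
    have h1 : (n : ZMod r) = (m : ZMod r) := hn.2.trans hm.2.symm
    rw [ZMod.natCast_eq_natCast_iff'] at h1
    simp only at hnm
    rw [← Nat.div_add_mod n r, ← Nat.div_add_mod m r, h1, hnm]

/-- the number of `n ≤ N` with `F n = w ^ z`, `|w| ≤ W` -/
theorem power_count {F : ℤ[X]} {r a N W z D : ℕ} (hr : r.Prime) (hz0 : 0 < z) (hz : ¬ r ∣ z)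
    (hF : ¬ ∃ G : ℚ[X], F.map (Int.castRingHom ℚ) = G ^ z) (hD : F.natDegree ≤ D)
    (hFr : F.map (Int.castRingHom (ZMod r)) ≠ 0) (hN : 1 ≤ N) (hW : 1 ≤ W)
    (hbig : N ^ a * W * (2 * (a + 1)) ^ 2 < r ^ (2 * a + 1)) (S : Finset ℕ)
    (hS : ∀ n ∈ S, 1 ≤ n ∧ n ≤ N ∧ ∃ w : ℤ, |w| ≤ W ∧ w ^ z = F.eval (n : ℤ)) :
    S.card ≤ D * (N / r + 1) + r * (z * (z * a + D)) := by
  classical
  have : Fact r.Prime := ⟨hr⟩
  have : NeZero r := ⟨hr.ne_zero⟩
  set φ := Int.castRingHom (ZMod r) with hφ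
  set S₀ := (F.map φ).roots.toFinset.biUnion (fun x => (Icc 1 N).filter (fun n : ℕ => (n : ZMod r) = x))
    with hS₀
  set cls : ZMod r → ZMod r → Finset ℕ := fun x y => (Icc 1 N).filter (fun n : ℕ => (n : ZMod r) = x ∧
    ∃ w : ℤ, |w| ≤ W ∧ (w : ZMod r) = y ∧ w ^ z = F.eval (n : ℤ)) with hcls
  set S₁ := (univ : Finset (ZMod r)).biUnion (fun x =>
    (((nthRoots z ((F.map φ).eval x)).toFinset).erase 0).biUnion (fun y => cls x y)) with hS₁
  have h0 : S₀.card ≤ D * (N / r + 1) := by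
    refine (card_biUnion_le_card_mul _ _ _ (fun x _ => residue_card r N x)).trans ?_
    apply Nat.mul_le_mul_right
    calc (F.map φ).roots.toFinset.card ≤ (F.map φ).roots.card := Multiset.toFinset_card_le _
      _ ≤ (F.map φ).natDegree := card_roots' _
      _ ≤ F.natDegree := natDegree_map_le
      _ ≤ D := hD
  have hval : ∀ x : ZMod r, (((x.val : ℕ) : ℤ) : ZMod r) = x := by
    intro x
    rw [Int.cast_natCast, ZMod.natCast_zmod_val]
  have h1 : S₁.card ≤ r * (z * (z * a + D)) := by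
    have h2 : ∀ x ∈ (univ : Finset (ZMod r)),
        ((((nthRoots z ((F.map φ).eval x)).toFinset).erase 0).biUnion (fun y => cls x y)).card ≤
          z * (z * a + D) := by
      intro x _
      refine (card_biUnion_le_card_mul _ _ (z * a + D) ?_).trans (Nat.mul_le_mul_right _ ?_)
      · intro y hy
        rw [mem_erase] at hy
        apply class_card hr hz0 hz hF hD hN hW hbig ((x.val : ℕ) : ℤ) ((y.val : ℕ) : ℤ)
        · intro h
          apply hy.1
          rw [← hval y]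
          exact (ZMod.intCast_zmod_eq_zero_iff_dvd _ _).mpr h
        · intro n hn
          simp only [hcls, mem_filter, mem_Icc] at hn
          obtain ⟨⟨h3, h4⟩, h5, w, h6, h7, h8⟩ := hn
          refine ⟨h4, ?_, w, h6, ?_, h8⟩
          · rw [← ZMod.intCast_zmod_eq_zero_iff_dvd, Int.cast_sub, hval, Int.cast_natCast, h5, sub_self]
          · rw [← ZMod.intCast_zmod_eq_zero_iff_dvd, Int.cast_sub, hval, h7, sub_self]
      · calc _ ≤ ((nthRoots z ((F.map φ).eval x)).toFinset).card := card_erase_le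
          _ ≤ (nthRoots z ((F.map φ).eval x)).card := Multiset.toFinset_card_le _
          _ ≤ z := card_nthRoots z _
    refine (card_biUnion_le_card_mul _ _ _ h2).trans ?_
    rw [card_univ, ZMod.card]
  have hsub : S ⊆ S₀ ∪ S₁ := by
    intro n hn
    obtain ⟨h2, h3, w, h4, h5⟩ := hS n hn
    have h6 : (F.map φ).eval (n : ZMod r) = (w : ZMod r) ^ z := by
      have e1 : ((F.eval (n : ℤ) : ℤ) : ZMod r) = (F.map φ).eval (((n : ℤ) : ZMod r)) := by
        rw [hφ, eval_intCast_map]; simp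
      rw [← Int.cast_natCast (R := ZMod r) n, ← e1, ← h5, Int.cast_pow]
    rw [mem_union]
    by_cases h7 : (w : ZMod r) = 0
    · left
      rw [hS₀, mem_biUnion]
      refine ⟨(n : ZMod r), ?_, ?_⟩
      · rw [Multiset.mem_toFinset, mem_roots hFr, IsRoot.def, h6, h7, zero_pow hz0.ne']
      · rw [mem_filter, mem_Icc]
        exact ⟨⟨h2, h3⟩, rfl⟩
    · right
      rw [hS₁, mem_biUnion]
      refine ⟨(n : ZMod r), mem_univ _, ?_⟩
      rw [mem_biUnion]
      refine ⟨(w : ZMod r), ?_, ?_⟩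
      · rw [mem_erase, Multiset.mem_toFinset, mem_nthRoots hz0]
        exact ⟨h7, h6.symm⟩
      · simp only [hcls, mem_filter, mem_Icc]
        exact ⟨⟨h2, h3⟩, trivial, w, h4, rfl, h5⟩
  exact (card_le_card hsub).trans ((card_union_le _ _).trans (Nat.add_le_add h0 h1))

end Pool.Agent.TH888.B1
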