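import Mathlib
import Pool.Agent.TH888.B1.PolyMain
import Pool.Agent.TH888.B1.Sieg

/-!
Two polynomial bases and a free third base up to `exp ((log N) ^ K)`, all exponents free.
-/

set_option autoImplicit false

namespace Pool.Agent.TH888.B1

open Finset Polynomial Filter Topology

/-- bounds for the exponents, for integers -/
theorem exps : ∃ C κ : ℕ, ∀ (a b c : ℤ) (S₀ l m k : ℕ) (s t : ℤ), 1 ≤ S₀ → 0 < l → 0 < m → 0 < k →
    m * k + k * l + l * m ≤ l * m * k → (s = 1 ∨ s = -1) → (t = 1 ∨ t = -1) → c ≠ 0 →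
    IsCoprime a b → a ^ l + s * b ^ m = t * c ^ k →
    a.natAbs ≤ 2 ^ S₀ → b.natAbs ≤ 2 ^ S₀ → c.natAbs ≤ 2 ^ S₀ → 2 ≤ a.natAbs → 2 ≤ b.natAbs →
    (∃ p : ℕ, p.Prime ∧ p ≠ 2 ∧ p ≤ S₀ ∧ (p : ℤ) ∣ a) →
    (∃ p : ℕ, p.Prime ∧ p ≠ 2 ∧ p ≤ S₀ ∧ (p : ℤ) ∣ b) →
    l ≤ C * S₀ ^ κ ∧ m ≤ C * S₀ ^ κ ∧ ∃ k' : ℕ, 0 < k' ∧ k' ≤ C * S₀ ^ κ + 7 ∧
      m * k' + k' * l + l * m ≤ l * m * k' ∧ c ^ k' = c ^ k := by
  obtain ⟨C, κ, hC⟩ := exp_bound
  refine ⟨C, κ, ?_⟩
  rintro a b c S₀ l m k s t hS₀ hl hm hk hineq hs ht hh0 hcop heq hfS hgS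
    hhS hf2 hg2 ⟨p', hp', hp2', hpS', hpf⟩ ⟨p, hp, hp2, hpS, hpg⟩
  -- coprimality
  have hac : IsCoprime a c := by
    have h1 : IsCoprime a (b ^ m) := hcop.pow_right
    have h2 : IsCoprime a (c ^ k) := by
      have h3 : c ^ k = (t * s) * b ^ m + a * (t * a ^ (l - 1)) := by
        have ht2 : t * t = 1 := by rcases ht with rfl | rfl <;> norm_num
        have h4 : a ^ l = a * a ^ (l - 1) := by rw [← pow_succ', Nat.sub_add_cancel hl]
        have h5 : c ^ k = t * (a ^ l + s * b ^ m) := by rw [heq]; linear_combination (-c ^ k) * ht2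
        rw [h5, h4]; ring
      rw [h3]
      refine IsCoprime.add_mul_left_right ?_ _
      apply IsCoprime.mul_right _ h1
      rcases hs with rfl | rfl <;> rcases ht with rfl | rfl <;> simp [isCoprime_one_right, IsCoprime.neg_right_iff]
    exact (IsCoprime.pow_right_iff hk).mp h2
  have hbc : IsCoprime b c := by
    have h1 : IsCoprime b (a ^ l) := hcop.symm.pow_right
    have h2 : IsCoprime b (c ^ k) := by
      have h3 : c ^ k = t * a ^ l + b * (t * s * b ^ (m - 1)) := by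
        have ht2 : t * t = 1 := by rcases ht with rfl | rfl <;> norm_num
        have h4 : b ^ m = b * b ^ (m - 1) := by rw [← pow_succ', Nat.sub_add_cancel hm]
        have h5 : c ^ k = t * (a ^ l + s * b ^ m) := by rw [heq]; linear_combination (-c ^ k) * ht2
        rw [h5, h4]; ring
      rw [h3]
      refine IsCoprime.add_mul_left_right ?_ _
      apply IsCoprime.mul_right _ h1
      rcases ht with rfl | rfl <;> simp [isCoprime_one_right, IsCoprime.neg_right_iff]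
    exact (IsCoprime.pow_right_iff hk).mp h2
  have hnc : ∀ {x y : ℤ}, IsCoprime x y → Nat.Coprime x.natAbs y.natAbs := fun h =>
    Int.isCoprime_iff_gcd_eq_one.mp h
  -- signs
  obtain ⟨σ₁, hσ₁, e1⟩ := sign_pow a l
  obtain ⟨σ₂, hσ₂, e2⟩ := sign_pow b m
  obtain ⟨σ₃, hσ₃, e3⟩ := sign_pow c k
  have heq' : (a.natAbs : ℤ) ^ l + (s * σ₁ * σ₂) * (b.natAbs : ℤ) ^ m =
      (t * σ₁ * σ₃) * (c.natAbs : ℤ) ^ k := by
    have h1 : σ₁ * σ₁ = 1 := by rcases hσ₁ with rfl | rfl <;> norm_num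
    rw [e1, e2, e3] at heq
    linear_combination σ₁ * heq - ((a.natAbs : ℤ) ^ l) * h1
  have hsg : (s * σ₁ * σ₂ = 1 ∨ s * σ₁ * σ₂ = -1) := by
    rcases hs with rfl | rfl <;> rcases hσ₁ with rfl | rfl <;> rcases hσ₂ with rfl | rfl <;> norm_num
  have htg : (t * σ₁ * σ₃ = 1 ∨ t * σ₁ * σ₃ = -1) := by
    rcases ht with rfl | rfl <;> rcases hσ₁ with rfl | rfl <;> rcases hσ₃ with rfl | rfl <;> norm_num
  have hc1 : 1 ≤ c.natAbs := Int.natAbs_pos.mpr hh0
  obtain ⟨b1, b2, b3⟩ := hC S₀ hS₀ p p' hp hp' hp2 hp2' hpS hpS' a.natAbs b.natAbs c.natAbs l m k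
    hf2 hg2 hc1 hfS hgS hhS (hnc hcop) (hnc hac) (hnc hbc) (Int.natCast_dvd.mp hpg)
    (Int.natCast_dvd.mp hpf) hl hm _ _ hsg htg heq'
  refine ⟨b1, b2, ?_⟩
  rcases Nat.lt_or_ge c.natAbs 2 with h2 | h2
  · rcases Nat.lt_or_ge k 8 with h3 | h3
    · exact ⟨k, hk, by omega, hineq, rfl⟩
    · refine ⟨6 + k % 2, by omega, by omega, third_exponent hl hm hineq (by omega), ?_⟩
      have h4 : c = 1 ∨ c = -1 := Int.natAbs_eq_iff.mp (by omega : c.natAbs = 1)
      rcases h4 with h4 | h4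
      · rw [h4, one_pow, one_pow]
      · rw [h4]
        have h5 : k % 2 = 0 ∨ k % 2 = 1 := by omega
        rcases h5 with h5 | h5
        · have h6 : Even k := Nat.even_iff.mpr h5
          rw [h5, h6.neg_one_pow]; norm_num
        · have h6 : Odd k := Nat.odd_iff.mpr h5
          rw [h5, h6.neg_one_pow]; norm_num
  · exact ⟨k, hk, (b3 h2).trans (Nat.le_add_right _ _), hineq, rfl⟩

/-- residue classes in which both values have a small odd prime factor -/
theorem good_classes (f g : ℤ[X]) (hf : 0 < f.natDegree) (hg : 0 < g.natDegree) (ε : ℝ) (hε : 0 < ε) :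
    ∃ (M P : ℕ) (G : Finset ℕ), 0 < M ∧ G ⊆ range M ∧ (1 - ε) * M ≤ (G.card : ℝ) ∧
      ∀ n : ℕ, n % M ∈ G → (∃ p : ℕ, p.Prime ∧ p ≠ 2 ∧ p ≤ P ∧ (p : ℤ) ∣ f.eval (n : ℤ)) ∧
        (∃ p : ℕ, p.Prime ∧ p ≠ 2 ∧ p ≤ P ∧ (p : ℤ) ∣ g.eval (n : ℤ)) := by
  classical
  obtain ⟨F₁, hF₁, L₁, hL₁⟩ := factor_fin f hf (ε / 2) (by positivity)
  obtain ⟨F₂, hF₂, L₂, hL₂⟩ := factor_fin g hg (ε / 2) (by positivity)
  set M := (∏ r ∈ F₁, r) * ∏ r ∈ F₂, r with hM
  have hMpos : 0 < M := Nat.mul_pos (prod_pos fun r hr => (hF₁ r hr).1.pos)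
    (prod_pos fun r hr => (hF₂ r hr).1.pos)
  set good : ℕ → Prop := fun n => (∃ p ∈ F₁, (p : ℤ) ∣ f.eval (n : ℤ)) ∧
    (∃ p ∈ F₂, (p : ℤ) ∣ g.eval (n : ℤ)) with hgood
  have hper : ∀ n, good (n + M) ↔ good n := by
    intro n
    simp only [hgood]
    apply and_congr
    · apply exists_congr; intro p
      apply and_congr_right; intro hp
      exact dvd_eval_periodic f ((dvd_prod_of_mem (fun r => r) hp).trans (dvd_mul_right _ _)) n
    · apply exists_congr; intro p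
      apply and_congr_right; intro hp
      exact dvd_eval_periodic g ((dvd_prod_of_mem (fun r => r) hp).trans (dvd_mul_left _ _)) n
  have hper' : Function.Periodic (fun n => ¬ good n) M := by
    intro n
    exact propext (not_congr (hper n))
  have hmod : ∀ n, good (n % M) ↔ good n := by
    intro n
    have h1 : ∀ j m : ℕ, good (m + M * j) ↔ good m := by
      intro j
      induction j with
      | zero => intro m; simp
      | succ j ih =>
        intro m
        rw [show m + M * (j + 1) = (m + M * j) + M by ring, hper, ih]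
    conv_rhs => rw [← Nat.mod_add_div n M]
    exact (h1 (n / M) (n % M)).symm
  set G := (range M).filter good with hG
  refine ⟨M, F₁.sup id + F₂.sup id, G, hMpos, filter_subset _ _, ?_, ?_⟩
  · set T := L₁ + L₂ + 1 with hT
    have hX1 : L₁ ≤ M * T := by
      calc L₁ ≤ T := by omega
        _ ≤ M * T := Nat.le_mul_of_pos_left _ hMpos
    have hX2 : L₂ ≤ M * T := by
      calc L₂ ≤ T := by omega
        _ ≤ M * T := Nat.le_mul_of_pos_left _ hMpos
    have h1 := hL₁ (M * T) hX1 0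
    have h2 := hL₂ (M * T) hX2 0
    have h3 := periodic_count (fun n => ¬ good n) M hper' T
    have h4 : (((Finset.Ico 1 (1 + M * T)).filter (fun n => ¬ good n) : Finset ℕ) : Set ℕ) ⊆
        ({n : ℕ | ¬ ∃ p ∈ F₁, (p : ℤ) ∣ f.eval (n : ℤ)} ∩ Set.Ioc 0 (0 + M * T)) ∪
        ({n : ℕ | ¬ ∃ p ∈ F₂, (p : ℤ) ∣ g.eval (n : ℤ)} ∩ Set.Ioc 0 (0 + M * T)) := by
      intro n hn
      rw [mem_coe, mem_filter, mem_Ico] at hn
      have h5 : n ∈ Set.Ioc 0 (0 + M * T) := ⟨by omega, by omega⟩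
      simp only [hgood, not_and_or] at hn
      rcases hn.2 with h6 | h6
      · exact Or.inl ⟨h6, h5⟩
      · exact Or.inr ⟨h6, h5⟩
    have h5 : (((Finset.Ico 1 (1 + M * T)).filter (fun n => ¬ good n)).card : ℝ) ≤ ε * (M * T : ℕ) := by
      rw [← Set.ncard_coe_finset]
      have h6 := Set.ncard_le_ncard h4 (((Set.finite_Ioc _ _).subset Set.inter_subset_right).union
        ((Set.finite_Ioc _ _).subset Set.inter_subset_right))
      have h7 := h6.trans (Set.ncard_union_le _ _)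
      have h8 : ((((Finset.Ico 1 (1 + M * T)).filter (fun n => ¬ good n) : Finset ℕ) : Set ℕ).ncard : ℝ) ≤
          (({n : ℕ | ¬ ∃ p ∈ F₁, (p : ℤ) ∣ f.eval (n : ℤ)} ∩ Set.Ioc 0 (0 + M * T)).ncard : ℝ) +
          (({n : ℕ | ¬ ∃ p ∈ F₂, (p : ℤ) ∣ g.eval (n : ℤ)} ∩ Set.Ioc 0 (0 + M * T)).ncard : ℝ) := by
        exact_mod_cast h7
      linarith
    rw [h3] at h5
    push_cast at h5
    have hTpos : (0 : ℝ) < T := by
      have : 0 < T := by omega
      exact_mod_cast this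
    have h6 : (((range M).filter (fun n => ¬ good n)).card : ℝ) ≤ ε * M := by
      have h7 : (T : ℝ) * (((range M).filter (fun n => ¬ good n)).card : ℝ) ≤ T * (ε * M) := by
        calc _ ≤ _ := h5
          _ = _ := by ring
      exact le_of_mul_le_mul_left h7 hTpos
    have h7 := Finset.card_filter_add_card_filter_not (s := range M) good
    rw [card_range] at h7
    have h8 : (G.card : ℝ) + (((range M).filter (fun n => ¬ good n)).card : ℝ) = M := by
      rw [hG]; exact_mod_cast h7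
    linarith
  · intro n hn
    have hgn : good n := (hmod n).mp (mem_filter.mp hn).2
    obtain ⟨⟨p', hp', hpf⟩, ⟨p, hp, hpg⟩⟩ := hgn
    have hp'P : p' ≤ F₁.sup id := Finset.le_sup (f := id) hp'
    have hpP : p ≤ F₂.sup id := Finset.le_sup (f := id) hp
    exact ⟨⟨p', (hF₁ p' hp').1, (hF₁ p' hp').2, by omega, hpf⟩,
      ⟨p, (hF₂ p hp).1, (hF₂ p hp).2, by omega, hpg⟩⟩

/-- Bezout over the integers -/
theorem bezout_int {f g : ℤ[X]}
    (h : IsCoprime (f.map (Int.castRingHom ℚ)) (g.map (Int.castRingHom ℚ))) :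
    ∃ (u v : ℤ[X]) (R : ℤ), R ≠ 0 ∧ u * f + v * g = C R := by
  obtain ⟨a, b, hab⟩ := h
  have hinj : Function.Injective (Int.castRingHom ℚ) := (Int.castRingHom ℚ).injective_int
  obtain ⟨c, hcm, hc⟩ := IsLocalization.integerNormalization_spec (nonZeroDivisors ℤ) a
  obtain ⟨d, hdm, hd⟩ := IsLocalization.integerNormalization_spec (nonZeroDivisors ℤ) b
  refine ⟨C d * IsLocalization.integerNormalization (nonZeroDivisors ℤ) a,
    C c * IsLocalization.integerNormalization (nonZeroDivisors ℤ) b, c * d,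
    mul_ne_zero (nonZeroDivisors.ne_zero hcm) (nonZeroDivisors.ne_zero hdm), ?_⟩
  apply Polynomial.map_injective _ hinj
  have e : (algebraMap ℤ ℚ) = Int.castRingHom ℚ := rfl
  rw [e] at hc hd
  simp only [Polynomial.map_add, Polynomial.map_mul, Polynomial.map_C, hc, hd]
  have h1 : ∀ (x : ℤ) (p : ℚ[X]), x • p = C ((Int.castRingHom ℚ) x) * p := by
    intro x p
    rw [zsmul_eq_mul]
    simp
  rw [h1, h1]
  have h2 : (C ((Int.castRingHom ℚ) (c * d)) : ℚ[X]) =
      C ((Int.castRingHom ℚ) c) * C ((Int.castRingHom ℚ) d) * (a * f.map (Int.castRingHom ℚ) +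
        b * g.map (Int.castRingHom ℚ)) := by
    rw [hab, mul_one, map_mul, C_mul]
  rw [h2]
  ring

/-- the left side of the equation -/
noncomputable def Lft (f g : ℤ[X]) (l m : ℕ) (s t : ℤ) : ℤ[X] := C t * (f ^ l + C s * g ^ m)

theorem coprime_pow_ne {R : Type*} [CommRing R] [IsDomain R] {x y : R} (h : IsCoprime x y)
    (hx : ¬ IsUnit x) {l m : ℕ} (hl : 0 < l) {s : R} : x ^ l + s * y ^ m ≠ 0 ∨ s = 0 ∨ ¬ IsUnit s := by
  by_cases hs : IsUnit s
  · left
    intro h0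
    apply hx
    have h1 : x ∣ s * y ^ m := by
      have : s * y ^ m = - x ^ l := by linear_combination h0
      rw [this]
      exact (dvd_pow_self x hl.ne').neg_right
    have h2 : x ∣ y ^ m := (hs.dvd_mul_left).mp h1
    exact (h.pow_right (n := m)).isUnit_of_dvd' dvd_rfl h2
  · right; right; exact hs

/-- the left side is not zero modulo large primes -/
theorem lft_mod {f g : ℤ[X]} (hf : 0 < f.natDegree)
    (hcop : IsCoprime (f.map (Int.castRingHom ℚ)) (g.map (Int.castRingHom ℚ))) :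
    ∃ r₀ : ℕ, ∀ r : ℕ, r.Prime → r₀ < r → ∀ (l m : ℕ) (s t : ℤ), 0 < l → (s = 1 ∨ s = -1) →
      (t = 1 ∨ t = -1) → (Lft f g l m s t).map (Int.castRingHom (ZMod r)) ≠ 0 := by
  obtain ⟨u, v, R, hR, huv⟩ := bezout_int hcop
  refine ⟨R.natAbs + f.leadingCoeff.natAbs, fun r hr hr₀ l m s t hl hs ht => ?_⟩
  have : Fact r.Prime := ⟨hr⟩
  set φ := Int.castRingHom (ZMod r) with hφ
  have hsmall : ∀ x : ℤ, x ≠ 0 → x.natAbs < r → φ x ≠ 0 := by
    intro x hx hxr h0
    have h1 : (r : ℤ) ∣ x := (ZMod.intCast_zmod_eq_zero_iff_dvd x r).mp h0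
    have h2 := Int.natAbs_dvd_natAbs.mpr h1
    rw [Int.natAbs_natCast] at h2
    exact absurd (Nat.le_of_dvd (Int.natAbs_pos.mpr hx) h2) (by omega)
  have hR' : φ R ≠ 0 := hsmall R hR (by omega)
  have hf0 : f ≠ 0 := by rintro rfl; simp at hf
  have hlc : φ f.leadingCoeff ≠ 0 := hsmall _ (leadingCoeff_ne_zero.mpr hf0) (by omega)
  have hcr : IsCoprime (f.map φ) (g.map φ) := by
    refine ⟨C (φ R)⁻¹ * u.map φ, C (φ R)⁻¹ * v.map φ, ?_⟩
    have h1 := congrArg (fun P : ℤ[X] => P.map φ) huv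
    simp only [Polynomial.map_add, Polynomial.map_mul, Polynomial.map_C] at h1
    rw [mul_assoc, mul_assoc, ← mul_add, h1, ← C_mul, inv_mul_cancel₀ hR', C_1]
  have hnu : ¬ IsUnit (f.map φ) := by
    intro h
    have h1 := natDegree_eq_zero_of_isUnit h
    rw [natDegree_map_of_leadingCoeff_ne_zero φ hlc] at h1
    omega
  have hsu : IsUnit (C (φ s) : (ZMod r)[X]) := by
    rcases hs with rfl | rfl <;> simp
  have htu : (C (φ t) : (ZMod r)[X]) ≠ 0 := by
    rcases ht with rfl | rfl <;> simp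
  unfold Lft
  simp only [Polynomial.map_add, Polynomial.map_mul, Polynomial.map_C, Polynomial.map_pow]
  refine mul_ne_zero htu ?_
  rcases coprime_pow_ne (m := m) hcr hnu hl (s := C (φ s)) with h | h | h
  · exact h
  · exact absurd h hsu.ne_zero
  · exact absurd hsu h

/-- the left side is not a perfect power -/
theorem lft_not_pow {f g : ℤ[X]} (hf : 0 < f.natDegree) (hg : g ≠ 0)
    (hcop : IsCoprime (f.map (Int.castRingHom ℚ)) (g.map (Int.castRingHom ℚ))) {l m k : ℕ}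
    (hl : 0 < l) (hm : 0 < m) (hk : 0 < k) (hineq : m * k + k * l + l * m ≤ l * m * k) {s t : ℤ}
    (hs : s = 1 ∨ s = -1) (ht : t = 1 ∨ t = -1) :
    ¬ ∃ G : ℚ[X], (Lft f g l m s t).map (Int.castRingHom ℚ) = G ^ k := by
  rintro ⟨G, hG⟩
  have hinj : Function.Injective (Int.castRingHom ℚ) := (Int.castRingHom ℚ).injective_int
  have hne : ∀ {P : ℤ[X]}, P ≠ 0 → P.map (Int.castRingHom ℚ) ≠ 0 := fun {P} hP =>
    (Polynomial.map_ne_zero_iff hinj).mpr hP
  have hs0 : (Int.castRingHom ℚ) s ≠ 0 := by rcases hs with rfl | rfl <;> simp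
  have ht0 : -(Int.castRingHom ℚ) t ≠ 0 := by rcases ht with rfl | rfl <;> simp
  have htt : C ((Int.castRingHom ℚ) t) * C ((Int.castRingHom ℚ) t) = (1 : ℚ[X]) := by
    rcases ht with rfl | rfl <;> simp
  have hf0 : f ≠ 0 := by rintro rfl; simp at hf
  have hnu : ¬ IsUnit (f.map (Int.castRingHom ℚ)) := by
    intro h
    have h1 := natDegree_eq_zero_of_isUnit h
    rw [natDegree_map_eq_of_injective hinj] at h1
    omega
  unfold Lft at hG
  simp only [Polynomial.map_add, Polynomial.map_mul, Polynomial.map_pow, map_C] at hG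
  have hG0 : G ≠ 0 := by
    rintro rfl
    rw [zero_pow hk.ne'] at hG
    rcases mul_eq_zero.mp hG with h | h
    · rw [h, mul_zero] at htt
      exact zero_ne_one htt
    · rcases coprime_pow_ne (m := m) hcop hnu hl (s := C ((Int.castRingHom ℚ) s)) with h1 | h1 | h1
      · exact h1 h
      · rw [C_eq_zero] at h1; exact hs0 h1
      · exact h1 (isUnit_C.mpr (isUnit_iff_ne_zero.mpr hs0))
  have h2 := Polynomial.flt_catalan (k := ℚ) hl.ne' hm.ne' hk.ne' hineq
    (by exact_mod_cast hl.ne') (by exact_mod_cast hm.ne') (by exact_mod_cast hk.ne')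
    (hne hf0) (hne hg) hG0 hcop (u := 1) (v := (Int.castRingHom ℚ) s)
    (w := -(Int.castRingHom ℚ) t) one_ne_zero hs0 ht0 (by
      rw [C_neg, C_1, one_mul, ← hG]
      linear_combination (-(f.map (Int.castRingHom ℚ) ^ l + C ((Int.castRingHom ℚ) s) *
        g.map (Int.castRingHom ℚ) ^ m)) * htt)
  rw [natDegree_map_eq_of_injective hinj] at h2
  omega

theorem lft_natDegree {f g : ℤ[X]} {l m B D : ℕ} {s t : ℤ} (hl : l ≤ B) (hm : m ≤ B)
    (hD : f.natDegree ≤ D) (hD' : g.natDegree ≤ D) : (Lft f g l m s t).natDegree ≤ B * D := by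
  have h1 : ∀ {P : ℤ[X]} {i : ℕ}, i ≤ B → P.natDegree ≤ D → (P ^ i).natDegree ≤ B * D := by
    intro P i hi hP
    exact natDegree_pow_le.trans (Nat.mul_le_mul hi hP)
  unfold Lft
  refine (natDegree_C_mul_le _ _).trans ((natDegree_add_le _ _).trans (max_le (h1 hl hD) ?_))
  exact (natDegree_C_mul_le _ _).trans (h1 hm hD')

end Pool.Agent.TH888.B1
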