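import Mathlib
import Pool.Agent.TH888.B1.Free

/-!
Assembly for two polynomial bases and a free third base.
-/

set_option autoImplicit false

namespace Pool.Agent.TH888.B1

open Finset Polynomial Filter Topology

/-- `f n` and `g n` are two bases of a solution whose third base is at most `W` -/
def ExcFree (f g : ℤ[X]) (W : ℝ) : Set ℕ :=
  {n | ∃ (l m k : ℕ) (s t w : ℤ), 0 < l ∧ 0 < m ∧ 0 < k ∧
    m * k + k * l + l * m ≤ l * m * k ∧ (s = 1 ∨ s = -1) ∧ (t = 1 ∨ t = -1) ∧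
    f.eval (n : ℤ) ≠ 0 ∧ g.eval (n : ℤ) ≠ 0 ∧ w ≠ 0 ∧ |(w : ℝ)| ≤ W ∧
    IsCoprime (f.eval (n : ℤ)) (g.eval (n : ℤ)) ∧
    f.eval (n : ℤ) ^ l + s * g.eval (n : ℤ) ^ m = t * w ^ k}

theorem polylog_rpow (c d : ℕ) (δ : ℝ) (hδ : 0 < δ) : ∃ L : ℕ, ∀ X : ℕ, L ≤ X →
    (c : ℝ) * ((Nat.log 2 X + 1 : ℕ) : ℝ) ^ d ≤ (X : ℝ) ^ δ := by
  have h1 := (isLittleO_log_rpow_rpow_atTop (s := δ) (d : ℝ) hδ).comp_tendsto
    tendsto_natCast_atTop_atTop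
  have h2 := h1.bound (show (0 : ℝ) < 1 / ((c + 1) * 3 ^ d) by positivity)
  obtain ⟨L, hL⟩ := eventually_atTop.mp h2
  refine ⟨L + 2, fun X hX => ?_⟩
  have h3 := hL X (by omega)
  have hXpos : (0 : ℝ) < X := by
    have : 0 < X := by omega
    exact_mod_cast this
  have hlog : 0 ≤ Real.log X := Real.log_nonneg (by
    have : 1 ≤ X := by omega
    exact_mod_cast this)
  simp only [Function.comp, Real.norm_eq_abs, Real.rpow_natCast] at h3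
  rw [abs_of_nonneg (pow_nonneg hlog d), abs_of_nonneg (Real.rpow_nonneg hXpos.le δ)] at h3
  have h4 := log_le (show 2 ≤ X by omega)
  calc (c : ℝ) * ((Nat.log 2 X + 1 : ℕ) : ℝ) ^ d ≤ (c + 1) * (3 * Real.log X) ^ d := by
        apply mul_le_mul (by linarith) (pow_le_pow_left₀ (by positivity) h4 d) (by positivity)
          (by positivity)
    _ = (c + 1) * 3 ^ d * Real.log X ^ d := by rw [mul_pow]; ring
    _ ≤ (c + 1) * 3 ^ d * (1 / ((c + 1) * 3 ^ d) * (X : ℝ) ^ δ) := by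
        apply mul_le_mul_of_nonneg_left h3 (by positivity)
    _ = (X : ℝ) ^ δ := by field_simp

theorem exp_le_two_pow {N Y K S : ℕ} (hN : 1 ≤ N) (hY : N ≤ 2 ^ Y) (hY1 : 1 ≤ Y)
    (hS : 2 * Y ^ (K + 1) ≤ S) : Real.exp (Real.log N ^ K) ≤ ((2 ^ S : ℕ) : ℝ) := by
  have hN0 : (0 : ℝ) < N := by exact_mod_cast hN
  have h1 : Real.log N ≤ Y := by
    have h2 : Real.log N ≤ Real.log ((2 : ℝ) ^ Y) := Real.log_le_log hN0 (by exact_mod_cast hY)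
    rw [Real.log_pow] at h2
    have h3 := Real.log_two_lt_d9
    have h4 : (0 : ℝ) ≤ Y := Nat.cast_nonneg _
    nlinarith
  have h0 : 0 ≤ Real.log N := Real.log_nonneg (by exact_mod_cast hN)
  have h2 : Real.log N ^ K ≤ ((Y ^ (K + 1) : ℕ) : ℝ) := by
    push_cast
    calc Real.log N ^ K ≤ (Y : ℝ) ^ K := pow_le_pow_left₀ h0 h1 K
      _ ≤ (Y : ℝ) ^ (K + 1) := pow_le_pow_right₀ (by exact_mod_cast hY1) (by omega)
  calc Real.exp (Real.log N ^ K) ≤ Real.exp ((Y ^ (K + 1) : ℕ) : ℝ) := Real.exp_le_exp.mpr h2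
    _ = Real.exp 1 ^ (Y ^ (K + 1)) := by rw [← Real.exp_nat_mul, mul_one]
    _ ≤ 4 ^ (Y ^ (K + 1)) := by
        apply pow_le_pow_left₀ (Real.exp_pos _).le
        linarith [Real.exp_one_lt_d9]
    _ = 2 ^ (2 * Y ^ (K + 1)) := by rw [pow_mul]; norm_num
    _ ≤ 2 ^ S := pow_le_pow_right₀ (by norm_num) hS
    _ = _ := by push_cast; rfl

/-- the count for all exponents up to `B` -/
theorem count_all {f g : ℤ[X]} (hf : 0 < f.natDegree) (hg : g ≠ 0)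
    (hcop : IsCoprime (f.map (Int.castRingHom ℚ)) (g.map (Int.castRingHom ℚ))) {B D N S r : ℕ}
    (hD : f.natDegree ≤ D) (hD' : g.natDegree ≤ D) (hr : r.Prime) (hrB : B < r)
    (hr₀ : ∀ (l m : ℕ) (s t : ℤ), 0 < l → (s = 1 ∨ s = -1) →
      (t = 1 ∨ t = -1) → (Lft f g l m s t).map (Int.castRingHom (ZMod r)) ≠ 0) (hN : 1 ≤ N)
    (hbig : N ^ S * 2 ^ S * (2 * (S + 1)) ^ 2 < r ^ (2 * S + 1)) (A : Finset ℕ)
    (hA : ∀ n ∈ A, 1 ≤ n ∧ n ≤ N ∧ ∃ e ∈ Ind B, ∃ w : ℤ, |w| ≤ ((2 ^ S : ℕ) : ℤ) ∧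
      w ^ e.1.2.2 = (Lft f g e.1.1 e.1.2.1 e.2.1 e.2.2).eval (n : ℤ)) :
    A.card ≤ ((B + 1) ^ 3 * 4) * (B * D * (N / r + 1) + r * (B * (B * S + B * D))) := by
  classical
  set Z : ((ℕ × ℕ × ℕ) × (ℤ × ℤ)) → Finset ℕ := fun e => (Icc 1 N).filter (fun n : ℕ =>
    ∃ w : ℤ, |w| ≤ ((2 ^ S : ℕ) : ℤ) ∧ w ^ e.1.2.2 = (Lft f g e.1.1 e.1.2.1 e.2.1 e.2.2).eval (n : ℤ))
    with hZ
  have h1 : ∀ e ∈ Ind B, (Z e).card ≤ B * D * (N / r + 1) + r * (B * (B * S + B * D)) := by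
    rintro ⟨⟨l, m, k⟩, s, t⟩ he
    simp only [Ind, mem_product, mem_filter, mem_range, mem_insert, mem_singleton] at he
    obtain ⟨⟨⟨h1, h2, h3⟩, h4, h5, h6, h7⟩, hs, ht⟩ := he
    have hk : ¬ r ∣ k := fun h => by
      have := Nat.le_of_dvd h6 h
      omega
    have h8 := power_count (D := B * D) hr h6 hk (lft_not_pow hf hg hcop h4 h5 h6 h7 hs ht)
      (lft_natDegree (by omega) (by omega) hD hD') (hr₀ l m s t h4 hs ht) hN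
      (Nat.one_le_two_pow (n := S)) hbig (Z ((l, m, k), (s, t))) (by
        intro n hn
        simp only [hZ, mem_filter, mem_Icc] at hn
        exact ⟨hn.1.1, hn.1.2, hn.2⟩)
    refine h8.trans (Nat.add_le_add_left (Nat.mul_le_mul_left _ ?_) _)
    exact Nat.mul_le_mul (by omega) (Nat.add_le_add_right (Nat.mul_le_mul_right _ (by omega)) _)
  have h2 : A ⊆ (Ind B).biUnion Z := by
    intro n hn
    obtain ⟨h3, h4, e, he, h5⟩ := hA n hn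
    rw [mem_biUnion]
    refine ⟨e, he, ?_⟩
    simp only [hZ, mem_filter, mem_Icc]
    exact ⟨⟨h3, h4⟩, h5⟩
  exact (card_le_card h2).trans ((card_biUnion_le_card_mul _ _ _ h1).trans
    (Nat.mul_le_mul_right _ (ind_card B)))

/-- choice of the auxiliary prime -/
theorem aux_prime (δ : ℝ) (hδ : 0 < δ) (r₀ : ℕ) : ∃ L : ℕ, ∀ N : ℕ, L ≤ N → ∃ (x : ℝ) (r : ℕ),
    r.Prime ∧ x = (N : ℝ) ^ (1 / 2 + δ / 2) ∧ 16 ≤ x ∧ 8 * (N : ℝ) ≤ x ^ 2 ∧ x < r ∧ (r : ℝ) ≤ 4 * x ∧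
      r₀ < r ∧ (N : ℝ) ^ (1 / 2 : ℝ) ≤ x := by
  have ht1 : Tendsto (fun N : ℕ => (N : ℝ) ^ δ) atTop atTop :=
    (tendsto_rpow_atTop hδ).comp tendsto_natCast_atTop_atTop
  have ht2 : Tendsto (fun N : ℕ => (N : ℝ) ^ (1 / 2 : ℝ)) atTop atTop :=
    (tendsto_rpow_atTop (by norm_num)).comp tendsto_natCast_atTop_atTop
  obtain ⟨L₃, hL₃⟩ := eventually_atTop.mp (ht1.eventually_ge_atTop 8)
  obtain ⟨L₄, hL₄⟩ := eventually_atTop.mp (ht2.eventually_ge_atTop (16 + r₀))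
  refine ⟨L₃ + L₄ + 2, fun N hN => ?_⟩
  have hNpos : (0 : ℝ) < N := by
    have : 0 < N := by omega
    exact_mod_cast this
  have hN1 : (1 : ℝ) ≤ N := by
    have : 1 ≤ N := by omega
    exact_mod_cast this
  have h8 := hL₃ N (by omega)
  have h16 := hL₄ N (by omega)
  set x : ℝ := (N : ℝ) ^ (1 / 2 + δ / 2) with hx
  have hx2 : 8 * (N : ℝ) ≤ x ^ 2 := by
    have h1 : x ^ 2 = (N : ℝ) * (N : ℝ) ^ δ := by
      rw [hx, ← Real.rpow_natCast, ← Real.rpow_mul hNpos.le]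
      have : (1 / 2 + δ / 2) * ((2 : ℕ) : ℝ) = 1 + δ := by push_cast; ring
      rw [this, Real.rpow_add hNpos, Real.rpow_one]
    rw [h1, mul_comm 8]
    exact mul_le_mul_of_nonneg_left h8 hNpos.le
  have hxh : (N : ℝ) ^ (1 / 2 : ℝ) ≤ x := by
    rw [hx]
    exact Real.rpow_le_rpow_of_exponent_le hN1 (by linarith)
  have hr₀0 : (0 : ℝ) ≤ r₀ := Nat.cast_nonneg _
  have hx16 : 16 ≤ x := by linarith
  have hxy : x ≤ ⌈x⌉₊ := Nat.le_ceil x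
  have hyx : (⌈x⌉₊ : ℝ) < x + 1 := Nat.ceil_lt_add_one (by linarith)
  have hy0 : ⌈x⌉₊ ≠ 0 := by
    intro h
    rw [h, Nat.cast_zero] at hxy
    linarith
  obtain ⟨r, hr, hyr, hr2y⟩ := Nat.exists_prime_lt_and_le_two_mul ⌈x⌉₊ hy0
  have hxr : x < r := by
    have : (⌈x⌉₊ : ℝ) < r := by exact_mod_cast hyr
    linarith
  have hr4 : (r : ℝ) ≤ 4 * x := by
    have : (r : ℝ) ≤ 2 * ⌈x⌉₊ := by exact_mod_cast hr2y
    linarith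
  refine ⟨x, r, hr, rfl, hx16, hx2, hxr, hr4, ?_, hxh⟩
  have h3 : (r₀ : ℝ) < r := by linarith
  exact_mod_cast h3

theorem hbig_of {N S r : ℕ} {x : ℝ} (hx16 : 16 ≤ x) (hx2 : 8 * (N : ℝ) ≤ x ^ 2) (hxr : x < r)
    (hN : 1 ≤ N) : N ^ S * 2 ^ S * (2 * (S + 1)) ^ 2 < r ^ (2 * S + 1) := by
  have hNpos : (0 : ℝ) < N := by exact_mod_cast hN
  have h1 : ((N : ℝ) ^ S * 2 ^ S * (2 * (S + 1)) ^ 2) < (r : ℝ) ^ (2 * S + 1) := by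
    have e1 : ((S : ℝ) + 1) ≤ 2 ^ S := by
      have : S + 1 ≤ 2 ^ S := Nat.lt_two_pow_self
      exact_mod_cast this
    have e2 : (N : ℝ) ^ S * 2 ^ S * (2 * (S + 1)) ^ 2 ≤ 4 * (8 * (N : ℝ)) ^ S := by
      calc (N : ℝ) ^ S * 2 ^ S * (2 * (S + 1)) ^ 2 = (N : ℝ) ^ S * 2 ^ S * 4 * (S + 1) ^ 2 := by ring
        _ ≤ (N : ℝ) ^ S * 2 ^ S * 4 * (2 ^ S) ^ 2 := by gcongr
        _ = 4 * ((N : ℝ) ^ S * (2 ^ S * (2 ^ S) ^ 2)) := by ring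
        _ = 4 * (8 * (N : ℝ)) ^ S := by
          rw [mul_pow]
          have : (2 : ℝ) ^ S * (2 ^ S) ^ 2 = 8 ^ S := by
            rw [← pow_mul, ← pow_add, show S + S * 2 = 3 * S by ring, pow_mul]; norm_num
          rw [this]; ring
    have e3 : 4 * (8 * (N : ℝ)) ^ S < x ^ (2 * S + 1) := by
      rw [pow_succ, pow_mul]
      have h7 : (8 * (N : ℝ)) ^ S ≤ (x ^ 2) ^ S := pow_le_pow_left₀ (by positivity) hx2 S
      have h8 : (0 : ℝ) < (8 * (N : ℝ)) ^ S := by positivity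
      calc 4 * (8 * (N : ℝ)) ^ S < 16 * (8 * (N : ℝ)) ^ S := by linarith
        _ = (8 * (N : ℝ)) ^ S * 16 := mul_comm _ _
        _ ≤ (x ^ 2) ^ S * x := mul_le_mul h7 hx16 (by norm_num) (by positivity)
    calc _ ≤ _ := e2
      _ < x ^ (2 * S + 1) := e3
      _ ≤ _ := pow_le_pow_left₀ (by linarith) hxr.le _
  exact_mod_cast h1

/-- the polynomial bookkeeping -/
theorem final_ineq {B D S Z N r : ℕ} {x : ℝ} (hBZ : B + 1 ≤ Z) (hSZ : S + S ≤ Z) (hDS : D ≤ S)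
    (hx16 : 16 ≤ x) (hx2 : 8 * (N : ℝ) ≤ x ^ 2) (hxr : x < r) (hr4 : (r : ℝ) ≤ 4 * x) :
    (((3 * D) + ((B + 1) ^ 3 * 4) * (B * D * (N / r + 1) + r * (B * (B * S + B * D))) : ℕ) : ℝ) ≤
      x * (60 * (Z : ℝ) ^ 6) := by
  have hx0 : (0 : ℝ) < x := by linarith
  have hN0 : (0 : ℝ) ≤ N := Nat.cast_nonneg _
  have hNr : (((N / r : ℕ) : ℝ)) ≤ x := by
    have h1 : (((N / r : ℕ) : ℝ)) ≤ (N : ℝ) / r := Nat.cast_div_le
    have h2 : (N : ℝ) / r ≤ N / x := div_le_div_of_nonneg_left hN0 hx0 hxr.le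
    have h3 : (N : ℝ) / x ≤ x := by
      rw [div_le_iff₀ hx0]
      nlinarith
    linarith
  have hBZ' : (B : ℝ) + 1 ≤ Z := by exact_mod_cast hBZ
  have hSZ' : (S : ℝ) ≤ Z := by
    have : S ≤ Z := by omega
    exact_mod_cast this
  have hDZ' : (D : ℝ) ≤ Z := by
    have : D ≤ Z := by omega
    exact_mod_cast this
  have hB0 : (0 : ℝ) ≤ B := Nat.cast_nonneg _
  have hD0 : (0 : ℝ) ≤ D := Nat.cast_nonneg _
  have hS0 : (0 : ℝ) ≤ S := Nat.cast_nonneg _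
  have hBZ'' : (B : ℝ) ≤ Z := by linarith
  have hZ1 : (1 : ℝ) ≤ Z := by linarith
  have hr0 : (0 : ℝ) ≤ r := Nat.cast_nonneg _
  have h1 : ((N / r : ℕ) : ℝ) + 1 ≤ x + x := by linarith
  push_cast
  calc 3 * (D : ℝ) + (((B : ℝ) + 1) ^ 3 * 4) * (B * D * (((N / r : ℕ) : ℝ) + 1) +
        r * (B * (B * S + B * D)))
      ≤ 3 * Z + ((Z : ℝ) ^ 3 * 4) * (Z * Z * (x + x) + (4 * x) * (Z * (Z * Z + Z * Z))) := by
        gcongr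
    _ = 3 * Z + (8 * x * (Z : ℝ) ^ 5 + 32 * x * (Z : ℝ) ^ 6) := by ring
    _ ≤ x * (Z : ℝ) ^ 6 + (8 * x * (Z : ℝ) ^ 6 + 32 * x * (Z : ℝ) ^ 6) := by
        have e1 : (Z : ℝ) ≤ (Z : ℝ) ^ 6 := le_self_pow₀ hZ1 (by norm_num)
        have e2 : (Z : ℝ) ^ 5 ≤ (Z : ℝ) ^ 6 := pow_le_pow_right₀ hZ1 (by norm_num)
        have e3 : 3 * (Z : ℝ) ≤ x * (Z : ℝ) ^ 6 :=
          mul_le_mul (by linarith) e1 (by linarith) hx0.le
        have e4 : 8 * x * (Z : ℝ) ^ 5 ≤ 8 * x * (Z : ℝ) ^ 6 :=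
          mul_le_mul_of_nonneg_left e2 (by linarith)
        linarith
    _ ≤ x * (60 * (Z : ℝ) ^ 6) := by
        have e1 : 0 ≤ x * (Z : ℝ) ^ 6 := by positivity
        linarith

/-- the quantities which are a small power of `N` -/
theorem z_par (C κ S : ℕ) (hS1 : 1 ≤ S) :
    C * S ^ κ + 7 + 1 ≤ (C + 8) * S ^ (κ + 1) ∧ S + S ≤ (C + 8) * S ^ (κ + 1) := by
  have hSκ : S ^ κ ≤ S ^ (κ + 1) := Nat.pow_le_pow_right hS1 (by omega)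
  have hSκ1 : 1 ≤ S ^ κ := Nat.one_le_pow _ _ hS1
  have hSS : S ≤ S ^ (κ + 1) := Nat.le_self_pow (by omega) S
  refine ⟨?_, ?_⟩
  · calc C * S ^ κ + 7 + 1 = C * S ^ κ + 8 * 1 := by ring
      _ ≤ C * S ^ κ + 8 * S ^ κ := Nat.add_le_add_left (Nat.mul_le_mul_left _ hSκ1) _
      _ = (C + 8) * S ^ κ := by ring
      _ ≤ _ := Nat.mul_le_mul_left _ hSκ
  · calc S + S = 2 * S := by ring
      _ ≤ (C + 8) * S ^ (κ + 1) := Nat.mul_le_mul (by omega) hSS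

theorem small_par (C κ c₀ : ℕ) {δ : ℝ} (hδ : 0 < δ) (_hδ1 : δ ≤ 1) : ∃ L : ℕ, ∀ N : ℕ, L ≤ N →
    ∃ S : ℕ, 1 ≤ S ∧ c₀ * (Nat.log 2 N + 1) ≤ S ∧
      Real.exp ((N : ℝ) ^ (δ / (100 * (κ + 1)))) ≤ ((2 ^ S : ℕ) : ℝ) ∧
      60 * (((C + 8) * S ^ (κ + 1) : ℕ) : ℝ) ^ 6 ≤ (N : ℝ) ^ (δ / 2) := by
  set c : ℝ := δ / (100 * (κ + 1)) with hc
  have hκ : (0 : ℝ) < (κ : ℝ) + 1 := by positivity
  have hc0 : 0 < c := by positivity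
  have hcκ : c * (κ + 1) = δ / 100 := by rw [hc]; field_simp
  obtain ⟨L₁, hL₁⟩ := polylog_rpow c₀ 1 (2 * c) (by positivity)
  have ht1 : Tendsto (fun N : ℕ => (N : ℝ) ^ c) atTop atTop :=
    (tendsto_rpow_atTop hc0).comp tendsto_natCast_atTop_atTop
  have ht2 : Tendsto (fun N : ℕ => (N : ℝ) ^ (δ / 4)) atTop atTop :=
    (tendsto_rpow_atTop (by positivity)).comp tendsto_natCast_atTop_atTop
  obtain ⟨L₂, hL₂⟩ := eventually_atTop.mp (ht1.eventually_ge_atTop 2)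
  obtain ⟨L₃, hL₃⟩ := eventually_atTop.mp
    (ht2.eventually_ge_atTop (60 * (((C : ℝ) + 8) * 2 ^ (κ + 1)) ^ 6))
  refine ⟨L₁ + L₂ + L₃ + 2, fun N hN => ?_⟩
  have hNpos : (0 : ℝ) < N := by
    have : 0 < N := by omega
    exact_mod_cast this
  have hN1 : (1 : ℝ) ≤ N := by
    have : 1 ≤ N := by omega
    exact_mod_cast this
  have h1 := hL₁ N (by omega)
  have h2 := hL₂ N (by omega)
  have h3 := hL₃ N (by omega)
  have hle : (N : ℝ) ^ (2 * c) ≤ (⌈(N : ℝ) ^ (2 * c)⌉₊ : ℝ) := Nat.le_ceil _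
  have hge1 : 1 ≤ (N : ℝ) ^ (2 * c) := Real.one_le_rpow hN1 (by positivity)
  have hlt : (⌈(N : ℝ) ^ (2 * c)⌉₊ : ℝ) < (N : ℝ) ^ (2 * c) + 1 := Nat.ceil_lt_add_one (by linarith)
  obtain ⟨S, hS⟩ : ∃ S, S = ⌈(N : ℝ) ^ (2 * c)⌉₊ := ⟨_, rfl⟩
  rw [← hS] at hle hlt
  refine ⟨S, ?_, ?_, ?_, ?_⟩
  · have : (1 : ℝ) ≤ S := by linarith
    exact_mod_cast this
  · rw [pow_one] at h1
    have : ((c₀ * (Nat.log 2 N + 1) : ℕ) : ℝ) ≤ S := by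
      push_cast at h1 ⊢
      linarith
    exact_mod_cast this
  · have e1 : (N : ℝ) ^ (2 * c) = (N : ℝ) ^ c * (N : ℝ) ^ c := by
      rw [← Real.rpow_add hNpos]; congr 1; ring
    have e2 : 2 * (N : ℝ) ^ c ≤ S := by
      have : 2 * (N : ℝ) ^ c ≤ (N : ℝ) ^ c * (N : ℝ) ^ c :=
        mul_le_mul_of_nonneg_right h2 (by linarith)
      linarith
    have e3 : (N : ℝ) ^ c ≤ S * Real.log 2 := by
      have := Real.log_two_gt_d9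
      have hS0 : (0 : ℝ) ≤ S := Nat.cast_nonneg _
      have : (S : ℝ) * (1 / 2) ≤ S * Real.log 2 := mul_le_mul_of_nonneg_left (by linarith) hS0
      linarith
    calc Real.exp ((N : ℝ) ^ c) ≤ Real.exp (S * Real.log 2) := Real.exp_le_exp.mpr e3
      _ = (2 : ℝ) ^ S := by
        rw [mul_comm, Real.exp_mul, Real.exp_log (by norm_num), Real.rpow_natCast]
      _ = _ := by push_cast; rfl
  · have e1 : (S : ℝ) ≤ 2 * (N : ℝ) ^ (2 * c) := by linarith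
    have e2 : (S : ℝ) ^ (κ + 1) ≤ 2 ^ (κ + 1) * (N : ℝ) ^ (δ / 50) := by
      calc (S : ℝ) ^ (κ + 1) ≤ (2 * (N : ℝ) ^ (2 * c)) ^ (κ + 1) :=
            pow_le_pow_left₀ (Nat.cast_nonneg _) e1 _
        _ = 2 ^ (κ + 1) * (N : ℝ) ^ (δ / 50) := by
          rw [mul_pow, ← Real.rpow_natCast ((N : ℝ) ^ (2 * c)), ← Real.rpow_mul hNpos.le]
          congr 2
          push_cast
          linear_combination 2 * hcκ
    have e3 : (((C + 8) * S ^ (κ + 1) : ℕ) : ℝ) ^ 6 ≤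
        (((C : ℝ) + 8) * 2 ^ (κ + 1)) ^ 6 * (N : ℝ) ^ (δ / 4) := by
      push_cast
      calc (((C : ℝ) + 8) * (S : ℝ) ^ (κ + 1)) ^ 6
          ≤ (((C : ℝ) + 8) * (2 ^ (κ + 1) * (N : ℝ) ^ (δ / 50))) ^ 6 := by
            apply pow_le_pow_left₀ (by positivity)
            exact mul_le_mul_of_nonneg_left e2 (by positivity)
        _ = (((C : ℝ) + 8) * 2 ^ (κ + 1)) ^ 6 * ((N : ℝ) ^ (δ / 50)) ^ 6 := by ring
        _ ≤ (((C : ℝ) + 8) * 2 ^ (κ + 1)) ^ 6 * (N : ℝ) ^ (δ / 4) := by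
            apply mul_le_mul_of_nonneg_left _ (by positivity)
            rw [← Real.rpow_natCast, ← Real.rpow_mul hNpos.le]
            apply Real.rpow_le_rpow_of_exponent_le hN1
            push_cast
            linarith
    have e4 : (N : ℝ) ^ (δ / 2) = (N : ℝ) ^ (δ / 4) * (N : ℝ) ^ (δ / 4) := by
      rw [← Real.rpow_add hNpos]; congr 1; ring
    rw [e4]
    calc 60 * (((C + 8) * S ^ (κ + 1) : ℕ) : ℝ) ^ 6
        ≤ 60 * ((((C : ℝ) + 8) * 2 ^ (κ + 1)) ^ 6 * (N : ℝ) ^ (δ / 4)) :=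
          mul_le_mul_of_nonneg_left e3 (by norm_num)
      _ = (60 * (((C : ℝ) + 8) * 2 ^ (κ + 1)) ^ 6) * (N : ℝ) ^ (δ / 4) := by ring
      _ ≤ _ := mul_le_mul_of_nonneg_right h3 (by positivity)

/-- an exceptional integer in a good class solves one of finitely many equations `w ^ k = F n` -/
theorem mem_eq {C κ : ℕ} (hC : ∀ (a b c : ℤ) (S₀ l m k : ℕ) (s t : ℤ), 1 ≤ S₀ → 0 < l → 0 < m → 0 < k →
    m * k + k * l + l * m ≤ l * m * k → (s = 1 ∨ s = -1) → (t = 1 ∨ t = -1) → c ≠ 0 →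
    IsCoprime a b → a ^ l + s * b ^ m = t * c ^ k →
    a.natAbs ≤ 2 ^ S₀ → b.natAbs ≤ 2 ^ S₀ → c.natAbs ≤ 2 ^ S₀ → 2 ≤ a.natAbs → 2 ≤ b.natAbs →
    (∃ p : ℕ, p.Prime ∧ p ≠ 2 ∧ p ≤ S₀ ∧ (p : ℤ) ∣ a) →
    (∃ p : ℕ, p.Prime ∧ p ≠ 2 ∧ p ≤ S₀ ∧ (p : ℤ) ∣ b) →
    l ≤ C * S₀ ^ κ ∧ m ≤ C * S₀ ^ κ ∧ ∃ k' : ℕ, 0 < k' ∧ k' ≤ C * S₀ ^ κ + 7 ∧
      m * k' + k' * l + l * m ≤ l * m * k' ∧ c ^ k' = c ^ k)
    {f g : ℤ[X]} {n S : ℕ} {W : ℝ} (hS1 : 1 ≤ S) (hW : W ≤ ((2 ^ S : ℕ) : ℝ))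
    (hn : n ∈ ExcFree f g W) (hf1 : (f.eval (n : ℤ)).natAbs ≤ 2 ^ S)
    (hg1 : (g.eval (n : ℤ)).natAbs ≤ 2 ^ S) (hf2 : 2 ≤ (f.eval (n : ℤ)).natAbs)
    (hg2 : 2 ≤ (g.eval (n : ℤ)).natAbs)
    (hpf : ∃ p : ℕ, p.Prime ∧ p ≠ 2 ∧ p ≤ S ∧ (p : ℤ) ∣ f.eval (n : ℤ))
    (hpg : ∃ p : ℕ, p.Prime ∧ p ≠ 2 ∧ p ≤ S ∧ (p : ℤ) ∣ g.eval (n : ℤ)) :
    ∃ e ∈ Ind (C * S ^ κ + 7), ∃ w : ℤ, |w| ≤ ((2 ^ S : ℕ) : ℤ) ∧
      w ^ e.1.2.2 = (Lft f g e.1.1 e.1.2.1 e.2.1 e.2.2).eval (n : ℤ) := by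
  obtain ⟨l, m, k, s, t, w, hl, hm, hk, hineq, hs, ht, hf0, hgn0, hw0, hwW, hco, heq⟩ := hn
  have hwS : w.natAbs ≤ 2 ^ S := by
    have h5 : ((w.natAbs : ℕ) : ℝ) ≤ ((2 ^ S : ℕ) : ℝ) := by
      have h6 : ((w.natAbs : ℕ) : ℝ) = |(w : ℝ)| := by
        rw [Nat.cast_natAbs, Int.cast_abs]
      rw [h6]; exact hwW.trans hW
    exact_mod_cast h5
  obtain ⟨hlB, hmB, k', hk'0, hk'B, hk'i, hk'e⟩ := hC _ _ w S l m k s t hS1 hl hm hk hineq hs ht hw0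
    hco heq hf1 hg1 hwS hf2 hg2 hpf hpg
  refine ⟨((l, m, k'), (s, t)), ?_, w, ?_, ?_⟩
  · simp only [Ind, mem_product, mem_filter, mem_range, mem_insert, mem_singleton]
    exact ⟨⟨⟨by omega, by omega, by omega⟩, hl, hm, hk'0, hk'i⟩, hs, ht⟩
  · rw [Int.abs_eq_natAbs]; exact_mod_cast hwS
  · simp only [Lft, eval_mul, eval_add, eval_C, eval_pow]
    rw [hk'e, heq]
    have ht2 : t * t = 1 := by rcases ht with rfl | rfl <;> norm_num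
    linear_combination (-(w ^ k)) * ht2

theorem free_main : ∃ c : ℝ → ℝ, (∀ δ : ℝ, 0 < δ → 0 < c δ) ∧ ∀ f g : ℤ[X], 0 < f.natDegree →
    0 < g.natDegree → IsCoprime (f.map (Int.castRingHom ℚ)) (g.map (Int.castRingHom ℚ)) →
    ∀ ε : ℝ, 0 < ε → ∃ (M : ℕ) (G : Finset ℕ), 0 < M ∧ G ⊆ range M ∧ (1 - ε) * M ≤ (G.card : ℝ) ∧
      ∀ δ : ℝ, 0 < δ → ∃ N₀ : ℕ, ∀ N : ℕ, N₀ ≤ N →
        (({n : ℕ | 1 ≤ n ∧ n ≤ N ∧ n % M ∈ G ∧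
          n ∈ ExcFree f g (Real.exp ((N : ℝ) ^ c δ))}.ncard : ℝ)) ≤ (N : ℝ) ^ (1 / 2 + δ) := by
  classical
  obtain ⟨C, κ, hC⟩ := exps
  refine ⟨fun δ => min δ 1 / (100 * (κ + 1)), fun δ hδ => by positivity, ?_⟩
  intro f g hf hg hcop ε hε
  obtain ⟨M, P, G, hM, hG, hGc, hgood⟩ := good_classes f g hf hg ε hε
  obtain ⟨r₀, hr₀⟩ := lft_mod hf hcop
  refine ⟨M, G, hM, hG, hGc, fun δ' hδ' => ?_⟩
  obtain ⟨δ, hδdef⟩ : ∃ δ, δ = min δ' 1 := ⟨_, rfl⟩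
  have hδ : 0 < δ := by rw [hδdef]; positivity
  have hδ1 : δ ≤ 1 := by rw [hδdef]; exact min_le_right _ _
  have hδδ : δ ≤ δ' := by rw [hδdef]; exact min_le_left _ _
  simp only [← hδdef]
  have hg0 : g ≠ 0 := by rintro rfl; simp at hg
  obtain ⟨D, hD⟩ : ∃ D, D = f.natDegree + g.natDegree := ⟨_, rfl⟩
  obtain ⟨c₀, hc₀⟩ : ∃ c₀, c₀ = P + ht f + ht g + D + 3 := ⟨_, rfl⟩
  obtain ⟨L₁, hL₁⟩ := small_par C κ c₀ hδ hδ1
  obtain ⟨L₃, hL₃⟩ := aux_prime δ hδ r₀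
  refine ⟨L₁ + L₃ + 2, fun N hN => ?_⟩
  obtain ⟨x, r, hr, hx, hx16, hx2, hxr, hr4, hr₀r, hxh⟩ := hL₃ N (by omega)
  obtain ⟨S, hS1, hSY, hW, hp1⟩ := hL₁ N (by omega)
  have hN1 : 1 ≤ N := by omega
  have hN1R : (1 : ℝ) ≤ N := by exact_mod_cast hN1
  obtain ⟨Y, hY⟩ : ∃ Y, Y = Nat.log 2 N + 1 := ⟨_, rfl⟩
  rw [← hY] at hSY
  have hY1 : 1 ≤ Y := by omega
  have hNY : N ≤ 2 ^ Y := by rw [hY]; exact (Nat.lt_pow_succ_log_self (by norm_num) N).le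
  have hc₀S : c₀ ≤ S := (Nat.le_mul_of_pos_right _ hY1).trans hSY
  obtain ⟨hz1, hz2⟩ := z_par C κ S hS1
  obtain ⟨Z, hZ⟩ : ∃ Z, Z = (C + 8) * S ^ (κ + 1) := ⟨_, rfl⟩
  rw [← hZ] at hz1 hz2 hp1
  obtain ⟨B, hB⟩ : ∃ B, B = C * S ^ κ + 7 := ⟨_, rfl⟩
  rw [← hB] at hz1
  have hZ1 : (1 : ℝ) ≤ Z := by
    have : 1 ≤ Z := by omega
    exact_mod_cast this
  have hp2 : 60 * (Z : ℝ) ^ 6 ≤ (N : ℝ) ^ (1 / 2 : ℝ) :=
    hp1.trans (Real.rpow_le_rpow_of_exponent_le hN1R (by linarith))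
  have hBr : B < r := by
    have h1 : (B : ℝ) + 1 ≤ Z := by exact_mod_cast hz1
    have h2 : (Z : ℝ) ≤ 60 * (Z : ℝ) ^ 6 := by
      have : (Z : ℝ) ≤ (Z : ℝ) ^ 6 := le_self_pow₀ hZ1 (by norm_num)
      linarith
    have h3 : (B : ℝ) < r := by linarith
    exact_mod_cast h3
  have hbig := hbig_of (S := S) hx16 hx2 hxr hN1
  have hval : ∀ (F : ℤ[X]), F.natDegree ≤ D → ht F ≤ ht f + ht g → ∀ n : ℕ,
      1 ≤ n → n ≤ N → (F.eval (n : ℤ)).natAbs ≤ 2 ^ S := by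
    intro F hFD hFh n h1 h2
    refine (eval_bound F hFD h1 (h2.trans hNY)).trans (Nat.pow_le_pow_right (by norm_num) ?_)
    calc ht F + D * Y ≤ (ht f + ht g) * Y + D * Y :=
          Nat.add_le_add_right (hFh.trans (Nat.le_mul_of_pos_right _ hY1)) _
      _ = (ht f + ht g + D) * Y := by ring
      _ ≤ c₀ * Y := Nat.mul_le_mul_right _ (by omega)
      _ ≤ S := hSY
  obtain ⟨A, hA⟩ : ∃ A : Finset ℕ, A = (Icc 1 N).filter (fun n : ℕ => ∃ e ∈ Ind B, ∃ w : ℤ,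
      |w| ≤ ((2 ^ S : ℕ) : ℤ) ∧
        w ^ e.1.2.2 = (Lft f g e.1.1 e.1.2.1 e.2.1 e.2.2).eval (n : ℤ)) := ⟨_, rfl⟩
  have hAc := count_all (D := D) hf hg0 hcop (by omega) (by omega) hr hBr
    (fun l m s t => hr₀ r hr hr₀r l m s t) hN1 hbig A (by
      intro n hn
      rw [hA, mem_filter, mem_Icc] at hn
      exact ⟨hn.1.1, hn.1.2, hn.2⟩)
  obtain ⟨hsf, hsf'⟩ := small_values f hf
  obtain ⟨hsg, hsg'⟩ := small_values g hg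
  have hsub : {n : ℕ | 1 ≤ n ∧ n ≤ N ∧ n % M ∈ G ∧
      n ∈ ExcFree f g (Real.exp ((N : ℝ) ^ (δ / (100 * (κ + 1)))))} ⊆
      ({n : ℕ | (f.eval (n : ℤ)).natAbs ≤ 1} ∪ {n : ℕ | (g.eval (n : ℤ)).natAbs ≤ 1}) ∪
          (A : Set ℕ) := by
    rintro n ⟨hn1, hnN, hnG, hn⟩
    by_cases h3 : (f.eval (n : ℤ)).natAbs ≤ 1
    · exact Or.inl (Or.inl h3)
    by_cases h4 : (g.eval (n : ℤ)).natAbs ≤ 1
    · exact Or.inl (Or.inr h4)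
    refine Or.inr ?_
    obtain ⟨⟨p', hp', hp'2, hp'P, hpf⟩, ⟨p, hp, hp2, hpP, hpg⟩⟩ := hgood n hnG
    rw [mem_coe, hA, mem_filter, mem_Icc, hB]
    exact ⟨⟨hn1, hnN⟩, mem_eq hC hS1 hW hn (hval f (by omega) (by omega) n hn1 hnN)
      (hval g (by omega) (by omega) n hn1 hnN) (by omega) (by omega)
      ⟨p', hp', hp'2, by omega, hpf⟩ ⟨p, hp, hp2, by omega, hpg⟩⟩
  have hcard : {n : ℕ | 1 ≤ n ∧ n ≤ N ∧ n % M ∈ G ∧
      n ∈ ExcFree f g (Real.exp ((N : ℝ) ^ (δ / (100 * (κ + 1)))))}.ncard ≤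
      3 * D + ((B + 1) ^ 3 * 4) * (B * D * (N / r + 1) + r * (B * (B * S + B * D))) := by
    refine (Set.ncard_le_ncard hsub ((hsf.union hsg).union (Finset.finite_toSet _))).trans ?_
    refine (Set.ncard_union_le _ _).trans (Nat.add_le_add ?_ (by rw [Set.ncard_coe_finset]; exact hAc))
    refine (Set.ncard_union_le _ _).trans ((Nat.add_le_add hsf' hsg').trans ?_)
    rw [hD]; omega
  have hfin := final_ineq (B := B) (D := D) (S := S) (Z := Z) (N := N) hz1 hz2 (by omega) hx16 hx2 hxr hr4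
  have hNpos : (0 : ℝ) < N := by exact_mod_cast hN1
  calc (({n : ℕ | 1 ≤ n ∧ n ≤ N ∧ n % M ∈ G ∧
          n ∈ ExcFree f g (Real.exp ((N : ℝ) ^ (δ / (100 * (κ + 1)))))}.ncard : ℝ))
      ≤ ((3 * D + ((B + 1) ^ 3 * 4) * (B * D * (N / r + 1) +
        r * (B * (B * S + B * D))) : ℕ) : ℝ) := by exact_mod_cast hcard
    _ ≤ x * (60 * (Z : ℝ) ^ 6) := hfin
    _ ≤ x * (N : ℝ) ^ (δ / 2) := mul_le_mul_of_nonneg_left hp1 (by linarith)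
    _ = (N : ℝ) ^ (1 / 2 + δ) := by
        rw [hx, ← Real.rpow_add hNpos]
        congr 1
        ring
    _ ≤ (N : ℝ) ^ (1 / 2 + δ') := Real.rpow_le_rpow_of_exponent_le hN1R (by linarith)

end Pool.Agent.TH888.B1
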