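import Mathlib
import Pool.Agent.H374R2.W.QM
import Pool.Agent.H374R2.W.QL
import Pool.Agent.TH888.B1.Bak

/-!
Differences of powers with free exponents: archimedean linear forms in two logarithms, and the
exponents of `a ^ l ± b ^ m = ± c ^ k` when only `a` has a small odd prime factor.
-/

set_option autoImplicit false

namespace Pool.Agent.TH888.B1

open Filter Topology

theorem log_sub_ge {P Q : ℕ} (hP : 1 ≤ P) (hPQ : P < Q) :
    1 / (2 * (P : ℝ)) ≤ |Real.log Q - Real.log P| := by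
  have hP0 : (0 : ℝ) < P := by exact_mod_cast hP
  have h1 : (P : ℝ) + 1 ≤ Q := by exact_mod_cast hPQ
  have h2 : Real.log (P + 1) ≤ Real.log Q := Real.log_le_log (by positivity) h1
  have h3 : 1 - ((P + 1 : ℝ) / P)⁻¹ ≤ Real.log ((P + 1) / P) :=
    Real.one_sub_inv_le_log_of_pos (by positivity)
  rw [Real.log_div (by positivity) (by positivity)] at h3
  have h4 : 1 - ((P + 1 : ℝ) / P)⁻¹ = 1 / (P + 1) := by field_simp; ring
  rw [h4] at h3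
  have h5 : 1 / (2 * (P : ℝ)) ≤ 1 / (P + 1) := by
    apply one_div_le_one_div_of_le (by positivity)
    have : (1 : ℝ) ≤ P := by exact_mod_cast hP
    linarith
  have h6 := le_abs_self (Real.log Q - Real.log P)
  linarith

theorem log_sub_ge' {P Q E : ℕ} (hP : 1 ≤ P) (hQ : 1 ≤ Q) (hne : P ≠ Q)
    (hE : P ≤ 2 ^ E ∨ Q ≤ 2 ^ E) :
    Real.exp (-((E : ℝ) + 1)) ≤ |Real.log P - Real.log Q| := by
  have key : ∀ {R R' : ℕ}, 1 ≤ R → R < R' → (R ≤ 2 ^ E) →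
      Real.exp (-((E : ℝ) + 1)) ≤ |Real.log R' - Real.log R| := by
    intro R R' hR hRR hRE
    refine le_trans ?_ (log_sub_ge hR hRR)
    have hR0 : (0 : ℝ) < R := by exact_mod_cast hR
    rw [Real.exp_neg, ← one_div]
    apply one_div_le_one_div_of_le (by positivity)
    have h1 : (R : ℝ) ≤ 2 ^ E := by exact_mod_cast hRE
    have h2 : (2 : ℝ) * 2 ^ E ≤ Real.exp 1 * Real.exp 1 ^ E := by
      have h3 := Real.exp_one_gt_d9
      apply mul_le_mul (by linarith) (pow_le_pow_left₀ (by norm_num) (by linarith) _) (by positivity)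
        (by positivity)
    calc 2 * (R : ℝ) ≤ 2 * 2 ^ E := by linarith
      _ ≤ Real.exp 1 * Real.exp 1 ^ E := h2
      _ = Real.exp ((E : ℝ) + 1) := by
        rw [← Real.exp_nat_mul, mul_one, ← Real.exp_add, add_comm]
  rcases lt_or_gt_of_ne hne with h | h
  · rw [abs_sub_comm]
    apply key hP h
    rcases hE with h1 | h1
    · exact h1
    · omega
  · apply key hQ h
    rcases hE with h1 | h1
    · omega
    · exact h1

/-- lower bound for a linear form in two logarithms of integers -/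
theorem arch_log {S A U m k : ℕ} (hS : 1 ≤ S) (hA : 2 ≤ A) (hU : 2 ≤ U) (hAS : A ≤ 2 ^ S)
    (hUS : U ≤ 2 ^ S) (hm : 1 ≤ m) (hk : 1 ≤ k) (hkS : k ≤ 2 ^ S) (hne : U ^ k ≠ A ^ m) :
    Real.exp (-(10 ^ 9 * (S : ℝ) ^ 4)) ≤ |k * Real.log U - m * Real.log A| := by
  obtain ⟨g, hg⟩ : ∃ g, g = Nat.gcd k m := ⟨_, rfl⟩
  have hg0 : 0 < g := by rw [hg]; exact Nat.gcd_pos_of_pos_left _ hk
  obtain ⟨b, hb⟩ : g ∣ k := by rw [hg]; exact Nat.gcd_dvd_left _ _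
  obtain ⟨a, ha⟩ : g ∣ m := by rw [hg]; exact Nat.gcd_dvd_right _ _
  have hcop : Nat.Coprime a b := by
    have h1 : Nat.gcd (g * b) (g * a) = g := by rw [← hb, ← ha, ← hg]
    rw [Nat.gcd_mul_left] at h1
    have h2 : Nat.gcd b a = 1 := Nat.eq_of_mul_eq_mul_left hg0 (by rw [h1, mul_one])
    exact Nat.Coprime.symm h2
  have hb1 : 1 ≤ b := Nat.pos_of_ne_zero (by rintro rfl; simp at hb; omega)
  have ha1 : 1 ≤ a := Nat.pos_of_ne_zero (by rintro rfl; simp at ha; omega)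
  have hne' : U ^ b ≠ A ^ a := by
    intro h
    apply hne
    rw [hb, ha, mul_comm g b, mul_comm g a, pow_mul, pow_mul, h]
  have hred : |b * Real.log U - a * Real.log A| ≤ |k * Real.log U - m * Real.log A| := by
    have h1 : (k : ℝ) * Real.log U - m * Real.log A = g * (b * Real.log U - a * Real.log A) := by
      rw [hb, ha]; push_cast; ring
    rw [h1, abs_mul, Nat.abs_cast]
    have h2 : (1 : ℝ) ≤ g := by exact_mod_cast hg0
    exact le_mul_of_one_le_left (abs_nonneg _) h2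
  refine le_trans ?_ hred
  have hSR : (1 : ℝ) ≤ S := by exact_mod_cast hS
  have hbS : b ≤ 2 ^ S := (Nat.le_mul_of_pos_left b hg0).trans (hb ▸ hkS)
  -- logarithms
  obtain ⟨hY1, hY2, hY3, hY4⟩ := Pool.Agent.H374R2.W.QM.ceil_facts hA
  obtain ⟨hZ1, hZ2, hZ3, hZ4⟩ := Pool.Agent.H374R2.W.QM.ceil_facts hU
  obtain ⟨Y, hY⟩ : ∃ Y, Y = ⌈Real.log A⌉₊ := ⟨_, rfl⟩
  obtain ⟨Z, hZ⟩ : ∃ Z, Z = ⌈Real.log U⌉₊ := ⟨_, rfl⟩
  rw [← hY] at hY1 hY2 hY3 hY4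
  rw [← hZ] at hZ1 hZ2 hZ3 hZ4
  have hlog2 : ∀ {x : ℕ}, x ≤ 2 ^ S → Nat.log 2 x ≤ S := by
    intro x hx
    calc Nat.log 2 x ≤ Nat.log 2 (2 ^ S) := Nat.log_mono_right hx
      _ = S := Nat.log_pow (by norm_num) S
  have hYS : Y ≤ 2 * S := by have := hlog2 hAS; omega
  have hZS : Z ≤ 2 * S := by have := hlog2 hUS; omega
  obtain ⟨L, hL⟩ : ∃ L, L = ⌈8 * (3 + Real.log b)⌉₊ := ⟨_, rfl⟩
  have hlogb0 : 0 ≤ Real.log b := Real.log_nonneg (by exact_mod_cast hb1)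
  have hL1 : 8 * (3 + Real.log b) ≤ (L : ℝ) := by rw [hL]; exact Nat.le_ceil _
  have hL2 : (L : ℝ) < 8 * (3 + Real.log b) + 1 := by
    rw [hL]; exact Nat.ceil_lt_add_one (by positivity)
  have hlogb : Real.log b ≤ S := by
    have h1 : Real.log b ≤ Real.log ((2 : ℝ) ^ S) :=
      Real.log_le_log (by exact_mod_cast hb1) (by exact_mod_cast hbS)
    rw [Real.log_pow] at h1
    have h4 := Real.log_two_lt_d9
    have h5 : (S : ℝ) * Real.log 2 ≤ S * 1 := mul_le_mul_of_nonneg_left (by linarith) (by linarith)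
    linarith
  have hLS : (L : ℝ) ≤ 33 * S := by linarith
  have hL3 : 1 ≤ L := by
    have : (1 : ℝ) ≤ L := by linarith
    exact_mod_cast this
  have hLSn : L ≤ 33 * S := by exact_mod_cast hLS
  by_cases hcase : 2 ≤ b ∧ 145 * Z * L ≤ a
  · have h1 := Pool.Agent.H374R2.W.QL.lfl hA hU ha1 hcase.1 hcop hY1 hZ1 hL3 hY2 hZ2 hY3 hZ3
      hcase.2 hL1
    refine le_trans (Real.exp_le_exp.mpr ?_) h1.le
    rw [neg_le_neg_iff]
    have e1 : (Y : ℝ) ≤ 2 * S := by exact_mod_cast hYS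
    have e2 : (Z : ℝ) ≤ 2 * S := by exact_mod_cast hZS
    have e3 : (L : ℝ) ^ 2 ≤ (33 * (S : ℝ)) ^ 2 := pow_le_pow_left₀ (Nat.cast_nonneg _) hLS 2
    calc 20880 * (Y : ℝ) * Z * (L : ℝ) ^ 2 ≤ 20880 * (2 * S) * (2 * S) * (33 * (S : ℝ)) ^ 2 := by
          gcongr
      _ = 90953280 * (S : ℝ) ^ 4 := by ring
      _ ≤ 10 ^ 9 * (S : ℝ) ^ 4 := by
          have : 0 ≤ (S : ℝ) ^ 4 := by positivity
          nlinarith
  · have h1 : Real.log ((U ^ b : ℕ) : ℝ) - Real.log ((A ^ a : ℕ) : ℝ) =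
        b * Real.log U - a * Real.log A := by
      push_cast
      rw [Real.log_pow, Real.log_pow]
    rw [← h1]
    have hE : U ^ b ≤ 2 ^ (9570 * S ^ 3) ∨ A ^ a ≤ 2 ^ (9570 * S ^ 3) := by
      have hS3 : S ≤ S ^ 3 := Nat.le_self_pow (by norm_num) S
      rcases Nat.lt_or_ge b 2 with h2 | h2
      · left
        have : b = 1 := by omega
        rw [this, pow_one]
        exact hUS.trans (Nat.pow_le_pow_right (by norm_num) (by omega))
      · right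
        have h3 : a < 145 * Z * L := by
          by_contra h; exact hcase ⟨h2, by omega⟩
        have h4 : a ≤ 9570 * S ^ 2 := by
          have h5 : 145 * Z * L ≤ 145 * (2 * S) * (33 * S) :=
            Nat.mul_le_mul (Nat.mul_le_mul_left _ hZS) hLSn
          have h6 : 145 * (2 * S) * (33 * S) = 9570 * S ^ 2 := by ring
          omega
        calc A ^ a ≤ (2 ^ S) ^ a := Nat.pow_le_pow_left hAS a
          _ = 2 ^ (S * a) := by rw [← pow_mul]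
          _ ≤ 2 ^ (S * (9570 * S ^ 2)) := Nat.pow_le_pow_right (by norm_num) (Nat.mul_le_mul_left _ h4)
          _ = 2 ^ (9570 * S ^ 3) := by congr 1; ring
    refine le_trans (Real.exp_le_exp.mpr ?_)
      (log_sub_ge' (Nat.one_le_pow _ _ (by omega)) (Nat.one_le_pow _ _ (by omega)) hne' hE)
    rw [neg_le_neg_iff]
    push_cast
    have e1 : (S : ℝ) ^ 3 ≤ (S : ℝ) ^ 4 := pow_le_pow_right₀ hSR (by norm_num)
    have e2 : (1 : ℝ) ≤ (S : ℝ) ^ 4 := one_le_pow₀ hSR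
    linarith

/-- two close powers have small exponents -/
theorem arch_diff {S T A U m k : ℕ} (hS : 1 ≤ S) (hA : 2 ≤ A) (hU : 2 ≤ U) (hAS : A ≤ 2 ^ S)
    (hUS : U ≤ 2 ^ S) (hm : 1 ≤ m) (hk : 1 ≤ k) (hkS : k ≤ 2 ^ S) (hne : U ^ k ≠ A ^ m)
    (h : |((U : ℤ) ^ k) - (A : ℤ) ^ m| ≤ 2 ^ T) :
    m ≤ 2 * 10 ^ 9 * S ^ 4 + 2 * T + 4 ∧ k ≤ 2 * 10 ^ 9 * S ^ 4 + 2 * T + 5 := by
  have hR : |((U : ℝ) ^ k) - (A : ℝ) ^ m| ≤ 2 ^ T := by exact_mod_cast h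
  have hA0 : (0 : ℝ) < (A : ℝ) ^ m := by positivity
  have hU0 : (0 : ℝ) < (U : ℝ) ^ k := by positivity
  have hAm : A ^ m ≤ 2 ^ (2 * 10 ^ 9 * S ^ 4 + 2 * T + 4) := by
    by_contra hcon
    push Not at hcon
    have hconR : (2 : ℝ) ^ (2 * 10 ^ 9 * S ^ 4 + 2 * T + 4) < (A : ℝ) ^ m := by exact_mod_cast hcon
    have h1 : |(U : ℝ) ^ k / (A : ℝ) ^ m - 1| ≤ 2 ^ T / (A : ℝ) ^ m := by
      rw [div_sub_one hA0.ne', abs_div, abs_of_pos hA0]
      exact div_le_div_of_nonneg_right hR hA0.le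
    have h2 : (2 : ℝ) ^ T / (A : ℝ) ^ m ≤ 1 / 4 := by
      rw [div_le_iff₀ hA0]
      have h3 : (2 : ℝ) ^ T * 4 ≤ (2 : ℝ) ^ (2 * 10 ^ 9 * S ^ 4 + 2 * T + 4) := by
        calc (2 : ℝ) ^ T * 4 = 2 ^ (T + 2) := by rw [pow_add]; norm_num
          _ ≤ _ := pow_le_pow_right₀ (by norm_num) (by omega)
      linarith
    have h4 := Pool.Agent.H374R2.W.QM.abs_log_le (h1.trans h2)
    rw [Real.log_div hU0.ne' hA0.ne', Real.log_pow, Real.log_pow] at h4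
    have h5 := arch_log hS hA hU hAS hUS hm hk hkS hne
    have h6 : Real.exp (-(10 ^ 9 * (S : ℝ) ^ 4)) ≤ 2 * (2 ^ T / (A : ℝ) ^ m) :=
      h5.trans (h4.trans (mul_le_mul_of_nonneg_left h1 (by norm_num)))
    have h7 : (A : ℝ) ^ m ≤ 2 * 2 ^ T * Real.exp (10 ^ 9 * (S : ℝ) ^ 4) := by
      rw [Real.exp_neg, ← mul_div_assoc, inv_eq_one_div, div_le_div_iff₀ (Real.exp_pos _) hA0, one_mul] at h6
      exact h6
    have h8 : Real.exp (10 ^ 9 * (S : ℝ) ^ 4) ≤ 2 ^ (2 * 10 ^ 9 * S ^ 4) := by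
      have e1 : Real.exp (10 ^ 9 * (S : ℝ) ^ 4) = Real.exp 1 ^ (10 ^ 9 * S ^ 4) := by
        rw [← Real.exp_nat_mul]; push_cast; ring_nf
      rw [e1, mul_assoc 2, pow_mul 2 2]
      apply pow_le_pow_left₀ (Real.exp_pos _).le
      linarith [Real.exp_one_lt_d9]
    have h9 : (A : ℝ) ^ m ≤ 2 ^ (2 * 10 ^ 9 * S ^ 4 + T + 1) := by
      calc (A : ℝ) ^ m ≤ 2 * 2 ^ T * Real.exp (10 ^ 9 * (S : ℝ) ^ 4) := h7
        _ ≤ 2 * 2 ^ T * 2 ^ (2 * 10 ^ 9 * S ^ 4) := mul_le_mul_of_nonneg_left h8 (by positivity)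
        _ = 2 ^ (2 * 10 ^ 9 * S ^ 4 + T + 1) := by ring
    have h10 : (2 : ℝ) ^ (2 * 10 ^ 9 * S ^ 4 + T + 1) ≤ 2 ^ (2 * 10 ^ 9 * S ^ 4 + 2 * T + 4) :=
      pow_le_pow_right₀ (by norm_num) (by omega)
    linarith
  have hpow : ∀ {x i E : ℕ}, 2 ≤ x → x ^ i ≤ 2 ^ E → i ≤ E := by
    intro x i E hx hxi
    have : 2 ^ i ≤ 2 ^ E := (Nat.pow_le_pow_left hx i).trans hxi
    exact (Nat.pow_le_pow_iff_right (by norm_num)).mp this
  refine ⟨hpow hA hAm, hpow hU ?_⟩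
  have h1 : (U : ℤ) ^ k ≤ (A : ℤ) ^ m + 2 ^ T := by
    have := (abs_le.mp h).2
    linarith
  have h2 : U ^ k ≤ A ^ m + 2 ^ T := by exact_mod_cast h1
  calc U ^ k ≤ A ^ m + 2 ^ T := h2
    _ ≤ 2 ^ (2 * 10 ^ 9 * S ^ 4 + 2 * T + 4) + 2 ^ (2 * 10 ^ 9 * S ^ 4 + 2 * T + 4) :=
        Nat.add_le_add hAm (Nat.pow_le_pow_right (by norm_num) (by omega))
    _ = 2 ^ (2 * 10 ^ 9 * S ^ 4 + 2 * T + 5) := by rw [pow_succ _ (2 * 10 ^ 9 * S ^ 4 + 2 * T + 4)]; ring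

/-- The exponents of `a ^ l + s b ^ m = t c ^ k` (`a, b, c` positive) when `a` has a small odd prime
factor. The exponents of a base `1` are not bounded. -/
theorem exp_bound_one : ∃ C κ : ℕ, ∀ S₀ : ℕ, 1 ≤ S₀ → ∀ p : ℕ, p.Prime → p ≠ 2 →
    p ≤ S₀ → ∀ a b c l m k : ℕ, 1 ≤ b → 1 ≤ c → a ≤ 2 ^ S₀ → b ≤ 2 ^ S₀ →
      c ≤ 2 ^ S₀ → Nat.Coprime b c → p ∣ a → ¬ p ∣ b → ¬ p ∣ c →
      0 < l → 0 < m → 0 < k → ∀ s t : ℤ, (s = 1 ∨ s = -1) → (t = 1 ∨ t = -1) →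
        (a : ℤ) ^ l + s * (b : ℤ) ^ m = t * (c : ℤ) ^ k → a ≠ 0 →
        l ≤ C * S₀ ^ κ ∧ (2 ≤ b → m ≤ C * S₀ ^ κ) ∧ (2 ≤ c → k ≤ C * S₀ ^ κ) := by
  obtain ⟨C, κ, hC⟩ := baker_two
  obtain ⟨L₀, hL₀⟩ := growth (4 * (10 ^ 10 + 2 * C + 2)) (κ + 4)
  refine ⟨(10 ^ 10 + 2 * C + 2) * (L₀ + 1) ^ (κ + 4), κ + 4, ?_⟩
  intro S₀ hS₀ p hp hp2 hpS a b c l m k hb hc haS hbS hcS hbc hpa hpb hpc hl hm hk s t hs ht h ha0
  have : Fact p.Prime := ⟨hp⟩
  have hs2 : s * s = 1 := by rcases hs with rfl | rfl <;> norm_num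
  have ht2 : t * t = 1 := by rcases ht with rfl | rfl <;> norm_num
  have ha3 : 3 ≤ a := by
    have h1 := Nat.le_of_dvd (Nat.pos_of_ne_zero ha0) hpa
    have h2 := hp.two_le
    omega
  -- the exponents of the bases `b`, `c`
  obtain ⟨i, m', hi, him, hm'⟩ : ∃ i m' : ℕ, (b : ℤ) ^ i = (b : ℤ) ^ (2 * m) ∧ i ≤ 2 * m' ∧
      ((2 ≤ b ∧ m' = m ∧ i = 2 * m) ∨ (b = 1 ∧ m' = 0)) := by
    rcases Nat.lt_or_ge b 2 with h1 | h1
    · have : b = 1 := by omega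
      subst this
      exact ⟨0, 0, by simp, by omega, Or.inr ⟨rfl, rfl⟩⟩
    · exact ⟨2 * m, m, rfl, le_rfl, Or.inl ⟨h1, rfl, rfl⟩⟩
  obtain ⟨j, k', hj, hjk, hk'⟩ : ∃ j k' : ℕ, (c : ℤ) ^ j = (c : ℤ) ^ (2 * k) ∧ j ≤ 2 * k' ∧
      ((2 ≤ c ∧ k' = k ∧ j = 2 * k) ∨ (c = 1 ∧ k' = 0)) := by
    rcases Nat.lt_or_ge c 2 with h1 | h1
    · have : c = 1 := by omega
      subst this
      exact ⟨0, 0, by simp, by omega, Or.inr ⟨rfl, rfl⟩⟩
    · exact ⟨2 * k, k, rfl, le_rfl, Or.inl ⟨h1, rfl, rfl⟩⟩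
  obtain ⟨X, hX⟩ : ∃ X, X = max (max l m') k' := ⟨_, rfl⟩
  obtain ⟨S, hS⟩ : ∃ S, S = max S₀ (Nat.log 2 (2 * X) + 1) := ⟨_, rfl⟩
  have hS₀S : S₀ ≤ S := by rw [hS]; exact le_max_left _ _
  have hXS : 2 * X ≤ 2 ^ S := by
    have h1 : 2 * X < 2 ^ (Nat.log 2 (2 * X) + 1) := Nat.lt_pow_succ_log_self (by norm_num) _
    rw [hS]
    exact h1.le.trans (Nat.pow_le_pow_right (by norm_num) (le_max_right _ _))
  have h2S : (2 : ℕ) ^ S₀ ≤ 2 ^ S := Nat.pow_le_pow_right (by norm_num) hS₀S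
  have hlX : l ≤ X := by rw [hX]; exact (le_max_left _ _).trans (le_max_left _ _)
  have hmX : m' ≤ X := by rw [hX]; exact (le_max_right _ _).trans (le_max_left _ _)
  have hkX : k' ≤ X := by rw [hX]; exact le_max_right _ _
  have hSpos : 1 ≤ S := hS₀.trans hS₀S
  -- nondegeneracy
  have hne : b ^ i ≠ c ^ j := by
    intro he
    have he' : (b : ℤ) ^ (2 * m) = (c : ℤ) ^ (2 * k) := by rw [← hi, ← hj]; exact_mod_cast he
    have h1 : b ^ (2 * m) = c ^ (2 * k) := by exact_mod_cast he'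
    have h2 : b ^ (2 * m) = 1 := by
      have h3 : Nat.Coprime (b ^ (2 * m)) (c ^ (2 * k)) := Nat.Coprime.pow _ _ hbc
      rw [← h1] at h3
      exact (Nat.coprime_self _).mp h3
    have h3 : c ^ (2 * k) = 1 := by rw [← h1, h2]
    have hb1 : b = 1 := by
      rcases Nat.pow_eq_one.mp h2 with h | h
      · exact h
      · omega
    have hc1 : c = 1 := by
      rcases Nat.pow_eq_one.mp h3 with h | h
      · exact h
      · omega
    rw [hb1, hc1] at h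
    simp only [Nat.cast_one, one_pow, mul_one] at h
    have h4 : (3 : ℤ) ≤ (a : ℤ) ^ l := by
      have : (3 : ℤ) ≤ a := by exact_mod_cast ha3
      calc (3 : ℤ) ≤ a := this
        _ ≤ (a : ℤ) ^ l := le_self_pow₀ (by linarith) hl.ne'
    rcases hs with rfl | rfl <;> rcases ht with rfl | rfl <;> linarith
  -- bound for `l`
  have hlB : l ≤ C * S ^ κ := by
    refine hC p hp2 S (hpS.trans hS₀S) b c i j l hpb hpc (hbS.trans h2S) (hcS.trans h2S)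
      (by omega) (by omega) hne ?_
    have h1 : (b : ℤ) ^ i - (c : ℤ) ^ j = (a : ℤ) ^ l * (-((a : ℤ) ^ l + 2 * s * (b : ℤ) ^ m)) := by
      have h5 : (c : ℤ) ^ (2 * k) = ((a : ℤ) ^ l + s * (b : ℤ) ^ m) ^ 2 := by
        rw [h]
        have : (t * (c : ℤ) ^ k) ^ 2 = (t * t) * (c : ℤ) ^ (2 * k) := by ring
        rw [this, ht2, one_mul]
      rw [hi, hj, h5]
      linear_combination (-((b : ℤ) ^ m) ^ 2) * hs2
    rw [h1]
    apply Dvd.dvd.mul_right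
    exact pow_dvd_pow_of_dvd (by exact_mod_cast hpa) l
  -- the size of `a ^ l`
  have hal : (a : ℤ) ^ l ≤ 2 ^ (S * (C * S ^ κ)) := by
    calc (a : ℤ) ^ l ≤ ((2 : ℤ) ^ S) ^ l :=
          pow_le_pow_left₀ (by positivity) (by exact_mod_cast haS.trans h2S) _
      _ = 2 ^ (S * l) := by rw [← pow_mul]
      _ ≤ 2 ^ (S * (C * S ^ κ)) := pow_le_pow_right₀ (by norm_num) (Nat.mul_le_mul_left _ hlB)
  obtain ⟨T, hT⟩ : ∃ T, T = S * (C * S ^ κ) := ⟨_, rfl⟩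
  rw [← hT] at hal
  have hal0 : (0 : ℤ) < (a : ℤ) ^ l := by positivity
  have hbm0 : (0 : ℤ) < (b : ℤ) ^ m := by positivity
  have hck0 : (0 : ℤ) < (c : ℤ) ^ k := by positivity
  have hpow : ∀ {x i E : ℕ}, 2 ≤ x → (x : ℤ) ^ i ≤ 2 ^ E → i ≤ E := by
    intro x i E hx hxi
    have h1 : x ^ i ≤ 2 ^ E := by exact_mod_cast hxi
    have : 2 ^ i ≤ 2 ^ E := (Nat.pow_le_pow_left hx i).trans h1
    exact (Nat.pow_le_pow_iff_right (by norm_num)).mp this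
  -- bound for `m'` and `k'`
  have hmk : m' ≤ 2 * 10 ^ 9 * S ^ 4 + 2 * T + 5 ∧ k' ≤ 2 * 10 ^ 9 * S ^ 4 + 2 * T + 5 := by
    -- small powers
    have hcases : ((b : ℤ) ^ m ≤ 2 ^ (T + 1) ∧ (c : ℤ) ^ k ≤ 2 ^ (T + 1)) ∨
        |(c : ℤ) ^ k - (b : ℤ) ^ m| ≤ 2 ^ T := by
      have h2T : (2 : ℤ) ^ T ≤ 2 ^ (T + 1) := pow_le_pow_right₀ (by norm_num) (by omega)
      rcases hs with rfl | rfl <;> rcases ht with rfl | rfl
      · right; rw [abs_of_nonneg (by linarith)]; linarith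
      · linarith
      · left; constructor <;> linarith
      · right; rw [abs_of_nonpos (by linarith)]; linarith
    have h1T : (1 : ℤ) ≤ 2 ^ T := one_le_pow₀ (by norm_num)
    rcases hcases with ⟨h1, h2⟩ | h1
    · constructor
      · rcases hm' with ⟨h3, h4, -⟩ | ⟨-, h4⟩
        · rw [h4]; have := hpow h3 h1; omega
        · rw [h4]; exact Nat.zero_le _
      · rcases hk' with ⟨h3, h4, -⟩ | ⟨-, h4⟩
        · rw [h4]; have := hpow h3 h2; omega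
        · rw [h4]; exact Nat.zero_le _
    · rcases hm' with ⟨h3, h4, -⟩ | ⟨h3, h4⟩ <;> rcases hk' with ⟨h5, h6, -⟩ | ⟨h5, h6⟩
      · have hne2 : c ^ k ≠ b ^ m := by
          intro he
          have h7 : Nat.Coprime (b ^ m) (c ^ k) := Nat.Coprime.pow _ _ hbc
          rw [he, Nat.coprime_self] at h7
          rcases Nat.pow_eq_one.mp h7 with h8 | h8 <;> omega
        obtain ⟨h7, h8⟩ := arch_diff hSpos h3 h5 (hbS.trans h2S) (hcS.trans h2S) hm hk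
          (by rw [← h6]; omega) hne2 h1
        rw [h4, h6]
        omega
      · rw [h5] at h1
        simp only [Nat.cast_one, one_pow] at h1
        have h7 : (b : ℤ) ^ m ≤ 2 ^ (T + 1) := by
          have := (abs_le.mp h1).1
          rw [pow_succ]; linarith
        rw [h4, h6]
        have := hpow h3 h7
        omega
      · rw [h3] at h1
        simp only [Nat.cast_one, one_pow] at h1
        have h7 : (c : ℤ) ^ k ≤ 2 ^ (T + 1) := by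
          have := (abs_le.mp h1).2
          rw [pow_succ]; linarith
        rw [h4, h6]
        have := hpow h5 h7
        omega
      · rw [h4, h6]; omega
  -- conclusion
  have hSκ4 : S ^ κ ≤ S ^ (κ + 4) := Nat.pow_le_pow_right hSpos (by omega)
  have hS4 : S ^ 4 ≤ S ^ (κ + 4) := Nat.pow_le_pow_right hSpos (by omega)
  have hSκ1 : S ^ (κ + 1) ≤ S ^ (κ + 4) := Nat.pow_le_pow_right hSpos (by omega)
  have h1S : 1 ≤ S ^ (κ + 4) := Nat.one_le_pow _ _ hSpos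
  have hTS : T ≤ C * S ^ (κ + 4) := by
    calc T = C * S ^ (κ + 1) := by rw [hT]; ring
      _ ≤ _ := Nat.mul_le_mul_left _ hSκ1
  have hXB2 : X ≤ (10 ^ 10 + 2 * C + 2) * S ^ (κ + 4) := by
    have e1 : l ≤ (10 ^ 10 + 2 * C + 2) * S ^ (κ + 4) :=
      hlB.trans (Nat.mul_le_mul (by omega) hSκ4)
    have e2 : 2 * 10 ^ 9 * S ^ 4 + 2 * T + 5 ≤ (10 ^ 10 + 2 * C + 2) * S ^ (κ + 4) := by
      calc 2 * 10 ^ 9 * S ^ 4 + 2 * T + 5 ≤ 2 * 10 ^ 9 * S ^ (κ + 4) + 2 * (C * S ^ (κ + 4)) +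
            5 * S ^ (κ + 4) := by
            have := Nat.mul_le_mul_left (2 * 10 ^ 9) hS4
            omega
        _ = (2 * 10 ^ 9 + 2 * C + 5) * S ^ (κ + 4) := by ring
        _ ≤ _ := Nat.mul_le_mul_right _ (by omega)
    rw [hX]
    exact max_le (max_le e1 (hmk.1.trans e2)) (hmk.2.trans e2)
  have hfin : X ≤ (10 ^ 10 + 2 * C + 2) * (L₀ + 1) ^ (κ + 4) * S₀ ^ (κ + 4) := by
    have hS0p : 1 ≤ S₀ ^ (κ + 4) := Nat.one_le_pow _ _ hS₀
    have hL0p : 1 ≤ (L₀ + 1) ^ (κ + 4) := Nat.one_le_pow _ _ (by omega)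
    rcases le_total (Nat.log 2 (2 * X) + 1) S₀ with h1 | h1
    · have h2 : S = S₀ := by rw [hS]; exact max_eq_left h1
      rw [h2] at hXB2
      calc X ≤ _ := hXB2
        _ ≤ (10 ^ 10 + 2 * C + 2) * (L₀ + 1) ^ (κ + 4) * S₀ ^ (κ + 4) :=
          Nat.mul_le_mul_right _ (Nat.le_mul_of_pos_right _ hL0p)
    · have hSL : S = Nat.log 2 (2 * X) + 1 := by rw [hS]; exact max_eq_right h1
      have hX0 : 2 * X ≠ 0 := by omega
      have h2 : 2 ^ (Nat.log 2 (2 * X)) ≤ 2 * X := Nat.pow_log_le_self 2 hX0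
      have h3 : 2 ^ S ≤ 4 * (10 ^ 10 + 2 * C + 2) * S ^ (κ + 4) := by
        calc 2 ^ S = 2 * 2 ^ (Nat.log 2 (2 * X)) := by rw [hSL, pow_succ]; ring
          _ ≤ 2 * (2 * X) := Nat.mul_le_mul_left _ h2
          _ ≤ 2 * (2 * ((10 ^ 10 + 2 * C + 2) * S ^ (κ + 4))) := by
            exact Nat.mul_le_mul_left _ (Nat.mul_le_mul_left _ hXB2)
          _ = _ := by ring
      have h4 := hL₀ S h3
      calc X ≤ _ := hXB2
        _ ≤ (10 ^ 10 + 2 * C + 2) * (L₀ + 1) ^ (κ + 4) :=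
          Nat.mul_le_mul_left _ (Nat.pow_le_pow_left (by omega) _)
        _ ≤ _ := Nat.le_mul_of_pos_right _ hS0p
  refine ⟨hlX.trans hfin, fun hb2 => ?_, fun hc2 => ?_⟩
  · rcases hm' with ⟨-, h4, -⟩ | ⟨h1, -⟩
    · rw [← h4]; exact hmX.trans hfin
    · omega
  · rcases hk' with ⟨-, h4, -⟩ | ⟨h1, -⟩
    · rw [← h4]; exact hkX.trans hfin
    · omega

end Pool.Agent.TH888.B1
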