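import Mathlib
import Pool.Agent.TH888.B1.FreeMain
import Pool.Agent.TH888.B1.Arch

/-!
One polynomial base, every second base `A ≤ N ^ (1/2 - δ)` and every third base up to `exp (N ^ c)`.
-/

set_option autoImplicit false

namespace Pool.Agent.TH888.B1

open Finset Polynomial Filter Topology

/-- bounds for the exponents when only `a` has a small odd prime factor -/
theorem exps_one : ∃ C κ : ℕ, ∀ (a c : ℤ) (b : ℕ) (S₀ l m k : ℕ) (s t : ℤ), 1 ≤ S₀ → 0 < l → 0 < m →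
    0 < k → m * k + k * l + l * m ≤ l * m * k → (s = 1 ∨ s = -1) → (t = 1 ∨ t = -1) → b ≠ 0 → c ≠ 0 →
    a ≠ 0 → IsCoprime a (b : ℤ) → a ^ l + s * (b : ℤ) ^ m = t * c ^ k →
    a.natAbs ≤ 2 ^ S₀ → b ≤ 2 ^ S₀ → c.natAbs ≤ 2 ^ S₀ →
    (∃ p : ℕ, p.Prime ∧ p ≠ 2 ∧ p ≤ S₀ ∧ (p : ℤ) ∣ a) →
    l ≤ C * S₀ ^ κ ∧ ∃ m' k' : ℕ, 0 < m' ∧ 0 < k' ∧ m' ≤ C * S₀ ^ κ + 7 ∧ k' ≤ C * S₀ ^ κ + 7 ∧
      m' * k' + k' * l + l * m' ≤ l * m' * k' ∧ (b : ℤ) ^ m' = (b : ℤ) ^ m ∧ c ^ k' = c ^ k := by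
  obtain ⟨C, κ, hC⟩ := exp_bound_one
  refine ⟨C, κ, ?_⟩
  rintro a c b S₀ l m k s t hS₀ hl hm hk hineq hs ht hb0 hc0 ha0 hcop heq haS hbS hcS ⟨p, hp, hp2, hpS, hpa⟩
  have hbc : IsCoprime (b : ℤ) c := by
    have h1 : IsCoprime (b : ℤ) (a ^ l) := hcop.symm.pow_right
    have h2 : IsCoprime (b : ℤ) (c ^ k) := by
      have h3 : c ^ k = t * a ^ l + (b : ℤ) * (t * s * (b : ℤ) ^ (m - 1)) := by
        have ht2 : t * t = 1 := by rcases ht with rfl | rfl <;> norm_num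
        have h4 : (b : ℤ) ^ m = b * (b : ℤ) ^ (m - 1) := by rw [← pow_succ', Nat.sub_add_cancel hm]
        have h5 : c ^ k = t * (a ^ l + s * (b : ℤ) ^ m) := by
          rw [heq]; linear_combination (-c ^ k) * ht2
        rw [h5, h4]; ring
      rw [h3]
      refine IsCoprime.add_mul_left_right ?_ _
      apply IsCoprime.mul_right _ h1
      rcases ht with rfl | rfl <;> simp [isCoprime_one_right, IsCoprime.neg_right_iff]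
    exact (IsCoprime.pow_right_iff hk).mp h2
  have hac : IsCoprime a c := by
    have h1 : IsCoprime a ((b : ℤ) ^ m) := hcop.pow_right
    have h2 : IsCoprime a (c ^ k) := by
      have h3 : c ^ k = (t * s) * (b : ℤ) ^ m + a * (t * a ^ (l - 1)) := by
        have ht2 : t * t = 1 := by rcases ht with rfl | rfl <;> norm_num
        have h4 : a ^ l = a * a ^ (l - 1) := by rw [← pow_succ', Nat.sub_add_cancel hl]
        have h5 : c ^ k = t * (a ^ l + s * (b : ℤ) ^ m) := by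
          rw [heq]; linear_combination (-c ^ k) * ht2
        rw [h5, h4]; ring
      rw [h3]
      refine IsCoprime.add_mul_left_right ?_ _
      apply IsCoprime.mul_right _ h1
      rcases hs with rfl | rfl <;> rcases ht with rfl | rfl <;> simp [isCoprime_one_right, IsCoprime.neg_right_iff]
    exact (IsCoprime.pow_right_iff hk).mp h2
  have hnd : ∀ {x : ℤ}, IsCoprime a x → ¬ p ∣ x.natAbs := by
    intro x hx hpx
    have h1 : (p : ℤ) ∣ x := Int.natCast_dvd.mpr hpx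
    obtain ⟨u, v, huv⟩ := hx
    have h2 : (p : ℤ) ∣ 1 := by rw [← huv]; exact dvd_add (hpa.mul_left _) (h1.mul_left _)
    have h3 : p ∣ 1 := by exact_mod_cast h2
    exact hp.one_lt.ne' (Nat.dvd_one.mp h3)
  -- signs
  obtain ⟨σ₁, hσ₁, e1⟩ := sign_pow a l
  obtain ⟨σ₃, hσ₃, e3⟩ := sign_pow c k
  have heq' : (a.natAbs : ℤ) ^ l + (s * σ₁) * (b : ℤ) ^ m =
      (t * σ₁ * σ₃) * (c.natAbs : ℤ) ^ k := by
    have h1 : σ₁ * σ₁ = 1 := by rcases hσ₁ with rfl | rfl <;> norm_num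
    rw [e1, e3] at heq
    linear_combination σ₁ * heq - ((a.natAbs : ℤ) ^ l) * h1
  have hsg : (s * σ₁ = 1 ∨ s * σ₁ = -1) := by
    rcases hs with rfl | rfl <;> rcases hσ₁ with rfl | rfl <;> norm_num
  have htg : (t * σ₁ * σ₃ = 1 ∨ t * σ₁ * σ₃ = -1) := by
    rcases ht with rfl | rfl <;> rcases hσ₁ with rfl | rfl <;> rcases hσ₃ with rfl | rfl <;> norm_num
  have hc1 : 1 ≤ c.natAbs := Int.natAbs_pos.mpr hc0
  have hbcN : Nat.Coprime b c.natAbs := by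
    have := Int.isCoprime_iff_gcd_eq_one.mp hbc
    simpa [Int.gcd] using this
  have hpb : ¬ p ∣ b := by simpa using hnd hcop
  obtain ⟨b1, b2, b3⟩ := hC S₀ hS₀ p hp hp2 hpS a.natAbs b c.natAbs l m k
    (Nat.pos_of_ne_zero hb0) hc1 haS hbS hcS hbcN (Int.natCast_dvd.mp hpa) hpb (hnd hac)
    hl hm hk _ _ hsg htg heq' (Int.natAbs_ne_zero.mpr ha0)
  refine ⟨b1, ?_⟩
  obtain ⟨m', hm'0, hm'B, hm'i, hm'e⟩ : ∃ m' : ℕ, 0 < m' ∧ m' ≤ C * S₀ ^ κ + 7 ∧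
      m' * k + k * l + l * m' ≤ l * m' * k ∧ (b : ℤ) ^ m' = (b : ℤ) ^ m := by
    rcases Nat.lt_or_ge b 2 with h2 | h2
    · have hb1 : b = 1 := by omega
      refine ⟨6, by norm_num, by omega, ?_, by simp [hb1]⟩
      have h3 : k * m + m * l + l * k ≤ l * k * m := by nlinarith
      have h4 := third_exponent hl hk h3 (le_refl 6)
      nlinarith
    · exact ⟨m, hm, (b2 h2).trans (Nat.le_add_right _ _), hineq, rfl⟩
  obtain ⟨k', hk'0, hk'B, hk'i, hk'e⟩ : ∃ k' : ℕ, 0 < k' ∧ k' ≤ C * S₀ ^ κ + 7 ∧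
      m' * k' + k' * l + l * m' ≤ l * m' * k' ∧ c ^ k' = c ^ k := by
    rcases Nat.lt_or_ge c.natAbs 2 with h2 | h2
    · rcases Nat.lt_or_ge k 8 with h3 | h3
      · exact ⟨k, hk, by omega, hm'i, rfl⟩
      · refine ⟨6 + k % 2, by omega, by omega, third_exponent hl hm'0 hm'i (by omega), ?_⟩
        have h4 : c = 1 ∨ c = -1 := Int.natAbs_eq_iff.mp (by omega : c.natAbs = 1)
        rcases h4 with h4 | h4
        · rw [h4, one_pow, one_pow]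
        · rw [h4]
          have h5 : k % 2 = 0 ∨ k % 2 = 1 := by omega
          rcases h5 with h5 | h5
          · have h6 : Even k := Nat.even_iff.mpr h5
            rw [h5, h6.neg_one_pow]; norm_num
          · have h6 : Odd k := Nat.odd_iff.mpr h5
            rw [h5, h6.neg_one_pow]; norm_num
    · exact ⟨k, hk, (b3 h2).trans (Nat.le_add_right _ _), hm'i, rfl⟩
  exact ⟨m', k', hm'0, hk'0, hm'B, hk'B, hk'i, hm'e, hk'e⟩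

/-- `f n` and `A` are two bases of a solution whose third base is at most `W` -/
def ExcSec (f : ℤ[X]) (A : ℕ) (W : ℝ) : Set ℕ :=
  {n | ∃ (l m k : ℕ) (s t w : ℤ), 0 < l ∧ 0 < m ∧ 0 < k ∧
    m * k + k * l + l * m ≤ l * m * k ∧ (s = 1 ∨ s = -1) ∧ (t = 1 ∨ t = -1) ∧
    f.eval (n : ℤ) ≠ 0 ∧ w ≠ 0 ∧ |(w : ℝ)| ≤ W ∧ IsCoprime (f.eval (n : ℤ)) (A : ℤ) ∧
    f.eval (n : ℤ) ^ l + s * (A : ℤ) ^ m = t * w ^ k}

theorem sec_mem_eq {C κ : ℕ} (hC : ∀ (a c : ℤ) (b : ℕ) (S₀ l m k : ℕ) (s t : ℤ), 1 ≤ S₀ → 0 < l →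
    0 < m → 0 < k → m * k + k * l + l * m ≤ l * m * k → (s = 1 ∨ s = -1) → (t = 1 ∨ t = -1) →
    b ≠ 0 → c ≠ 0 → a ≠ 0 → IsCoprime a (b : ℤ) → a ^ l + s * (b : ℤ) ^ m = t * c ^ k →
    a.natAbs ≤ 2 ^ S₀ → b ≤ 2 ^ S₀ → c.natAbs ≤ 2 ^ S₀ →
    (∃ p : ℕ, p.Prime ∧ p ≠ 2 ∧ p ≤ S₀ ∧ (p : ℤ) ∣ a) →
    l ≤ C * S₀ ^ κ ∧ ∃ m' k' : ℕ, 0 < m' ∧ 0 < k' ∧ m' ≤ C * S₀ ^ κ + 7 ∧ k' ≤ C * S₀ ^ κ + 7 ∧
      m' * k' + k' * l + l * m' ≤ l * m' * k' ∧ (b : ℤ) ^ m' = (b : ℤ) ^ m ∧ c ^ k' = c ^ k)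
    {f : ℤ[X]} {n S A : ℕ} {W : ℝ} (hS1 : 1 ≤ S) (hA0 : 0 < A) (hAS : A ≤ 2 ^ S)
    (hW : W ≤ ((2 ^ S : ℕ) : ℝ))
    (hn : n ∈ ExcSec f A W) (hf1 : (f.eval (n : ℤ)).natAbs ≤ 2 ^ S)
    (hpf : ∃ p : ℕ, p.Prime ∧ p ≠ 2 ∧ p ≤ S ∧ (p : ℤ) ∣ f.eval (n : ℤ)) :
    ∃ e ∈ Ind (C * S ^ κ + 7), ∃ w : ℤ, |w| ≤ ((2 ^ S : ℕ) : ℤ) ∧
      w ^ e.1.2.2 = (Lft f (Polynomial.C (A : ℤ)) e.1.1 e.1.2.1 e.2.1 e.2.2).eval (n : ℤ) := by
  obtain ⟨l, m, k, s, t, w, hl, hm, hk, hineq, hs, ht, hf0, hw0, hwW, hco, heq⟩ := hn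
  have hwS : w.natAbs ≤ 2 ^ S := by
    have h5 : ((w.natAbs : ℕ) : ℝ) ≤ ((2 ^ S : ℕ) : ℝ) := by
      have h6 : ((w.natAbs : ℕ) : ℝ) = |(w : ℝ)| := by
        rw [Nat.cast_natAbs, Int.cast_abs]
      rw [h6]; exact hwW.trans hW
    exact_mod_cast h5
  obtain ⟨hlB, m', k', hm'0, hk'0, hm'B, hk'B, hi, hm'e, hk'e⟩ := hC _ w A S l m k s t hS1 hl hm hk
    hineq hs ht hA0.ne' hw0 hf0 hco heq hf1 hAS hwS hpf
  refine ⟨((l, m', k'), (s, t)), ?_, w, ?_, ?_⟩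
  · simp only [Ind, mem_product, mem_filter, mem_range, mem_insert, mem_singleton]
    exact ⟨⟨⟨by omega, by omega, by omega⟩, hl, hm'0, hk'0, hi⟩, hs, ht⟩
  · rw [Int.abs_eq_natAbs]; exact_mod_cast hwS
  · simp only [Lft, eval_mul, eval_add, eval_C, eval_pow]
    rw [hk'e, hm'e, heq]
    have ht2 : t * t = 1 := by rcases ht with rfl | rfl <;> norm_num
    linear_combination (-(w ^ k)) * ht2

theorem isCoprime_C {f : ℤ[X]} {A : ℕ} (hA : 0 < A) :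
    IsCoprime (f.map (Int.castRingHom ℚ)) ((Polynomial.C (A : ℤ)).map (Int.castRingHom ℚ)) := by
  rw [Polynomial.map_C]
  have h : IsUnit (Polynomial.C ((Int.castRingHom ℚ) (A : ℤ))) := by
    rw [isUnit_C, isUnit_iff_ne_zero]
    simp [hA.ne']
  obtain ⟨u, hu⟩ := h
  exact ⟨0, ↑u⁻¹, by rw [← hu, zero_mul, zero_add, Units.inv_mul]⟩

theorem lft_mod_C {f : ℤ[X]} (hf : 0 < f.natDegree) {A r : ℕ} (hr : r.Prime)
    (hrf : f.leadingCoeff.natAbs < r) : ∀ (l m : ℕ) (s t : ℤ), 0 < l → (s = 1 ∨ s = -1) →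
      (t = 1 ∨ t = -1) →
        (Lft f (Polynomial.C (A : ℤ)) l m s t).map (Int.castRingHom (ZMod r)) ≠ 0 := by
  intro l m s t hl hs ht
  have : Fact r.Prime := ⟨hr⟩
  set φ := Int.castRingHom (ZMod r) with hφ
  have hf0 : f ≠ 0 := by rintro rfl; simp at hf
  have hlc : φ f.leadingCoeff ≠ 0 := by
    intro h0
    have h1 : (r : ℤ) ∣ f.leadingCoeff := (ZMod.intCast_zmod_eq_zero_iff_dvd _ r).mp h0
    have h2 := Int.natAbs_dvd_natAbs.mpr h1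
    rw [Int.natAbs_natCast] at h2
    exact absurd (Nat.le_of_dvd (Int.natAbs_pos.mpr (leadingCoeff_ne_zero.mpr hf0)) h2) (by omega)
  have htu : (Polynomial.C (φ t) : (ZMod r)[X]) ≠ 0 := by
    rcases ht with rfl | rfl <;> simp
  unfold Lft
  simp only [Polynomial.map_add, Polynomial.map_mul, Polynomial.map_C, Polynomial.map_pow]
  refine mul_ne_zero htu ?_
  intro h
  have h1 : (f.map φ) ^ l = Polynomial.C (-(φ s * (φ (A : ℤ)) ^ m)) := by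
    rw [Polynomial.C_neg, Polynomial.C_mul, Polynomial.C_pow]
    exact eq_neg_of_add_eq_zero_left h
  have h2 := congrArg natDegree h1
  rw [natDegree_pow, natDegree_C, natDegree_map_of_leadingCoeff_ne_zero φ hlc] at h2
  have h3 : 0 < l * f.natDegree := Nat.mul_pos hl hf
  omega

theorem sec_main : ∃ c : ℝ → ℝ, (∀ δ : ℝ, 0 < δ → 0 < c δ) ∧ ∀ f : ℤ[X], 0 < f.natDegree →
    ∀ ε : ℝ, 0 < ε → ∃ (M : ℕ) (G : Finset ℕ), 0 < M ∧ G ⊆ range M ∧ (1 - ε) * M ≤ (G.card : ℝ) ∧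
      ∀ δ : ℝ, 0 < δ → ∃ N₀ : ℕ, ∀ N : ℕ, N₀ ≤ N →
        (({n : ℕ | 1 ≤ n ∧ n ≤ N ∧ n % M ∈ G ∧ ∃ A : ℕ, 0 < A ∧ (A : ℝ) ≤ (N : ℝ) ^ (1 / 2 - δ) ∧
          n ∈ ExcSec f A (Real.exp ((N : ℝ) ^ c δ))}.ncard : ℝ)) ≤ (N : ℝ) ^ (1 - δ / 2) := by
  classical
  obtain ⟨C, κ, hC⟩ := exps_one
  refine ⟨fun δ => min (δ / 2) 1 / (100 * (κ + 1)), fun δ hδ => by positivity, ?_⟩
  intro f hf ε hε
  obtain ⟨M, P, G, hM, hG, hGc, hgood⟩ := good_classes f f hf hf ε hε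
  refine ⟨M, G, hM, hG, hGc, fun δ' hδ' => ?_⟩
  obtain ⟨δ, hδdef⟩ : ∃ δ, δ = min (δ' / 2) 1 := ⟨_, rfl⟩
  have hδ : 0 < δ := by rw [hδdef]; positivity
  have hδ1 : δ ≤ 1 := by rw [hδdef]; exact min_le_right _ _
  have hδδ : δ ≤ δ' / 2 := by rw [hδdef]; exact min_le_left _ _
  simp only [← hδdef]
  obtain ⟨D, hD⟩ : ∃ D, D = f.natDegree := ⟨_, rfl⟩
  obtain ⟨c₀, hc₀⟩ : ∃ c₀, c₀ = P + ht f + D + 3 := ⟨_, rfl⟩
  obtain ⟨L₁, hL₁⟩ := small_par C κ c₀ hδ hδ1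
  obtain ⟨L₃, hL₃⟩ := aux_prime δ hδ f.leadingCoeff.natAbs
  refine ⟨L₁ + L₃ + 2, fun N hN => ?_⟩
  obtain ⟨x, r, hr, hx, hx16, hx2, hxr, hr4, hr₀r, hxh⟩ := hL₃ N (by omega)
  obtain ⟨S, hS1, hSY, hW, hp1⟩ := hL₁ N (by omega)
  have hN1 : 1 ≤ N := by omega
  have hN1R : (1 : ℝ) ≤ N := by exact_mod_cast hN1
  have hNpos : (0 : ℝ) < N := by linarith
  obtain ⟨Y, hY⟩ : ∃ Y, Y = Nat.log 2 N + 1 := ⟨_, rfl⟩
  rw [← hY] at hSY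
  have hY1 : 1 ≤ Y := by omega
  have hNY : N ≤ 2 ^ Y := by rw [hY]; exact (Nat.lt_pow_succ_log_self (by norm_num) N).le
  have hc₀S : c₀ ≤ S := (Nat.le_mul_of_pos_right _ hY1).trans hSY
  have hYS : Y ≤ S := (Nat.le_mul_of_pos_left _ (by omega)).trans hSY
  obtain ⟨hz1, hz2⟩ := z_par C κ S hS1
  obtain ⟨Z, hZ⟩ : ∃ Z, Z = (C + 8) * S ^ (κ + 1) := ⟨_, rfl⟩
  rw [← hZ] at hz1 hz2 hp1
  obtain ⟨B, hB⟩ : ∃ B, B = C * S ^ κ + 7 := ⟨_, rfl⟩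
  rw [← hB] at hz1
  have hZ1 : (1 : ℝ) ≤ Z := by
    have : 1 ≤ Z := by omega
    exact_mod_cast this
  have hp2 : 60 * (Z : ℝ) ^ 6 ≤ (N : ℝ) ^ (1 / 2 : ℝ) :=
    hp1.trans (Real.rpow_le_rpow_of_exponent_le hN1R (by linarith))
  have hBr : B < r := by
    have h1 : (B : ℝ) + 1 ≤ Z := by exact_mod_cast hz1
    have h2 : (Z : ℝ) ≤ 60 * (Z : ℝ) ^ 6 := by
      have : (Z : ℝ) ≤ (Z : ℝ) ^ 6 := le_self_pow₀ hZ1 (by norm_num)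
      linarith
    have h3 : (B : ℝ) < r := by linarith
    exact_mod_cast h3
  have hbig := hbig_of (S := S) hx16 hx2 hxr hN1
  have hval : ∀ n : ℕ, 1 ≤ n → n ≤ N → (f.eval (n : ℤ)).natAbs ≤ 2 ^ S := by
    intro n h1 h2
    refine (eval_bound f hD.ge h1 (h2.trans hNY)).trans (Nat.pow_le_pow_right (by norm_num) ?_)
    calc ht f + D * Y ≤ (ht f) * Y + D * Y :=
          Nat.add_le_add_right (Nat.le_mul_of_pos_right _ hY1) _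
      _ = (ht f + D) * Y := by ring
      _ ≤ c₀ * Y := Nat.mul_le_mul_right _ (by omega)
      _ ≤ S := hSY
  obtain ⟨A₀, hA₀⟩ : ∃ A₀, A₀ = ⌊(N : ℝ) ^ (1 / 2 - δ')⌋₊ := ⟨_, rfl⟩
  have hA₀R : (A₀ : ℝ) ≤ (N : ℝ) ^ (1 / 2 - δ') := by
    rw [hA₀]; exact Nat.floor_le (by positivity)
  have hA₀N : A₀ ≤ 2 ^ S := by
    have h1 : (A₀ : ℝ) ≤ N := by
      refine hA₀R.trans ?_
      calc (N : ℝ) ^ (1 / 2 - δ') ≤ (N : ℝ) ^ (1 : ℝ) :=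
            Real.rpow_le_rpow_of_exponent_le hN1R (by linarith)
        _ = N := Real.rpow_one _
    have h2 : A₀ ≤ N := by exact_mod_cast h1
    exact h2.trans (hNY.trans (Nat.pow_le_pow_right (by norm_num) hYS))
  obtain ⟨E, hE⟩ : ∃ E : ℕ → Finset ℕ, E = fun A : ℕ => (Icc 1 N).filter (fun n : ℕ => ∃ e ∈ Ind B,
      ∃ w : ℤ, |w| ≤ ((2 ^ S : ℕ) : ℤ) ∧
        w ^ e.1.2.2 = (Lft f (Polynomial.C (A : ℤ)) e.1.1 e.1.2.1 e.2.1 e.2.2).eval (n : ℤ)) :=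
    ⟨_, rfl⟩
  have hEc : ∀ A ∈ Icc 1 A₀, (E A).card ≤ ((B + 1) ^ 3 * 4) * (B * D * (N / r + 1) +
      r * (B * (B * S + B * D))) := by
    intro A hA
    rw [mem_Icc] at hA
    refine count_all (D := D) hf (C_ne_zero.mpr (by exact_mod_cast (by omega : A ≠ 0)))
      (isCoprime_C (by omega)) hD.ge (by rw [natDegree_C]; omega) hr hBr
      (lft_mod_C hf hr hr₀r) hN1 hbig (E A) (by
        intro n hn
        rw [hE, mem_filter, mem_Icc] at hn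
        exact ⟨hn.1.1, hn.1.2, hn.2⟩)
  have hUc := card_biUnion_le_card_mul (Icc 1 A₀) E _ hEc
  rw [Nat.card_Icc, Nat.add_sub_cancel] at hUc
  have hsub : {n : ℕ | 1 ≤ n ∧ n ≤ N ∧ n % M ∈ G ∧ ∃ A : ℕ, 0 < A ∧
      (A : ℝ) ≤ (N : ℝ) ^ (1 / 2 - δ') ∧
      n ∈ ExcSec f A (Real.exp ((N : ℝ) ^ (δ / (100 * (κ + 1)))))} ⊆
      (((Icc 1 A₀).biUnion E : Finset ℕ) : Set ℕ) := by
    rintro n ⟨hn1, hnN, hnG, A, hA0, hAN, hn⟩
    obtain ⟨⟨p', hp', hp'2, hp'P, hpf⟩, -⟩ := hgood n hnG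
    have hAA : A ≤ A₀ := by rw [hA₀]; exact Nat.le_floor hAN
    rw [mem_coe, mem_biUnion]
    refine ⟨A, mem_Icc.mpr ⟨hA0, hAA⟩, ?_⟩
    rw [hE, mem_filter, mem_Icc, hB]
    exact ⟨⟨hn1, hnN⟩, sec_mem_eq hC hS1 hA0 (hAA.trans hA₀N) hW hn (hval n hn1 hnN)
      ⟨p', hp', hp'2, by omega, hpf⟩⟩
  have hcard := Set.ncard_le_ncard hsub (Finset.finite_toSet _)
  rw [Set.ncard_coe_finset] at hcard
  have hfin := final_ineq (B := B) (D := D) (S := S) (Z := Z) (N := N) hz1 hz2 (by omega) hx16 hx2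
    hxr hr4
  have hfin2 : ((((B + 1) ^ 3 * 4) * (B * D * (N / r + 1) + r * (B * (B * S + B * D))) : ℕ) : ℝ) ≤
      x * (60 * (Z : ℝ) ^ 6) := by
    refine le_trans ?_ hfin
    exact_mod_cast Nat.le_add_left _ _
  calc (({n : ℕ | 1 ≤ n ∧ n ≤ N ∧ n % M ∈ G ∧ ∃ A : ℕ, 0 < A ∧
        (A : ℝ) ≤ (N : ℝ) ^ (1 / 2 - δ') ∧
        n ∈ ExcSec f A (Real.exp ((N : ℝ) ^ (δ / (100 * (κ + 1)))))}.ncard : ℝ))
      ≤ ((A₀ * (((B + 1) ^ 3 * 4) * (B * D * (N / r + 1) +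
        r * (B * (B * S + B * D)))) : ℕ) : ℝ) := by exact_mod_cast hcard.trans hUc
    _ = (A₀ : ℝ) * ((((B + 1) ^ 3 * 4) * (B * D * (N / r + 1) +
        r * (B * (B * S + B * D))) : ℕ) : ℝ) := by rw [Nat.cast_mul]
    _ ≤ (N : ℝ) ^ (1 / 2 - δ') * (x * (N : ℝ) ^ (δ / 2)) := by
        apply mul_le_mul hA₀R _ (Nat.cast_nonneg _) (by positivity)
        exact hfin2.trans (mul_le_mul_of_nonneg_left hp1 (by linarith))
    _ = (N : ℝ) ^ (1 - δ' + δ) := by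
        rw [hx, ← Real.rpow_add hNpos, ← Real.rpow_add hNpos]
        congr 1
        ring
    _ ≤ (N : ℝ) ^ (1 - δ' / 2) := Real.rpow_le_rpow_of_exponent_le hN1R (by linarith)

end Pool.Agent.TH888.B1
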