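import Mathlib
import Pool.Agent.TH888.B1.Second

/-!
Two polynomial bases when only one of them has a small odd prime factor.
-/

set_option autoImplicit false

namespace Pool.Agent.TH888.B1

open Finset Polynomial Filter Topology

/-- bounds for the exponents when only `a` has a small odd prime factor, `b` any integer -/
theorem exps_int : ∃ C κ : ℕ, ∀ (a b c : ℤ) (S₀ l m k : ℕ) (s t : ℤ), 1 ≤ S₀ → 0 < l → 0 < m →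
    0 < k → m * k + k * l + l * m ≤ l * m * k → (s = 1 ∨ s = -1) → (t = 1 ∨ t = -1) → b ≠ 0 → c ≠ 0 →
    a ≠ 0 → IsCoprime a b → a ^ l + s * b ^ m = t * c ^ k →
    a.natAbs ≤ 2 ^ S₀ → b.natAbs ≤ 2 ^ S₀ → c.natAbs ≤ 2 ^ S₀ →
    (∃ p : ℕ, p.Prime ∧ p ≠ 2 ∧ p ≤ S₀ ∧ (p : ℤ) ∣ a) →
    l ≤ C * S₀ ^ κ + 7 ∧ ∃ m' k' : ℕ, 0 < m' ∧ 0 < k' ∧ m' ≤ C * S₀ ^ κ + 7 ∧ k' ≤ C * S₀ ^ κ + 7 ∧
      m' * k' + k' * l + l * m' ≤ l * m' * k' ∧ b ^ m' = b ^ m ∧ c ^ k' = c ^ k := by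
  obtain ⟨C, κ, hC⟩ := exps_one
  refine ⟨C, κ, ?_⟩
  rintro a b c S₀ l m k s t hS₀ hl hm hk hineq hs ht hb0 hc0 ha0 hcop heq haS hbS hcS hp
  obtain ⟨σ, hσ, e2⟩ := sign_pow b m
  have hcop' : IsCoprime a ((b.natAbs : ℕ) : ℤ) := by
    rcases Int.natAbs_eq b with h | h
    · rwa [← h]
    · have h1 : ((b.natAbs : ℕ) : ℤ) = -b := by omega
      rw [h1]; exact hcop.neg_right
  have heq' : a ^ l + (s * σ) * ((b.natAbs : ℕ) : ℤ) ^ m = t * c ^ k := by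
    rw [← heq, e2]; ring
  have hsσ : s * σ = 1 ∨ s * σ = -1 := by
    rcases hs with rfl | rfl <;> rcases hσ with rfl | rfl <;> norm_num
  obtain ⟨hlB, m', k', hm'0, hk'0, hm'B, hk'B, hi, hm'e, hk'e⟩ := hC a c b.natAbs S₀ l m k (s * σ) t
    hS₀ hl hm hk hineq hsσ ht (Int.natAbs_ne_zero.mpr hb0) hc0 ha0 hcop' heq' haS hbS hcS hp
  refine ⟨hlB.trans (Nat.le_add_right _ _), ?_⟩
  rcases Nat.lt_or_ge b.natAbs 2 with h2 | h2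
  · -- `b = ±1`
    have h1 : b.natAbs = 1 := by
      have := Int.natAbs_pos.mpr hb0
      omega
    have hhyp : ∀ j : ℕ, 6 ≤ j → j * k' + k' * l + l * j ≤ l * j * k' := by
      intro j hj
      have h3 : k' * m' + m' * l + l * k' ≤ l * k' * m' := by nlinarith
      have h4 := third_exponent hl hk'0 h3 hj
      nlinarith
    refine ⟨6 + m % 2, k', by omega, hk'0, by omega, hk'B, hhyp _ (by omega), ?_, hk'e⟩
    have h4 : b = 1 ∨ b = -1 := Int.natAbs_eq_iff.mp h1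
    rcases h4 with h4 | h4
    · rw [h4, one_pow, one_pow]
    · rw [h4]
      have h5 : m % 2 = 0 ∨ m % 2 = 1 := by omega
      rcases h5 with h5 | h5
      · have h6 : Even m := Nat.even_iff.mpr h5
        rw [h5, h6.neg_one_pow]; norm_num
      · have h6 : Odd m := Nat.odd_iff.mpr h5
        rw [h5, h6.neg_one_pow]; norm_num
  · have h3 : b.natAbs ^ m' = b.natAbs ^ m := by exact_mod_cast hm'e
    have h4 : m' = m := Nat.pow_right_injective h2 h3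
    rw [h4] at hm'0 hm'B hi
    exact ⟨m, k', hm'0, hk'0, hm'B, hk'B, hi, rfl, hk'e⟩

theorem mem_eq_either {C κ : ℕ} (hC : ∀ (a b c : ℤ) (S₀ l m k : ℕ) (s t : ℤ), 1 ≤ S₀ → 0 < l →
    0 < m → 0 < k → m * k + k * l + l * m ≤ l * m * k → (s = 1 ∨ s = -1) → (t = 1 ∨ t = -1) →
    b ≠ 0 → c ≠ 0 → a ≠ 0 → IsCoprime a b → a ^ l + s * b ^ m = t * c ^ k →
    a.natAbs ≤ 2 ^ S₀ → b.natAbs ≤ 2 ^ S₀ → c.natAbs ≤ 2 ^ S₀ →
    (∃ p : ℕ, p.Prime ∧ p ≠ 2 ∧ p ≤ S₀ ∧ (p : ℤ) ∣ a) →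
    l ≤ C * S₀ ^ κ + 7 ∧ ∃ m' k' : ℕ, 0 < m' ∧ 0 < k' ∧ m' ≤ C * S₀ ^ κ + 7 ∧ k' ≤ C * S₀ ^ κ + 7 ∧
      m' * k' + k' * l + l * m' ≤ l * m' * k' ∧ b ^ m' = b ^ m ∧ c ^ k' = c ^ k)
    {f g : ℤ[X]} {n S : ℕ} {W : ℝ} (hS1 : 1 ≤ S)
    (hW : W ≤ ((2 ^ S : ℕ) : ℝ))
    (hn : n ∈ ExcFree f g W) (hf1 : (f.eval (n : ℤ)).natAbs ≤ 2 ^ S)
    (hg1 : (g.eval (n : ℤ)).natAbs ≤ 2 ^ S)
    (hpf : (∃ p : ℕ, p.Prime ∧ p ≠ 2 ∧ p ≤ S ∧ (p : ℤ) ∣ f.eval (n : ℤ)) ∨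
      (∃ p : ℕ, p.Prime ∧ p ≠ 2 ∧ p ≤ S ∧ (p : ℤ) ∣ g.eval (n : ℤ))) :
    ∃ e ∈ Ind (C * S ^ κ + 7), ∃ w : ℤ, |w| ≤ ((2 ^ S : ℕ) : ℤ) ∧
      w ^ e.1.2.2 = (Lft f g e.1.1 e.1.2.1 e.2.1 e.2.2).eval (n : ℤ) := by
  obtain ⟨l, m, k, s, t, w, hl, hm, hk, hineq, hs, ht, hf0, hg0, hw0, hwW, hco, heq⟩ := hn
  have hwS : w.natAbs ≤ 2 ^ S := by
    have h5 : ((w.natAbs : ℕ) : ℝ) ≤ ((2 ^ S : ℕ) : ℝ) := by
      have h6 : ((w.natAbs : ℕ) : ℝ) = |(w : ℝ)| := by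
        rw [Nat.cast_natAbs, Int.cast_abs]
      rw [h6]; exact hwW.trans hW
    exact_mod_cast h5
  have ht2 : t * t = 1 := by rcases ht with rfl | rfl <;> norm_num
  have hs2 : s * s = 1 := by rcases hs with rfl | rfl <;> norm_num
  have hwabs : |w| ≤ ((2 ^ S : ℕ) : ℤ) := by
    rw [Int.abs_eq_natAbs]; exact_mod_cast hwS
  rcases hpf with hp | hp
  · obtain ⟨hlB, m', k', hm'0, hk'0, hm'B, hk'B, hi, hm'e, hk'e⟩ := hC _ _ w S l m k s t hS1 hl hm hk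
      hineq hs ht hg0 hw0 hf0 hco heq hf1 hg1 hwS hp
    refine ⟨((l, m', k'), (s, t)), ?_, w, hwabs, ?_⟩
    · simp only [Ind, mem_product, mem_filter, mem_range, mem_insert, mem_singleton]
      exact ⟨⟨⟨by omega, by omega, by omega⟩, hl, hm'0, hk'0, hi⟩, hs, ht⟩
    · simp only [Lft, eval_mul, eval_add, eval_C, eval_pow]
      rw [hk'e, hm'e, heq]
      linear_combination (-(w ^ k)) * ht2
  · have hst : s * t = 1 ∨ s * t = -1 := by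
      rcases hs with rfl | rfl <;> rcases ht with rfl | rfl <;> norm_num
    have hineq' : l * k + k * m + m * l ≤ m * l * k := by nlinarith
    have heq' : g.eval (n : ℤ) ^ m + s * f.eval (n : ℤ) ^ l = (s * t) * w ^ k := by
      linear_combination s * heq - (g.eval (n : ℤ) ^ m) * hs2
    obtain ⟨hmB, l', k', hl'0, hk'0, hl'B, hk'B, hi, hl'e, hk'e⟩ := hC _ _ w S m l k s (s * t) hS1 hm
      hl hk hineq' hs hst hf0 hw0 hg0 hco.symm heq' hg1 hf1 hwS hp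
    refine ⟨((l', m, k'), (s, t)), ?_, w, hwabs, ?_⟩
    · simp only [Ind, mem_product, mem_filter, mem_range, mem_insert, mem_singleton]
      exact ⟨⟨⟨by omega, by omega, by omega⟩, hl'0, hm, hk'0, by nlinarith⟩, hs, ht⟩
    · simp only [Lft, eval_mul, eval_add, eval_C, eval_pow]
      rw [hk'e, hl'e, heq]
      linear_combination (-(w ^ k)) * ht2

/-- the count of the exceptional integers for which `f n` or `g n` has a small odd prime factor -/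
theorem free_count : ∃ c : ℝ → ℝ, (∀ δ : ℝ, 0 < δ → 0 < c δ) ∧ ∀ f g : ℤ[X], 0 < f.natDegree →
    0 < g.natDegree → IsCoprime (f.map (Int.castRingHom ℚ)) (g.map (Int.castRingHom ℚ)) →
    ∀ P : ℕ, ∀ δ : ℝ, 0 < δ → ∃ N₀ : ℕ, ∀ N : ℕ, N₀ ≤ N →
        (({n : ℕ | 1 ≤ n ∧ n ≤ N ∧
          ((∃ p : ℕ, p.Prime ∧ p ≠ 2 ∧ p ≤ P ∧ (p : ℤ) ∣ f.eval (n : ℤ)) ∨
            (∃ p : ℕ, p.Prime ∧ p ≠ 2 ∧ p ≤ P ∧ (p : ℤ) ∣ g.eval (n : ℤ))) ∧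
          n ∈ ExcFree f g (Real.exp ((N : ℝ) ^ c δ))}.ncard : ℝ)) ≤ (N : ℝ) ^ (1 / 2 + δ) := by
  classical
  obtain ⟨C, κ, hC⟩ := exps_int
  refine ⟨fun δ => min δ 1 / (100 * (κ + 1)), fun δ hδ => by positivity, ?_⟩
  intro f g hf hg hcop P δ' hδ'
  obtain ⟨r₀, hr₀⟩ := lft_mod hf hcop
  obtain ⟨δ, hδdef⟩ : ∃ δ, δ = min δ' 1 := ⟨_, rfl⟩
  have hδ : 0 < δ := by rw [hδdef]; positivity
  have hδ1 : δ ≤ 1 := by rw [hδdef]; exact min_le_right _ _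
  have hδδ : δ ≤ δ' := by rw [hδdef]; exact min_le_left _ _
  simp only [← hδdef]
  have hg0 : g ≠ 0 := by rintro rfl; simp at hg
  obtain ⟨D, hD⟩ : ∃ D, D = f.natDegree + g.natDegree := ⟨_, rfl⟩
  obtain ⟨c₀, hc₀⟩ : ∃ c₀, c₀ = P + ht f + ht g + D + 3 := ⟨_, rfl⟩
  obtain ⟨L₁, hL₁⟩ := small_par C κ c₀ hδ hδ1
  obtain ⟨L₃, hL₃⟩ := aux_prime δ hδ r₀
  refine ⟨L₁ + L₃ + 2, fun N hN => ?_⟩
  obtain ⟨x, r, hr, hx, hx16, hx2, hxr, hr4, hr₀r, hxh⟩ := hL₃ N (by omega)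
  obtain ⟨S, hS1, hSY, hW, hp1⟩ := hL₁ N (by omega)
  have hN1 : 1 ≤ N := by omega
  have hN1R : (1 : ℝ) ≤ N := by exact_mod_cast hN1
  obtain ⟨Y, hY⟩ : ∃ Y, Y = Nat.log 2 N + 1 := ⟨_, rfl⟩
  rw [← hY] at hSY
  have hY1 : 1 ≤ Y := by omega
  have hNY : N ≤ 2 ^ Y := by rw [hY]; exact (Nat.lt_pow_succ_log_self (by norm_num) N).le
  have hc₀S : c₀ ≤ S := (Nat.le_mul_of_pos_right _ hY1).trans hSY
  obtain ⟨hz1, hz2⟩ := z_par C κ S hS1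
  obtain ⟨Z, hZ⟩ : ∃ Z, Z = (C + 8) * S ^ (κ + 1) := ⟨_, rfl⟩
  rw [← hZ] at hz1 hz2 hp1
  obtain ⟨B, hB⟩ : ∃ B, B = C * S ^ κ + 7 := ⟨_, rfl⟩
  rw [← hB] at hz1
  have hZ1 : (1 : ℝ) ≤ Z := by
    have : 1 ≤ Z := by omega
    exact_mod_cast this
  have hp2 : 60 * (Z : ℝ) ^ 6 ≤ (N : ℝ) ^ (1 / 2 : ℝ) :=
    hp1.trans (Real.rpow_le_rpow_of_exponent_le hN1R (by linarith))
  have hBr : B < r := by
    have h1 : (B : ℝ) + 1 ≤ Z := by exact_mod_cast hz1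
    have h2 : (Z : ℝ) ≤ 60 * (Z : ℝ) ^ 6 := by
      have : (Z : ℝ) ≤ (Z : ℝ) ^ 6 := le_self_pow₀ hZ1 (by norm_num)
      linarith
    have h3 : (B : ℝ) < r := by linarith
    exact_mod_cast h3
  have hbig := hbig_of (S := S) hx16 hx2 hxr hN1
  have hval : ∀ (F : ℤ[X]), F.natDegree ≤ D → ht F ≤ ht f + ht g → ∀ n : ℕ,
      1 ≤ n → n ≤ N → (F.eval (n : ℤ)).natAbs ≤ 2 ^ S := by
    intro F hFD hFh n h1 h2
    refine (eval_bound F hFD h1 (h2.trans hNY)).trans (Nat.pow_le_pow_right (by norm_num) ?_)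
    calc ht F + D * Y ≤ (ht f + ht g) * Y + D * Y :=
          Nat.add_le_add_right (hFh.trans (Nat.le_mul_of_pos_right _ hY1)) _
      _ = (ht f + ht g + D) * Y := by ring
      _ ≤ c₀ * Y := Nat.mul_le_mul_right _ (by omega)
      _ ≤ S := hSY
  obtain ⟨A, hA⟩ : ∃ A : Finset ℕ, A = (Icc 1 N).filter (fun n : ℕ => ∃ e ∈ Ind B, ∃ w : ℤ,
      |w| ≤ ((2 ^ S : ℕ) : ℤ) ∧
        w ^ e.1.2.2 = (Lft f g e.1.1 e.1.2.1 e.2.1 e.2.2).eval (n : ℤ)) := ⟨_, rfl⟩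
  have hAc := count_all (D := D) hf hg0 hcop (by omega) (by omega) hr hBr
    (fun l m s t => hr₀ r hr hr₀r l m s t) hN1 hbig A (by
      intro n hn
      rw [hA, mem_filter, mem_Icc] at hn
      exact ⟨hn.1.1, hn.1.2, hn.2⟩)
  have hsub : {n : ℕ | 1 ≤ n ∧ n ≤ N ∧
          ((∃ p : ℕ, p.Prime ∧ p ≠ 2 ∧ p ≤ P ∧ (p : ℤ) ∣ f.eval (n : ℤ)) ∨
            (∃ p : ℕ, p.Prime ∧ p ≠ 2 ∧ p ≤ P ∧ (p : ℤ) ∣ g.eval (n : ℤ))) ∧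
      n ∈ ExcFree f g (Real.exp ((N : ℝ) ^ (δ / (100 * (κ + 1)))))} ⊆ (A : Set ℕ) := by
    rintro n ⟨hn1, hnN, hnG, hn⟩
    rw [mem_coe, hA, mem_filter, mem_Icc, hB]
    refine ⟨⟨hn1, hnN⟩, mem_eq_either hC hS1 hW hn (hval f (by omega) (by omega) n hn1 hnN)
      (hval g (by omega) (by omega) n hn1 hnN) ?_⟩
    rcases hnG with ⟨p, hp, hp2, hpP, hpg⟩ | ⟨p, hp, hp2, hpP, hpg⟩
    · exact Or.inl ⟨p, hp, hp2, by omega, hpg⟩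
    · exact Or.inr ⟨p, hp, hp2, by omega, hpg⟩
  have hcard := (Set.ncard_le_ncard hsub (Finset.finite_toSet _))
  rw [Set.ncard_coe_finset] at hcard
  have hfin := final_ineq (B := B) (D := D) (S := S) (Z := Z) (N := N) hz1 hz2 (by omega) hx16 hx2 hxr hr4
  have hfin2 : ((((B + 1) ^ 3 * 4) * (B * D * (N / r + 1) + r * (B * (B * S + B * D))) : ℕ) : ℝ) ≤
      x * (60 * (Z : ℝ) ^ 6) := by
    refine le_trans ?_ hfin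
    exact_mod_cast Nat.le_add_left _ _
  have hNpos : (0 : ℝ) < N := by exact_mod_cast hN1
  calc (({n : ℕ | 1 ≤ n ∧ n ≤ N ∧
          ((∃ p : ℕ, p.Prime ∧ p ≠ 2 ∧ p ≤ P ∧ (p : ℤ) ∣ f.eval (n : ℤ)) ∨
            (∃ p : ℕ, p.Prime ∧ p ≠ 2 ∧ p ≤ P ∧ (p : ℤ) ∣ g.eval (n : ℤ))) ∧
          n ∈ ExcFree f g (Real.exp ((N : ℝ) ^ (δ / (100 * (κ + 1)))))}.ncard : ℝ))
      ≤ ((((B + 1) ^ 3 * 4) * (B * D * (N / r + 1) +
        r * (B * (B * S + B * D))) : ℕ) : ℝ) := by exact_mod_cast hcard.trans hAc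
    _ ≤ x * (60 * (Z : ℝ) ^ 6) := hfin2
    _ ≤ x * (N : ℝ) ^ (δ / 2) := mul_le_mul_of_nonneg_left hp1 (by linarith)
    _ = (N : ℝ) ^ (1 / 2 + δ) := by
        rw [hx, ← Real.rpow_add hNpos]
        congr 1
        ring
    _ ≤ (N : ℝ) ^ (1 / 2 + δ') := Real.rpow_le_rpow_of_exponent_le hN1R (by linarith)

end Pool.Agent.TH888.B1
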