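import Mathlib
import Pool.Agent.TH888.B1.PrimeArg
import Pool.Agent.TH888.B1.PrimeSieve
import Pool.Agent.TH888.B1.Roots

/-!
Two polynomial bases at prime arguments.
-/

set_option autoImplicit false

namespace Pool.Agent.TH888.B1

open Finset Polynomial Filter Topology

theorem eval_map_natCast (h : ℤ[X]) (r n : ℕ) :
    (h.map (Int.castRingHom (ZMod r))).eval (n : ZMod r) = ((h.eval (n : ℤ) : ℤ) : ZMod r) := by
  have h1 := Polynomial.eval_intCast_map (Int.castRingHom (ZMod r)) h (n : ℤ)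
  simp at h1 ⊢

open scoped Classical in
/-- if `h 0 ≠ 0`, then `h p` has a small odd prime factor for almost all primes `p` -/
theorem small_factor_prime (h : ℤ[X]) (hh : 0 < h.natDegree) (h0 : h.eval 0 ≠ 0) (ε : ℝ) (hε : 0 < ε) :
    ∃ P N₀ : ℕ, ∀ N : ℕ, N₀ ≤ N →
      ((((range (N + 1)).filter (fun p : ℕ => p.Prime ∧ ∀ r : ℕ, r.Prime → r ≠ 2 → r ≤ P →
        ¬ ((r : ℤ) ∣ h.eval (p : ℤ)))).card : ℕ) : ℝ) ≤ ε * Nat.primeCounting N := by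
  classical
  obtain ⟨Fin, hFin⟩ : ∃ Fin : Set ℕ, Fin = {r : ℕ | r = 2 ∨ (r : ℤ) ∣ h.eval 0} := ⟨_, rfl⟩
  have hfin : Fin.Finite := by
    apply (Set.finite_Icc 0 ((h.eval 0).natAbs + 2)).subset
    intro r hr
    rw [hFin] at hr
    rcases hr with hr | hr
    · exact ⟨Nat.zero_le _, by omega⟩
    · rw [Int.natCast_dvd] at hr
      have := Nat.le_of_dvd (Int.natAbs_pos.mpr h0) hr
      exact ⟨Nat.zero_le _, by omega⟩
  obtain ⟨R, hRdef⟩ : ∃ R : Set ℕ, R = RootPrimes h \ Fin := ⟨_, rfl⟩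
  have hdiv : ¬ Summable (fun r : ℕ => R.indicator (fun n : ℕ => (1 : ℝ) / n) r) := by
    rw [hRdef]
    exact diverges_diff hfin (rootPrimes_diverges h hh)
  have hex : ∀ r : ℕ, ∃ x : ZMod r, r ∈ R → (h.map (Int.castRingHom (ZMod r))).eval x = 0 := by
    intro r
    by_cases hr : r ∈ R
    · rw [hRdef] at hr
      obtain ⟨x, hx⟩ := hr.1.2
      exact ⟨x, fun _ => hx⟩
    · exact ⟨0, fun h => absurd h hr⟩
  choose ρ hρ using hex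
  have hR : ∀ r ∈ R, r.Prime ∧ r ≠ 2 := by
    intro r hr
    rw [hRdef, hFin] at hr
    exact ⟨hr.1.1, fun h2 => hr.2 (Or.inl h2)⟩
  have hρ0 : ∀ r ∈ R, ρ r ≠ 0 := by
    intro r hr h1
    have h2 := hρ r hr
    rw [h1] at h2
    have h3 := eval_map_natCast h r 0
    rw [Nat.cast_zero, h2] at h3
    have h4 : ((r : ℕ) : ℤ) ∣ h.eval 0 := by
      rw [← ZMod.intCast_zmod_eq_zero_iff_dvd] 
      simpa using h3.symm
    rw [hRdef, hFin] at hr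
    exact hr.2 (Or.inr h4)
  obtain ⟨F, hFR, N₀, hN₀⟩ := prime_avoid R hR hdiv ρ hρ0 ε hε
  refine ⟨F.sup id, N₀, fun N hN => le_trans ?_ (hN₀ N hN)⟩
  have hsub : (range (N + 1)).filter (fun p : ℕ => p.Prime ∧ ∀ r : ℕ, r.Prime → r ≠ 2 →
      r ≤ F.sup id → ¬ ((r : ℤ) ∣ h.eval (p : ℤ))) ⊆
      (range (N + 1)).filter (fun p : ℕ => p.Prime ∧ ∀ r ∈ F, (p : ZMod r) ≠ ρ r) := by
    intro p hp
    rw [mem_filter] at hp ⊢
    refine ⟨hp.1, hp.2.1, fun r hr h1 => ?_⟩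
    have h2 := hR r (hFR r hr)
    apply hp.2.2 r h2.1 h2.2 (Finset.le_sup (f := id) hr)
    have h3 := hρ r (hFR r hr)
    rw [← h1, eval_map_natCast] at h3
    exact (ZMod.intCast_zmod_eq_zero_iff_dvd _ _).mp h3
  exact_mod_cast card_le_card hsub

/-- coprime polynomials do not both vanish at `0` -/
theorem eval_zero_ne (f g : ℤ[X])
    (hcop : IsCoprime (f.map (Int.castRingHom ℚ)) (g.map (Int.castRingHom ℚ))) :
    f.eval 0 ≠ 0 ∨ g.eval 0 ≠ 0 := by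
  by_contra hcon
  push Not at hcon
  obtain ⟨a, b, hab⟩ := hcop
  have h1 := congrArg (fun F : ℚ[X] => F.eval 0) hab
  have hf : (f.map (Int.castRingHom ℚ)).eval 0 = 0 := by
    have := Polynomial.eval_intCast_map (Int.castRingHom ℚ) f 0
    simp only [Int.cast_zero] at this
    rw [this, hcon.1]; simp
  have hg : (g.map (Int.castRingHom ℚ)).eval 0 = 0 := by
    have := Polynomial.eval_intCast_map (Int.castRingHom ℚ) g 0
    simp only [Int.cast_zero] at this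
    rw [this, hcon.2]; simp
  simp [hf, hg] at h1

/-- for almost all primes `p`, `f p` and `g p` are not two bases of a primitive solution with a third
base up to `exp (p ^ c)` -/
theorem prime_main : ∃ c : ℝ, 0 < c ∧ ∀ f g : ℤ[X], 0 < f.natDegree →
    0 < g.natDegree → IsCoprime (f.map (Int.castRingHom ℚ)) (g.map (Int.castRingHom ℚ)) →
    ∀ ε : ℝ, 0 < ε → ∃ N₀ : ℕ, ∀ N : ℕ, N₀ ≤ N →
        (({p : ℕ | p ≤ N ∧ p.Prime ∧
          p ∈ ExcFree f g (Real.exp ((N : ℝ) ^ c))}.ncard : ℝ)) ≤ ε * Nat.primeCounting N := by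
  classical
  obtain ⟨c, hc, hmain⟩ := free_count
  refine ⟨c (1 / 4), hc _ (by norm_num), fun f g hf hg hcop ε hε => ?_⟩
  have hP : ∃ P N₀ : ℕ, ∀ N : ℕ, N₀ ≤ N →
      ((((range (N + 1)).filter (fun p : ℕ => p.Prime ∧
        ¬ ((∃ r : ℕ, r.Prime ∧ r ≠ 2 ∧ r ≤ P ∧ (r : ℤ) ∣ f.eval (p : ℤ)) ∨
            (∃ r : ℕ, r.Prime ∧ r ≠ 2 ∧ r ≤ P ∧ (r : ℤ) ∣ g.eval (p : ℤ))))).card : ℕ) : ℝ) ≤
        ε / 2 * Nat.primeCounting N := by
    rcases eval_zero_ne f g hcop with h0 | h0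
    · obtain ⟨P, N₀, h1⟩ := small_factor_prime f hf h0 (ε / 2) (by positivity)
      refine ⟨P, N₀, fun N hN => le_trans ?_ (h1 N hN)⟩
      have hsub : (range (N + 1)).filter (fun p : ℕ => p.Prime ∧
        ¬ ((∃ r : ℕ, r.Prime ∧ r ≠ 2 ∧ r ≤ P ∧ (r : ℤ) ∣ f.eval (p : ℤ)) ∨
            (∃ r : ℕ, r.Prime ∧ r ≠ 2 ∧ r ≤ P ∧ (r : ℤ) ∣ g.eval (p : ℤ)))) ⊆
          (range (N + 1)).filter (fun p : ℕ => p.Prime ∧ ∀ r : ℕ, r.Prime → r ≠ 2 → r ≤ P →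
        ¬ ((r : ℤ) ∣ f.eval (p : ℤ))) := by
        intro p hp
        rw [mem_filter] at hp ⊢
        exact ⟨hp.1, hp.2.1, fun r h2 h3 h4 h5 => hp.2.2 (Or.inl ⟨r, h2, h3, h4, h5⟩)⟩
      exact_mod_cast card_le_card hsub
    · obtain ⟨P, N₀, h1⟩ := small_factor_prime g hg h0 (ε / 2) (by positivity)
      refine ⟨P, N₀, fun N hN => le_trans ?_ (h1 N hN)⟩
      have hsub : (range (N + 1)).filter (fun p : ℕ => p.Prime ∧
        ¬ ((∃ r : ℕ, r.Prime ∧ r ≠ 2 ∧ r ≤ P ∧ (r : ℤ) ∣ f.eval (p : ℤ)) ∨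
            (∃ r : ℕ, r.Prime ∧ r ≠ 2 ∧ r ≤ P ∧ (r : ℤ) ∣ g.eval (p : ℤ)))) ⊆
          (range (N + 1)).filter (fun p : ℕ => p.Prime ∧ ∀ r : ℕ, r.Prime → r ≠ 2 → r ≤ P →
        ¬ ((r : ℤ) ∣ g.eval (p : ℤ))) := by
        intro p hp
        rw [mem_filter] at hp ⊢
        exact ⟨hp.1, hp.2.1, fun r h2 h3 h4 h5 => hp.2.2 (Or.inr ⟨r, h2, h3, h4, h5⟩)⟩
      exact_mod_cast card_le_card hsub
  obtain ⟨P, N₁, hN₁⟩ := hP
  obtain ⟨N₂, hN₂⟩ := hmain f g hf hg hcop P (1 / 4) (by norm_num)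
  obtain ⟨N₃, hN₃⟩ := pi_lower
  -- `N ^ (3/4) ≤ ε/4 * N / log N`
  obtain ⟨N₄, hN₄⟩ : ∃ N₄ : ℕ, ∀ N : ℕ, N₄ ≤ N →
      (N : ℝ) ^ (1 / 2 + 1 / 4 : ℝ) ≤ ε / 4 * (N / Real.log N) := by
    have h1 := (isLittleO_log_rpow_atTop (r := 1 / 4) (by norm_num)).comp_tendsto
      tendsto_natCast_atTop_atTop
    have h2 := h1.bound (show (0 : ℝ) < ε / 4 by positivity)
    obtain ⟨L, hL⟩ := eventually_atTop.mp h2
    refine ⟨L + 3, fun N hN => ?_⟩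
    have h3 := hL N (by omega)
    have hNpos : (0 : ℝ) < N := by
      have : 0 < N := by omega
      exact_mod_cast this
    have hlog : 0 < Real.log N := Real.log_pos (by
      have : 1 < N := by omega
      exact_mod_cast this)
    simp only [Function.comp, Real.norm_eq_abs] at h3
    rw [abs_of_pos hlog, abs_of_nonneg (Real.rpow_nonneg hNpos.le _)] at h3
    rw [← mul_div_assoc, le_div_iff₀ hlog]
    calc (N : ℝ) ^ (1 / 2 + 1 / 4 : ℝ) * Real.log N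
        ≤ (N : ℝ) ^ (1 / 2 + 1 / 4 : ℝ) * (ε / 4 * (N : ℝ) ^ (1 / 4 : ℝ)) :=
          mul_le_mul_of_nonneg_left h3 (Real.rpow_nonneg hNpos.le _)
      _ = ε / 4 * ((N : ℝ) ^ (1 / 2 + 1 / 4 : ℝ) * (N : ℝ) ^ (1 / 4 : ℝ)) := by ring
      _ = ε / 4 * N := by
          rw [← Real.rpow_add hNpos]
          norm_num
  refine ⟨N₁ + N₂ + N₃ + N₄, fun N hN => ?_⟩
  have h1 := hN₁ N (by omega)
  have h2 := hN₂ N (by omega)
  have h3 := hN₃ N (by omega)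
  have h4 := hN₄ N (by omega)
  obtain ⟨U, hU⟩ : ∃ U : Set ℕ, U = {n : ℕ | 1 ≤ n ∧ n ≤ N ∧
          ((∃ p : ℕ, p.Prime ∧ p ≠ 2 ∧ p ≤ P ∧ (p : ℤ) ∣ f.eval (n : ℤ)) ∨
            (∃ p : ℕ, p.Prime ∧ p ≠ 2 ∧ p ≤ P ∧ (p : ℤ) ∣ g.eval (n : ℤ))) ∧
          n ∈ ExcFree f g (Real.exp ((N : ℝ) ^ c (1 / 4)))} := ⟨_, rfl⟩
  rw [← hU] at h2
  obtain ⟨V, hV⟩ : ∃ V : Finset ℕ, V = (range (N + 1)).filter (fun p : ℕ => p.Prime ∧
        ¬ ((∃ r : ℕ, r.Prime ∧ r ≠ 2 ∧ r ≤ P ∧ (r : ℤ) ∣ f.eval (p : ℤ)) ∨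
            (∃ r : ℕ, r.Prime ∧ r ≠ 2 ∧ r ≤ P ∧ (r : ℤ) ∣ g.eval (p : ℤ)))) := ⟨_, rfl⟩
  rw [← hV] at h1
  have hUfin : U.Finite := by
    apply (Set.finite_Icc 0 N).subset
    intro n hn
    rw [hU] at hn
    exact ⟨Nat.zero_le _, hn.2.1⟩
  have hsub : {p : ℕ | p ≤ N ∧ p.Prime ∧
          p ∈ ExcFree f g (Real.exp ((N : ℝ) ^ c (1 / 4)))} ⊆ (V : Set ℕ) ∪ U := by
    rintro p ⟨hpN, hp, hpE⟩
    by_cases hsm : (∃ r : ℕ, r.Prime ∧ r ≠ 2 ∧ r ≤ P ∧ (r : ℤ) ∣ f.eval (p : ℤ)) ∨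
            (∃ r : ℕ, r.Prime ∧ r ≠ 2 ∧ r ≤ P ∧ (r : ℤ) ∣ g.eval (p : ℤ))
    · right
      rw [hU]
      exact ⟨hp.one_lt.le, hpN, hsm, hpE⟩
    · left
      rw [hV, mem_coe, mem_filter, mem_range]
      exact ⟨by omega, hp, hsm⟩
  have hc1 := Set.ncard_le_ncard hsub ((Finset.finite_toSet V).union hUfin)
  have hc2 := Set.ncard_union_le (V : Set ℕ) U
  rw [Set.ncard_coe_finset] at hc2
  have hc3 : (({p : ℕ | p ≤ N ∧ p.Prime ∧
          p ∈ ExcFree f g (Real.exp ((N : ℝ) ^ c (1 / 4)))}.ncard : ℝ)) ≤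
      (V.card : ℝ) + (U.ncard : ℝ) := by exact_mod_cast hc1.trans hc2
  have h5 : ε / 4 * ((N : ℝ) / Real.log N) ≤ ε / 4 * (2 * (Nat.primeCounting N : ℝ)) :=
    mul_le_mul_of_nonneg_left h3 (by positivity)
  linarith

end Pool.Agent.TH888.B1
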