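import Mathlib
import Pool.Agent.H374R2.BealRes
import Pool.Agent.H755R5.Kum.Stmts

/-!
The descent for the bases `u`, `u + q` and the exponent `q`, `q` an odd prime.
-/

set_option autoImplicit false

namespace Pool.Agent.TH888.B1

open Pool.Agent.H374R2.Beal Pool.Agent.H755R5.Kum

/-- `factor_step` of `Pool.Agent.H374R2.BealAlg` for `k = 0` with the two cases kept apart. -/
theorem factor_step' {q : ℕ} (hq : q.Prime) (hq2 : q ≠ 2) {a b w : ℤ}
    (hab : IsCoprime a b) (h0 : a + b ≠ 0) (h : a ^ q + b ^ q = w ^ q) :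
    (∃ w' : ℤ, a + b = w' ^ q) ∨ ((q : ℤ) ∣ a + b ∧ ∃ w' : ℤ, (q : ℤ) * (a + b) = w' ^ q) := by
  have hodd : Odd q := hq.odd_of_ne_two hq2
  have : Fact q.Prime := ⟨hq⟩
  have hqZ : Prime (q : ℤ) := Nat.prime_iff_prime_int.mp hq
  set Q : ℤ := ∑ i ∈ Finset.range q, a ^ i * (-b) ^ (q - 1 - i) with hQ
  have hfac : (a + b) * Q = a ^ q + b ^ q := by
    have h1 := geom_sum₂_mul a (-b) q
    rw [hodd.neg_pow, sub_neg_eq_add, sub_neg_eq_add] at h1
    rw [mul_comm, ← h1]
  have key : ∀ p : ℤ, Prime p → p ∣ a + b → p ∣ Q → p ∣ (q : ℤ) := by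
    intro p hp h1 h2
    have h3 : p ∣ a - (-b) := by rwa [sub_neg_eq_add]
    have h4 := (dvd_geom_sum₂_iff_of_dvd_sub (n := q) h3).mp h2
    rcases hp.dvd_or_dvd h4 with h5 | h5
    · exact_mod_cast h5
    · exfalso
      have h6 : p ∣ b := by
        have := hp.dvd_of_dvd_pow h5
        rwa [dvd_neg] at this
      have h7 : p ∣ a := (dvd_add_left h6).mp h1
      exact hp.not_isUnit (hab.isUnit_of_dvd' h7 h6)
  rw [← hfac] at h
  by_cases hdiv : (q : ℤ) ∣ a + b
  · right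
    refine ⟨hdiv, ?_⟩
    have hqa : ¬ (q : ℤ) ∣ a := by
      intro h1
      have h2 : (q : ℤ) ∣ b := (dvd_add_right h1).mp hdiv
      exact hqZ.not_isUnit (hab.isUnit_of_dvd' h1 h2)
    have hem := Int.emultiplicity_pow_add_pow (p := q) hq hodd hdiv hqa hodd
    rw [← hfac, emultiplicity_mul hqZ] at hem
    have hfin : FiniteMultiplicity (q : ℤ) (a + b) :=
      Int.finiteMultiplicity_iff.mpr ⟨by
        rw [Int.natAbs_natCast]; exact hq.one_lt.ne', h0⟩
    have hem1 : emultiplicity (q : ℤ) Q = 1 := by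
      have h8 : emultiplicity q q = 1 := by
        have hf : FiniteMultiplicity q q :=
          Nat.finiteMultiplicity_iff.mpr ⟨hq.one_lt.ne', hq.pos⟩
        rw [hf.emultiplicity_eq_multiplicity]
        simp [multiplicity_self]
      rw [h8, hfin.emultiplicity_eq_multiplicity] at hem
      have h9 : (multiplicity (q:ℤ) (a + b) : ℕ∞) ≠ ⊤ := ENat.natCast_ne_top _
      exact (ENat.add_right_injective_of_ne_top h9) hem
    have hQ1 : (q : ℤ) ∣ Q := by
      have := (emultiplicity_eq_coe (n := 1)).mp (by simpa using hem1)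
      simpa using this.1
    have hQ2 : ¬ (q : ℤ) ^ 2 ∣ Q := by
      have := (emultiplicity_eq_coe (n := 1)).mp (by simpa using hem1)
      simpa using this.2
    obtain ⟨Q', hQ'⟩ := hQ1
    have hqQ' : ¬ (q : ℤ) ∣ Q' := by
      rintro ⟨c, hc⟩
      exact hQ2 ⟨c, by rw [hQ', hc]; ring⟩
    have hcop : IsCoprime ((q : ℤ) * (a + b)) Q' := by
      apply isCoprime_of_prime_dvd
      · rintro ⟨h1, -⟩
        rcases mul_eq_zero.mp h1 with h2 | h2
        · exact hqZ.ne_zero h2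
        · exact h0 h2
      · intro p hp h1 h2
        rcases hp.dvd_or_dvd h1 with h3 | h3
        · have h5 : Associated p (q : ℤ) := hp.associated_of_dvd hqZ h3
          exact hqQ' (h5.symm.dvd.trans h2)
        · have h4 := key p hp h3 (hQ' ▸ Dvd.dvd.mul_left h2 _)
          have h5 : Associated p (q : ℤ) := hp.associated_of_dvd hqZ h4
          exact hqQ' (h5.symm.dvd.trans h2)
    have h10 : ((q : ℤ) * (a + b)) * Q' = w ^ q := by
      rw [← h, hQ']; ring
    obtain ⟨d, hd⟩ := (Int.eq_pow_of_mul_eq_pow_odd hcop hodd h10).1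
    exact ⟨d, hd⟩
  · left
    have hqQ : ¬ (q : ℤ) ∣ Q := by
      intro h1
      apply hdiv
      have h2 : (q : ℤ) ∣ a ^ q + b ^ q := hfac ▸ Dvd.dvd.mul_left h1 _
      have h3 : ((a ^ q + b ^ q : ℤ) : ZMod q) = ((a + b : ℤ) : ZMod q) := by
        push_cast
        rw [ZMod.pow_card, ZMod.pow_card]
      rw [← ZMod.intCast_zmod_eq_zero_iff_dvd] at h2 ⊢
      rw [← h3]; exact h2
    have hcop : IsCoprime (a + b) Q := by
      apply isCoprime_of_prime_dvd
      · rintro ⟨h1, -⟩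
        exact h0 h1
      · intro p hp h3 h2
        have h4 := key p hp h3 h2
        have h5 : Associated p (q : ℤ) := hp.associated_of_dvd hqZ h4
        exact hqQ (h5.symm.dvd.trans h2)
    obtain ⟨d, hd⟩ := (Int.eq_pow_of_mul_eq_pow_odd hcop hodd h).1
    exact ⟨d, hd⟩

/-- `A ^ q ≡ c (mod q)` with `c = ± 1` implies `A ^ q ≡ c (mod q ^ 2)` -/
theorem lift_sq {q : ℕ} (hq : q.Prime) (hq2 : q ≠ 2) {A c : ℤ} (hc : c = 1 ∨ c = -1)
    (h : (q : ℤ) ∣ A ^ q - c) : (q : ℤ) ^ 2 ∣ A ^ q - c := by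
  have : Fact q.Prime := ⟨hq⟩
  have hodd : Odd q := hq.odd_of_ne_two hq2
  have hcq : c ^ q = c := by
    rcases hc with rfl | rfl
    · simp
    · rw [hodd.neg_one_pow]
  have h1 : (q : ℤ) ∣ A - c := by
    rw [← ZMod.intCast_zmod_eq_zero_iff_dvd] at h ⊢
    push_cast at h ⊢
    rwa [ZMod.pow_card] at h
  have h2 := dvd_sub_pow_of_dvd_sub h1 1
  rw [pow_one, hcq] at h2
  exact h2

/-- The second case does not occur for the bases `u` and `u + q`. -/
theorem second_case {q : ℕ} (hq : q.Prime) (hq2 : q ≠ 2) {u : ℤ} (hu : ¬ (q : ℤ) ∣ u)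
    {ε : ℤ} (hε : ε = 1 ∨ ε = -1) {x y : ℕ} (hx : q ∣ x + 1) (hy : q ∣ y + 1)
    (h : (q : ℤ) ^ 2 ∣ u ^ x + ε * (u + q) ^ y) : False := by
  have hqZ : Prime (q : ℤ) := Nat.prime_iff_prime_int.mp hq
  have hy' : ¬ q ∣ y := by
    intro h1
    have h2 := (Nat.dvd_add_right h1).mp hy
    exact hq.one_lt.ne' (Nat.dvd_one.mp h2)
  have hy1 : 1 ≤ y := by
    rcases Nat.eq_zero_or_pos y with h0 | h0
    · exact absurd (h0 ▸ dvd_zero q) hy'
    · exact h0
  -- binomial expansion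
  have hbin : (q : ℤ) ^ 2 ∣ u * (u + q) ^ y - u ^ y * (u + y * q) := by
    obtain ⟨c, hc⟩ := Polynomial.powAddExpansion u (q : ℤ) y
    refine ⟨u * c, ?_⟩
    rw [hc]
    have h1 : u * u ^ (y - 1) = u ^ y := by
      rw [← pow_succ', Nat.sub_add_cancel hy1]
    linear_combination ((y : ℤ) * q) * h1
  have hmain : (q : ℤ) ^ 2 ∣ u ^ (x + 1) + ε * (u ^ y * (u + y * q)) := by
    have h1 : u ^ (x + 1) + ε * (u ^ y * (u + y * q)) =
        u * (u ^ x + ε * (u + q) ^ y) - ε * (u * (u + q) ^ y - u ^ y * (u + y * q)) := by ring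
    rw [h1]
    exact dvd_sub (Dvd.dvd.mul_left h _) (Dvd.dvd.mul_left hbin _)
  have hcopn : ∀ m : ℕ, IsCoprime ((q : ℤ) ^ 2) (u ^ m) := fun m =>
    (((Prime.coprime_iff_not_dvd hqZ).mpr hu).pow)
  have hfin : (q : ℤ) ^ 2 ∣ (y : ℤ) * q → False := by
    rintro ⟨c, hc⟩
    have hq0 : (q : ℤ) ≠ 0 := hqZ.ne_zero
    have h1 : (y : ℤ) = q * c := by
      have : (q : ℤ) * y = q * (q * c) := by linear_combination hc
      exact mul_left_cancel₀ hq0 this
    apply hy'
    have : (q : ℤ) ∣ (y : ℤ) := ⟨c, h1⟩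
    exact_mod_cast this
  have hεε : ε * ε = 1 := by rcases hε with rfl | rfl <;> norm_num
  have hnε : -ε = 1 ∨ -ε = -1 := by rcases hε with rfl | rfl <;> simp
  have hqd : ∀ {A : ℤ}, (q : ℤ) ^ 2 ∣ A → (q : ℤ) ∣ A := fun hA =>
    (dvd_pow_self (q : ℤ) two_ne_zero).trans hA
  rcases le_total y x with hyx | hxy
  · obtain ⟨d, rfl⟩ := Nat.exists_eq_add_of_le hyx
    have hd : q ∣ d := by
      have h1 : y + d + 1 = (y + 1) + d := by ring
      rw [h1] at hx
      exact (Nat.dvd_add_right hy).mp hx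
    obtain ⟨d', rfl⟩ := hd
    have h1 : (q : ℤ) ^ 2 ∣ u ^ y * (u * (u ^ (q * d') + ε) + ε * (y * q)) := by
      have : u ^ y * (u * (u ^ (q * d') + ε) + ε * (y * q)) =
        u ^ (y + q * d' + 1) + ε * (u ^ y * (u + y * q)) := by ring
      rw [this]; exact hmain
    have h2 := (hcopn y).dvd_of_dvd_mul_left h1
    have h3 : (q : ℤ) ∣ u * (u ^ (q * d') + ε) := by
      have h4 := hqd h2
      exact (dvd_add_left (Dvd.dvd.mul_left (Dvd.intro_left _ rfl) _)).mp h4
    have h4 : (q : ℤ) ∣ (u ^ d') ^ q - (-ε) := by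
      have h5 := (hqZ.dvd_or_dvd h3).resolve_left hu
      rw [← pow_mul, mul_comm d' q, sub_neg_eq_add]; exact h5
    have h5 := lift_sq hq hq2 hnε h4
    rw [← pow_mul, mul_comm d' q, sub_neg_eq_add] at h5
    have h6 : (q : ℤ) ^ 2 ∣ ε * (y * q) := (dvd_add_right (Dvd.dvd.mul_left h5 u)).mp h2
    apply hfin
    have h7 : (y : ℤ) * q = ε * (ε * (y * q)) := by linear_combination (-(y : ℤ) * q) * hεε
    rw [h7]; exact Dvd.dvd.mul_left h6 _
  · obtain ⟨e, rfl⟩ := Nat.exists_eq_add_of_le hxy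
    have he : q ∣ e := by
      have h1 : x + e + 1 = (x + 1) + e := by ring
      rw [h1] at hy
      exact (Nat.dvd_add_right hx).mp hy
    obtain ⟨e', rfl⟩ := he
    have h1 : (q : ℤ) ^ 2 ∣ u ^ x * (u * (1 + ε * u ^ (q * e')) +
        u ^ (q * e') * (ε * ((x + q * e' : ℕ) * q))) := by
      have : u ^ x * (u * (1 + ε * u ^ (q * e')) + u ^ (q * e') * (ε * ((x + q * e' : ℕ) * q))) =
        u ^ (x + 1) + ε * (u ^ (x + q * e') * (u + (x + q * e' : ℕ) * q)) := by ring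
      rw [this]; exact hmain
    have h2 := (hcopn x).dvd_of_dvd_mul_left h1
    have h3 : (q : ℤ) ∣ u * (1 + ε * u ^ (q * e')) := by
      have h4 := hqd h2
      exact (dvd_add_left (Dvd.dvd.mul_left (Dvd.dvd.mul_left (Dvd.intro_left _ rfl) _) _)).mp h4
    have h4 : (q : ℤ) ∣ (u ^ e') ^ q - (-ε) := by
      have h5 := (hqZ.dvd_or_dvd h3).resolve_left hu
      have h6 : (u ^ e') ^ q - (-ε) = ε * (1 + ε * u ^ (q * e')) := by
        rw [← pow_mul, mul_comm e' q]
        linear_combination (- u ^ (q * e')) * hεε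
      rw [h6]; exact Dvd.dvd.mul_left h5 _
    have h5 := lift_sq hq hq2 hnε h4
    have h5' : (q : ℤ) ^ 2 ∣ 1 + ε * u ^ (q * e') := by
      have h6 : 1 + ε * u ^ (q * e') = ε * ((u ^ e') ^ q - (-ε)) := by
        rw [← pow_mul, mul_comm e' q]
        linear_combination (-1 : ℤ) * hεε
      rw [h6]; exact Dvd.dvd.mul_left h5 _
    have h6 : (q : ℤ) ^ 2 ∣ u ^ (q * e') * (ε * ((x + q * e' : ℕ) * q)) :=
      (dvd_add_right (Dvd.dvd.mul_left h5' u)).mp h2
    have h7 := (hcopn (q * e')).dvd_of_dvd_mul_left h6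
    apply hfin
    have h8 : ((x + q * e' : ℕ) : ℤ) * q = ε * (ε * ((x + q * e' : ℕ) * q)) := by
      linear_combination (-((x + q * e' : ℕ) : ℤ) * q) * hεε
    rw [h8]; exact Dvd.dvd.mul_left h7 _

/-- No solution for the bases `u`, `u + q` and the exponent `q`, if `u` and `u + q` have prime
factors `r ≡ 1 (mod q)` modulo which `q` is not a `q`-th power. -/
theorem no_sol_q {q : ℕ} (hq : q.Prime) (hq2 : q ≠ 2) {u : ℕ} (hu : ¬ q ∣ u)
    (h1 : ∃ r ∈ NonRes q q, r ∣ u) (h2 : ∃ r ∈ NonRes q q, r ∣ u + q) {ε : ℤ}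
    (hε : ε = 1 ∨ ε = -1) :
    ∀ (x y : ℕ) (w : ℤ), 0 < x → 0 < y → (u : ℤ) ^ x + ε * ((u + q : ℕ) : ℤ) ^ y = w ^ q →
      False := by
  have hodd : Odd q := hq.odd_of_ne_two hq2
  have hqZ : Prime (q : ℤ) := Nat.prime_iff_prime_int.mp hq
  have hεq : ε ^ q = ε := by
    rcases hε with rfl | rfl
    · simp
    · rw [hodd.neg_one_pow]
  have hεε : ε * ε = 1 := by rcases hε with rfl | rfl <;> norm_num
  have huv : Nat.Coprime u (u + q) := by
    rw [Nat.coprime_self_add_right]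
    exact (Nat.Prime.coprime_iff_not_dvd hq).mpr hu |>.symm
  obtain ⟨r, ⟨⟨hr, hqr⟩, hrn⟩, hru⟩ := h1
  obtain ⟨r', ⟨⟨hr', hqr'⟩, hrn'⟩, hru'⟩ := h2
  have : Fact r.Prime := ⟨hr⟩
  have : Fact r'.Prime := ⟨hr'⟩
  have hr0 : ((u : ℤ) : ZMod r) = 0 := by
    rw [Int.cast_natCast]; exact (ZMod.natCast_eq_zero_iff u r).mpr hru
  have hr0' : (((u + q : ℕ) : ℤ) : ZMod r') = 0 := by
    rw [Int.cast_natCast]; exact (ZMod.natCast_eq_zero_iff _ r').mpr hru'
  have hvr : (((u + q : ℕ) : ℤ) : ZMod r) = (q : ZMod r) := by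
    push_cast
    rw [Int.cast_natCast] at hr0
    rw [hr0, zero_add]
  have hur' : ((u : ℤ) : ZMod r') = -(q : ZMod r') := by
    have h3 : (u : ZMod r') + (q : ZMod r') = 0 := by
      have := hr0'
      push_cast at this
      exact this
    rw [Int.cast_natCast]
    linear_combination h3
  have hε1 : ((ε : ℤ) : ZMod r) ^ q = (ε : ZMod r) := by
    have := congrArg (fun z : ℤ => (z : ZMod r)) hεq
    simpa using this
  have hεε1 : ((ε : ℤ) : ZMod r) * (ε : ZMod r) = 1 := by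
    have := congrArg (fun z : ℤ => (z : ZMod r)) hεε
    simpa using this
  -- the residue conditions for `q ^ s * (u ^ x + ε v ^ y) = w ^ q`
  have resy : ∀ (s x y : ℕ) (w : ℤ), 0 < x →
      (q : ℤ) ^ s * ((u : ℤ) ^ x + ε * ((u + q : ℕ) : ℤ) ^ y) = w ^ q → q ∣ s + y := by
    intro s x y w hx h
    have h3 := congrArg (fun z : ℤ => (z : ZMod r)) h
    simp only [Int.cast_mul, Int.cast_pow, Int.cast_add, hr0, hvr] at h3
    rw [zero_pow hx.ne', zero_add, Int.cast_natCast] at h3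
    refine dvd_of_pow_isPow hq hrn (s := (ε : ZMod r) * (w : ZMod r)) ?_
    rw [mul_pow, hε1, ← h3, pow_add]
    linear_combination ((q : ZMod r) ^ s * (q : ZMod r) ^ y) * hεε1
  have resx : ∀ (s x y : ℕ) (w : ℤ), 0 < y →
      (q : ℤ) ^ s * ((u : ℤ) ^ x + ε * ((u + q : ℕ) : ℤ) ^ y) = w ^ q → q ∣ s + x := by
    intro s x y w hy h
    have h3 := congrArg (fun z : ℤ => (z : ZMod r')) h
    simp only [Int.cast_mul, Int.cast_pow, Int.cast_add, hr0', hur'] at h3
    rw [zero_pow hy.ne', mul_zero, add_zero, Int.cast_natCast] at h3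
    refine dvd_of_pow_isPow hq hrn' (s := (-1) ^ x * (w : ZMod r')) ?_
    rw [mul_pow, ← h3, pow_add, neg_pow (q : ZMod r') x, ← pow_mul, mul_comm x q, pow_mul,
      hodd.neg_one_pow]
    have h4 : ((-1 : ZMod r') ^ x) * (-1) ^ x = 1 := by
      rw [← mul_pow]; simp
    linear_combination ((q : ZMod r') ^ s * (q : ZMod r') ^ x) * h4
  intro x
  induction x using Nat.strong_induction_on with
  | _ x ih =>
    intro y w hx hy h
    have hqy : q ∣ y := by
      have := resy 0 x y w hx (by rw [pow_zero, one_mul]; exact h)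
      rwa [zero_add] at this
    have hqx : q ∣ x := by
      have := resx 0 x y w hy (by rw [pow_zero, one_mul]; exact h)
      rwa [zero_add] at this
    obtain ⟨x', rfl⟩ := hqx
    obtain ⟨y', rfl⟩ := hqy
    have hx' : 0 < x' := by
      rcases Nat.eq_zero_or_pos x' with h0 | h0
      · subst h0; simp at hx
      · exact h0
    have hy' : 0 < y' := by
      rcases Nat.eq_zero_or_pos y' with h0 | h0
      · subst h0; simp at hy
      · exact h0
    have hcop : IsCoprime ((u : ℤ) ^ x') (ε * ((u + q : ℕ) : ℤ) ^ y') := by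
      have h3 : IsCoprime (u : ℤ) ((u + q : ℕ) : ℤ) := Nat.isCoprime_iff_coprime.mpr huv
      have h4 : IsCoprime ((u : ℤ) ^ x') (((u + q : ℕ) : ℤ) ^ y') := h3.pow
      rcases hε with rfl | rfl
      · simpa using h4
      · simpa using h4.neg_right
    have hu1 : u ≠ 1 := by
      rintro rfl
      exact hr.one_lt.ne' (Nat.dvd_one.mp hru)
    have h0 : (u : ℤ) ^ x' + ε * ((u + q : ℕ) : ℤ) ^ y' ≠ 0 := by
      intro h3
      have h4 : (ε * ((u + q : ℕ) : ℤ) ^ y') = - (u : ℤ) ^ x' := by linear_combination h3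
      rw [h4] at hcop
      have h5 : IsUnit ((u : ℤ) ^ x') := by
        have := hcop.neg_right
        rw [neg_neg] at this
        exact isCoprime_self.mp this
      have h6 : IsUnit (u : ℤ) := (isUnit_pow_iff hx'.ne').mp h5
      apply hu1
      have := Int.isUnit_iff_natAbs_eq.mp h6
      simpa using this
    have h3 : ((u : ℤ) ^ x') ^ q + (ε * ((u + q : ℕ) : ℤ) ^ y') ^ q = w ^ q := by
      rw [mul_pow, hεq, ← pow_mul, ← pow_mul, mul_comm x' q, mul_comm y' q]; exact h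
    rcases factor_step' hq hq2 hcop h0 h3 with ⟨w', hw'⟩ | ⟨hd, w', hw'⟩
    · have hlt : x' < q * x' := by
        have := hq.one_lt
        nlinarith
      exact ih x' hlt y' w' hx' hy' hw'
    · have e1 := resy 1 x' y' w' hx' (by rw [pow_one]; exact hw')
      have e2 := resx 1 x' y' w' hy' (by rw [pow_one]; exact hw')
      have hw1 : (q : ℤ) ∣ w' := hqZ.dvd_of_dvd_pow (n := q) (by rw [← hw']; exact Dvd.intro _ rfl)
      obtain ⟨t, rfl⟩ := hw1
      have h4 : (u : ℤ) ^ x' + ε * ((u + q : ℕ) : ℤ) ^ y' = (q : ℤ) ^ (q - 1) * t ^ q := by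
        have h5 : (q : ℤ) * ((u : ℤ) ^ x' + ε * ((u + q : ℕ) : ℤ) ^ y') =
            q * ((q : ℤ) ^ (q - 1) * t ^ q) := by
          rw [hw', mul_pow, ← mul_assoc, ← pow_succ', Nat.sub_add_cancel hq.pos]
        exact mul_left_cancel₀ hqZ.ne_zero h5
      have hq3 : 2 ≤ q - 1 := by
        have := hq.two_le
        omega
      have h5 : (q : ℤ) ^ 2 ∣ (u : ℤ) ^ x' + ε * ((u : ℤ) + q) ^ y' := by
        have h6 : ((u + q : ℕ) : ℤ) = (u : ℤ) + q := by push_cast; ring
        rw [h6] at h4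
        rw [h4]
        exact Dvd.dvd.mul_right (pow_dvd_pow _ hq3) _
      exact second_case hq hq2 (by exact_mod_cast hu) hε (by rw [add_comm]; exact e2)
        (by rw [add_comm]; exact e1) h5

end Pool.Agent.TH888.B1
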