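import Mathlib

/-!
The equation `X ^ 4 = W ^ 4 + Y ^ 2` has no solutions in positive integers with `X`, `W` coprime.
-/

set_option autoImplicit false

namespace Pool.Agent.TH888.B1

theorem pos_sq {a b c : ℤ} (h : IsCoprime a b) (heq : a * b = c ^ 2) (ha : 0 < a) :
    ∃ a0 : ℤ, 0 < a0 ∧ a = a0 ^ 2 := by
  obtain ⟨a0, h1 | h1⟩ := Int.sq_of_isCoprime h heq
  · rcases lt_trichotomy a0 0 with h2 | h2 | h2
    · exact ⟨-a0, by omega, by rw [h1]; ring⟩
    · subst h2; simp at h1; omega
    · exact ⟨a0, h2, h1⟩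
  · exfalso
    nlinarith [sq_nonneg a0]

/-- the second step of the descent -/
theorem step2 {X b c : ℤ} (hX : 0 < X) (hb : 0 < b) (hc : 0 < c) (hbo : b % 2 = 1)
    (hcop : IsCoprime b c) (h : X ^ 2 = b ^ 4 + 4 * c ^ 4) :
    ∃ e f : ℤ, 0 < e ∧ 0 < f ∧ e < X ∧ IsCoprime e f ∧ e ^ 4 = f ^ 4 + b ^ 2 := by
  have hpt : PythagoreanTriple (b ^ 2) (2 * c ^ 2) X := by
    unfold PythagoreanTriple
    linear_combination -h
  have hgcd : Int.gcd (b ^ 2) (2 * c ^ 2) = 1 := by
    rw [← Int.isCoprime_iff_gcd_eq_one]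
    apply IsCoprime.mul_right
    · have h2 : IsCoprime b 2 := by
        rw [Int.isCoprime_iff_gcd_eq_one, Int.gcd_comm]
        have : Odd b := Int.odd_iff.mpr hbo
        exact Int.isCoprime_iff_gcd_eq_one.mp (Int.isCoprime_two_left.mpr this)
      exact h2.pow_left
    · exact hcop.pow
  have hpar : b ^ 2 % 2 = 1 := by
    have : Odd (b ^ 2) := (Int.odd_iff.mpr hbo).pow
    exact Int.odd_iff.mp this
  obtain ⟨p, s, h1, h2, h3, h4, -, h6⟩ := hpt.coprime_classification' hgcd hpar hX
  have hps : p * s = c ^ 2 := by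
    have : 2 * (p * s) = 2 * c ^ 2 := by rw [h2]; ring
    linarith
  have hc2 : 0 < c ^ 2 := by positivity
  have hp : 0 < p := by
    rcases h6.lt_or_eq with h7 | h7
    · exact h7
    · rw [← h7, zero_mul] at hps; omega
  have hs : 0 < s := by
    by_contra hs
    have : p * s ≤ 0 := mul_nonpos_of_nonneg_of_nonpos hp.le (not_lt.mp hs)
    omega
  have hcop' : IsCoprime p s := Int.isCoprime_iff_gcd_eq_one.mpr h4
  obtain ⟨e, he, rfl⟩ := pos_sq hcop' hps hp
  obtain ⟨f, hf, rfl⟩ := pos_sq hcop'.symm (by rw [mul_comm]; exact hps) hs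
  refine ⟨e, f, he, hf, ?_, ?_, ?_⟩
  · rw [h3]
    have h7 : 1 ≤ e := he
    have h8 : 1 ≤ f := hf
    nlinarith [pow_pos hf 2, pow_pos he 2, pow_pos hf 4, pow_pos he 3, pow_le_pow_right₀ h7 (show 1 ≤ 4 by norm_num), pow_pos hf 4]
  · exact (IsCoprime.pow_iff (by norm_num : 0 < 2) (by norm_num : 0 < 2)).mp hcop'
  · linear_combination -h1

theorem no_sol_four : ∀ (N : ℕ) (X W Y : ℤ), X.natAbs = N → 0 < X → 0 < W → 0 < Y →
    IsCoprime X W → X ^ 4 ≠ W ^ 4 + Y ^ 2 := by
  intro N
  induction N using Nat.strong_induction_on with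
  | _ N ih =>
    intro X W Y hN hX hW hY hcop h
    have hYW : IsCoprime Y W := by
      have h1 : IsCoprime (Y ^ 2) (W ^ 4) := by
        have h2 : IsCoprime (X ^ 4) (W ^ 4) := hcop.pow
        have h3 : X ^ 4 = Y ^ 2 + W ^ 4 * 1 := by linarith
        rw [h3] at h2
        exact (IsCoprime.add_mul_left_left_iff).mp h2
      exact (IsCoprime.pow_iff (by norm_num) (by norm_num)).mp h1
    rcases Int.emod_two_eq_zero_or_one W with hWp | hWp
    · -- `W` even
      have hWe : Even W := Int.even_iff.mpr hWp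
      have hYo : Y % 2 = 1 := by
        rcases Int.emod_two_eq_zero_or_one Y with h1 | h1
        · exfalso
          have h2 : (2 : ℤ) ∣ Y := Int.dvd_of_emod_eq_zero h1
          have h3 : (2 : ℤ) ∣ W := Int.dvd_of_emod_eq_zero hWp
          have := hYW.isUnit_of_dvd' h2 h3
          rw [Int.isUnit_iff] at this
          omega
        · exact h1
      have hpt : PythagoreanTriple Y (W ^ 2) (X ^ 2) := by
        unfold PythagoreanTriple
        linear_combination -h
      have hgcd : Int.gcd Y (W ^ 2) = 1 := Int.isCoprime_iff_gcd_eq_one.mp hYW.pow_right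
      obtain ⟨m, n, h1, h2, h3, h4, h5, h6⟩ :=
        hpt.coprime_classification' hgcd hYo (by positivity)
      have hmn : IsCoprime m n := Int.isCoprime_iff_gcd_eq_one.mpr h4
      have hW2 : 0 < W ^ 2 := by positivity
      have hm : 0 < m := by
        rcases h6.lt_or_eq with h7 | h7
        · exact h7
        · rw [h2, ← h7] at hW2; simp at hW2
      have hn : 0 < n := by
        by_contra hs
        have : m * n ≤ 0 := mul_nonpos_of_nonneg_of_nonpos hm.le (not_lt.mp hs)
        have : W ^ 2 ≤ 0 := by rw [h2]; linarith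
        omega
      -- both subcases lead to `X ^ 2 = b ^ 4 + 4 c ^ 4`
      have key : ∃ b c : ℤ, 0 < b ∧ 0 < c ∧ b % 2 = 1 ∧ IsCoprime b c ∧
          X ^ 2 = b ^ 4 + 4 * c ^ 4 := by
        have aux : ∀ m n : ℤ, 0 < m → 0 < n → IsCoprime m n → m % 2 = 0 → n % 2 = 1 →
            W ^ 2 = 2 * m * n → X ^ 2 = m ^ 2 + n ^ 2 → ∃ b c : ℤ, 0 < b ∧ 0 < c ∧ b % 2 = 1 ∧
              IsCoprime b c ∧ X ^ 2 = b ^ 4 + 4 * c ^ 4 := by
          intro m n hm hn hmn hme hno hW2 hX2
          have h2n : IsCoprime (2 * m) n := by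
            apply IsCoprime.mul_left
            · exact Int.isCoprime_two_left.mpr (Int.odd_iff.mpr hno)
            · exact hmn
          obtain ⟨a, ha, haa⟩ := pos_sq h2n hW2.symm (by positivity)
          obtain ⟨b, hb, hbb⟩ := pos_sq h2n.symm (by rw [mul_comm]; exact hW2.symm) hn
          have hae : Even a := by
            have h7 : Even (a ^ 2) := by rw [← haa]; exact even_two_mul m
            exact (Int.even_pow.mp h7).1
          obtain ⟨c, hc⟩ := hae
          have hmc : m = 2 * c ^ 2 := by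
            have : 2 * m = 2 * (2 * c ^ 2) := by rw [haa, hc]; ring
            linarith
          refine ⟨b, c, hb, by omega, ?_, ?_, ?_⟩
          · rcases Int.emod_two_eq_zero_or_one b with h8 | h8
            · exfalso
              have h9 : Even (b ^ 2) := Int.even_pow.mpr ⟨Int.even_iff.mpr h8, by norm_num⟩
              rw [← hbb] at h9
              have := Int.even_iff.mp h9
              omega
            · exact h8
          · have h8 : IsCoprime (c ^ 2) (b ^ 2) := by
              rw [← hbb]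
              have : IsCoprime (2 * c ^ 2) n := hmc ▸ hmn
              exact this.of_mul_left_right
            exact ((IsCoprime.pow_iff (by norm_num) (by norm_num)).mp h8).symm
          · rw [hX2, hmc, hbb]; ring
        rcases h5 with ⟨h7, h8⟩ | ⟨h7, h8⟩
        · exact aux m n hm hn hmn h7 h8 h2 h3
        · exact aux n m hn hm hmn.symm h8 h7 (by rw [h2]; ring) (by rw [h3]; ring)
      obtain ⟨b, c, hb, hc, hbo, hbc, hXb⟩ := key
      obtain ⟨e, f, he, hf, heX, hef, heq⟩ := step2 hX hb hc hbo hbc hXb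
      exact ih e.natAbs (by omega) e f b rfl he hf hb hef heq
    · -- `W` odd
      have hpt : PythagoreanTriple (W ^ 2) Y (X ^ 2) := by
        unfold PythagoreanTriple
        linear_combination -h
      have hgcd : Int.gcd (W ^ 2) Y = 1 := Int.isCoprime_iff_gcd_eq_one.mp hYW.symm.pow_left
      have hpar : W ^ 2 % 2 = 1 := by
        have : Odd (W ^ 2) := (Int.odd_iff.mpr hWp).pow
        exact Int.odd_iff.mp this
      obtain ⟨m, n, h1, h2, h3, h4, -, h6⟩ :=
        hpt.coprime_classification' hgcd hpar (by positivity)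
      have hmn : IsCoprime m n := Int.isCoprime_iff_gcd_eq_one.mpr h4
      have hm : 0 < m := by
        rcases h6.lt_or_eq with h7 | h7
        · exact h7
        · rw [h2, ← h7] at hY; simp at hY
      have hn : 0 < n := by
        by_contra hs
        have : m * n ≤ 0 := mul_nonpos_of_nonneg_of_nonpos hm.le (not_lt.mp hs)
        have : Y ≤ 0 := by rw [h2]; linarith
        omega
      have hmX : m < X := by
        by_contra hcon
        have h7 : X ^ 2 ≤ m ^ 2 := pow_le_pow_left₀ hX.le (not_lt.mp hcon) 2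
        have h8 : 0 < n ^ 2 := by positivity
        omega
      refine ih m.natAbs (by omega) m n (X * W) rfl hm hn (by positivity) hmn ?_
      have h7 : (X * W) ^ 2 = (m ^ 2 + n ^ 2) * (m ^ 2 - n ^ 2) := by
        rw [mul_pow, h1, h3]
      rw [h7]; ring

/-- no fourth power minus a fourth power is a square, natural numbers -/
theorem nat_no_sol_four {X W Y : ℕ} (hX : 0 < X) (hW : 0 < W) (hY : 0 < Y)
    (hcop : Nat.Coprime X W) : X ^ 4 ≠ W ^ 4 + Y ^ 2 := by
  intro h
  refine no_sol_four X X W Y (by simp) (by exact_mod_cast hX) (by exact_mod_cast hW)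
    (by exact_mod_cast hY) (Nat.isCoprime_iff_coprime.mpr hcop) ?_
  exact_mod_cast h

end Pool.Agent.TH888.B1
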