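import Mathlib
import Pool.Agent.H374R2.BealAlg
import Pool.Agent.H374R2.BealRes
import Pool.Agent.H755R5.Kum.Final
import Pool.Agent.H755R5.Kum.Final2
import Pool.Agent.TH888.B1.Null
import Pool.Agent.TH888.B1.Alg
import Pool.Agent.TH888.B1.Four

/-!
Beal's equation with the neighbouring bases `n`, `n + k`: the exceptional sets are null.
-/

set_option autoImplicit false

namespace Pool.Agent.TH888.B1

open Pool.Agent.H374R2.Beal Pool.Agent.H755R5.Kum

/-- the `n` for which `n`, `n + k` are two bases of a primitive solution whose third exponent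
is `m` -/
def Exc (k m : ℕ) : Set ℕ :=
  {n | 0 < n ∧ Nat.Coprime n (n + k) ∧ ∃ x y w : ℕ, 0 < x ∧ 0 < y ∧ 0 < w ∧
    (n ^ x + (n + k) ^ y = w ^ m ∨ n ^ x + w ^ m = (n + k) ^ y ∨ (n + k) ^ y + w ^ m = n ^ x)}

theorem nonres_facts {q i k j r : ℕ} (hq : q.Prime) (hj : 0 < j) (h : r ∈ NonRes q (q ^ i * k ^ j)) :
    r.Prime ∧ q ∣ r - 1 ∧ (q : ZMod r) ≠ 0 ∧ (k : ZMod r) ≠ 0 ∧
      ¬ ∃ t : ZMod r, t ^ q = (q : ZMod r) ^ i * (k : ZMod r) ^ j := by
  obtain ⟨⟨hr, hqr⟩, hn⟩ := h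
  have : Fact r.Prime := ⟨hr⟩
  refine ⟨hr, hqr, ?_, ?_, ?_⟩
  · intro h0
    rw [ZMod.natCast_eq_zero_iff] at h0
    have h1 : r ≤ q := Nat.le_of_dvd hq.pos h0
    have h2 : q ≤ r - 1 := Nat.le_of_dvd (by have := hr.two_le; omega) hqr
    have := hr.two_le
    omega
  · intro h0
    apply hn
    refine ⟨0, ?_⟩
    push_cast
    rw [h0, zero_pow hj.ne', mul_zero, zero_pow hq.ne_zero]
  · push_cast at hn
    exact hn

/-- the residue condition from the prime factors of `n` -/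
theorem good_left {q k n : ℕ} (hq : q.Prime)
    (h : ∀ i < q, ∀ j < q, 0 < j → ∃ r ∈ NonRes q (q ^ i * k ^ j), r ∣ n) :
    Good q n (n + k) := by
  intro kk y hy
  by_contra hqy
  have hj : 0 < y % q := by
    rcases Nat.eq_zero_or_pos (y % q) with h0 | h0
    · exact absurd (Nat.dvd_of_mod_eq_zero h0) hqy
    · exact h0
  obtain ⟨r, hrN, hrn⟩ := h (kk % q) (Nat.mod_lt _ hq.pos) (y % q) (Nat.mod_lt _ hq.pos) hj
  obtain ⟨hr, hqr, hq0, hk0, hnon⟩ := nonres_facts hq hj hrN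
  have : Fact r.Prime := ⟨hr⟩
  obtain ⟨t, ht⟩ := hy r hr hrn
  have hn0 : (n : ZMod r) = 0 := (ZMod.natCast_eq_zero_iff n r).mpr hrn
  have hcast : ((n + k : ℕ) : ZMod r) = (k : ZMod r) := by
    push_cast; rw [hn0, zero_add]
  rw [hcast] at ht
  apply hnon
  have hc0 : (q : ZMod r) ^ (kk / q) * (k : ZMod r) ^ (y / q) ≠ 0 :=
    mul_ne_zero (pow_ne_zero _ hq0) (pow_ne_zero _ hk0)
  refine ⟨t / ((q : ZMod r) ^ (kk / q) * (k : ZMod r) ^ (y / q)), ?_⟩
  rw [div_pow, ht, div_eq_iff (pow_ne_zero _ hc0), mul_pow, ← pow_mul, ← pow_mul]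
  have e1 : (q : ZMod r) ^ kk = (q : ZMod r) ^ (kk % q) * (q : ZMod r) ^ (kk / q * q) := by
    rw [← pow_add]; congr 1; rw [mul_comm]; exact (Nat.mod_add_div kk q).symm
  have e2 : (k : ZMod r) ^ y = (k : ZMod r) ^ (y % q) * (k : ZMod r) ^ (y / q * q) := by
    rw [← pow_add]; congr 1; rw [mul_comm]; exact (Nat.mod_add_div y q).symm
  rw [e1, e2]; ring

/-- the residue condition from the prime factors of `n + k` -/
theorem good_right {q k n : ℕ} (hq : q.Prime) (hq2 : q ≠ 2)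
    (h : ∀ i < q, ∀ j < q, 0 < j → ∃ r ∈ NonRes q (q ^ i * k ^ j), r ∣ n + k) :
    Good q (n + k) n := by
  have hodd : Odd q := hq.odd_of_ne_two hq2
  intro kk y hy
  by_contra hqy
  have hj : 0 < y % q := by
    rcases Nat.eq_zero_or_pos (y % q) with h0 | h0
    · exact absurd (Nat.dvd_of_mod_eq_zero h0) hqy
    · exact h0
  obtain ⟨r, hrN, hrn⟩ := h (kk % q) (Nat.mod_lt _ hq.pos) (y % q) (Nat.mod_lt _ hq.pos) hj
  obtain ⟨hr, hqr, hq0, hk0, hnon⟩ := nonres_facts hq hj hrN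
  have : Fact r.Prime := ⟨hr⟩
  obtain ⟨t, ht⟩ := hy r hr hrn
  have hn0 : (n : ZMod r) = -(k : ZMod r) := by
    have h3 := (ZMod.natCast_eq_zero_iff (n + k) r).mpr hrn
    push_cast at h3
    linear_combination h3
  rw [hn0, neg_pow (k : ZMod r) y] at ht
  apply hnon
  have hc0 : (q : ZMod r) ^ (kk / q) * (k : ZMod r) ^ (y / q) ≠ 0 :=
    mul_ne_zero (pow_ne_zero _ hq0) (pow_ne_zero _ hk0)
  have h4 : ((-1 : ZMod r) ^ y) * (-1) ^ y = 1 := by
    rw [← mul_pow]; simp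
  refine ⟨((-1) ^ y * t) / ((q : ZMod r) ^ (kk / q) * (k : ZMod r) ^ (y / q)), ?_⟩
  rw [div_pow, mul_pow, ht, ← pow_mul, mul_comm y q, pow_mul, hodd.neg_one_pow,
    div_eq_iff (pow_ne_zero _ hc0), mul_pow, ← pow_mul, ← pow_mul]
  have e1 : (q : ZMod r) ^ kk = (q : ZMod r) ^ (kk % q) * (q : ZMod r) ^ (kk / q * q) := by
    rw [← pow_add]; congr 1; rw [mul_comm]; exact (Nat.mod_add_div kk q).symm
  have e2 : (k : ZMod r) ^ y = (k : ZMod r) ^ (y % q) * (k : ZMod r) ^ (y / q * q) := by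
    rw [← pow_add]; congr 1; rw [mul_comm]; exact (Nat.mod_add_div y q).symm
  rw [e1, e2]
  linear_combination ((q : ZMod r) ^ (kk % q) * (q : ZMod r) ^ (kk / q * q) *
    ((k : ZMod r) ^ (y % q) * (k : ZMod r) ^ (y / q * q))) * h4

theorem exists_prime_ne {q k : ℕ} (hq : q.Prime) (hk : Squarefree k) (hk2 : 2 ≤ k) (hkq : k ≠ q) :
    ∃ l : ℕ, l.Prime ∧ l ∣ k ∧ l ≠ q := by
  by_contra hcon
  push Not at hcon
  have h1 := Nat.eq_prime_pow_of_unique_prime_dvd (n := k) (p := q) (by omega)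
    (fun {d} hd hdk => hcon d hd hdk)
  set a := k.primeFactorsList.length with ha
  rcases Nat.lt_or_ge a 2 with h2 | h2
  · interval_cases a
    · rw [pow_zero] at h1; omega
    · rw [pow_one] at h1; exact hkq h1
  · have h3 : q * q ∣ k := by
      rw [h1, ← sq]; exact pow_dvd_pow q h2
    have h4 := hk q h3
    exact hq.one_lt.ne' (Nat.isUnit_iff.mp h4)

theorem not_pow {q k : ℕ} (hq : q.Prime) (hk : Squarefree k) (hk2 : 2 ≤ k) (hkq : k ≠ q)
    {i j : ℕ} (hj : 0 < j) (hjq : j < q) : ¬ ∃ t : ℕ, t ^ q = q ^ i * k ^ j := by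
  rintro ⟨t, ht⟩
  obtain ⟨l, hl, hlk, hlq⟩ := exists_prime_ne hq hk hk2 hkq
  have h1 := congrArg (fun a => a.factorization l) ht
  simp only [Nat.factorization_pow] at h1
  rw [Nat.factorization_mul (pow_ne_zero _ hq.ne_zero) (pow_ne_zero _ (by omega)),
    Nat.factorization_pow, Nat.factorization_pow] at h1
  simp only [Finsupp.smul_apply, Finsupp.add_apply, smul_eq_mul] at h1
  have h2 : q.factorization l = 0 := by
    apply Nat.factorization_eq_zero_of_not_dvd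
    intro h3
    exact hlq ((Nat.prime_dvd_prime_iff_eq hl hq).mp h3)
  have h3 : k.factorization l = 1 := by
    have h4 : k.factorization l ≤ 1 := hk.natFactorization_le_one l
    have h5 : 0 < k.factorization l := hl.factorization_pos_of_dvd (by omega) hlk
    omega
  rw [h2, h3, mul_zero, zero_add, mul_one] at h1
  have h4 : q ∣ j := ⟨_, h1.symm⟩
  exact absurd (Nat.le_of_dvd hj h4) (by omega)

/-- odd prime exponents, `k ≠ q` -/
theorem exc_odd {q k m : ℕ} (hq : q.Prime) (hq2 : q ≠ 2) (hqm : q ∣ m) (hk : Squarefree k)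
    (hk2 : 2 ≤ k) (hkq : k ≠ q) : Null (Exc k m) := by
  classical
  set B : ℕ × ℕ → Set ℕ := fun p => {n | ∀ r ∈ NonRes q (q ^ p.1 * k ^ p.2), ¬ r ∣ n} with hB
  set s : Finset (ℕ × ℕ) := (Finset.range q ×ˢ (Finset.range q).filter (fun j => 0 < j)) with hs
  have hnull : ∀ p ∈ s, Null (B p) := by
    rintro ⟨i, j⟩ hp
    simp only [hs, Finset.mem_product, Finset.mem_filter, Finset.mem_range] at hp
    exact null_not_dvd _ (fun r hr => hr.1.1) (kummer_density q (q ^ i * k ^ j) hq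
      (Nat.mul_pos (pow_pos hq.pos _) (pow_pos (by omega) _))
      (not_pow hq hk hk2 hkq hp.2.2 hp.2.1))
  have h1 := Null.biUnion s B hnull
  refine (h1.union (h1.shift k)).mono ?_
  rintro n ⟨hn, hcop, x, y, w, hx, hy, hw, h⟩
  by_contra hcon
  simp only [Set.mem_union, Set.mem_iUnion, Set.mem_ofPred_eq, not_or, not_exists, hB,
    exists_prop] at hcon
  have hs1 : ∀ i < q, ∀ j < q, 0 < j → (i, j) ∈ s := by
    intro i hi j hj hj0
    simp only [hs, Finset.mem_product, Finset.mem_filter, Finset.mem_range]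
    exact ⟨hi, hj, hj0⟩
  have hg1 : Good q n (n + k) := good_left hq (fun i hi j hj hj0 => by
    by_contra hc
    push Not at hc
    exact hcon.1 (i, j) ⟨hs1 i hi j hj hj0, hc⟩)
  have hg2 : Good q (n + k) n := good_right hq hq2 (fun i hi j hj hj0 => by
    by_contra hc
    push Not at hc
    exact hcon.2 (i, j) ⟨hs1 i hi j hj hj0, hc⟩)
  obtain ⟨m, rfl⟩ := hqm
  have hodd := hq.odd_of_ne_two hq2
  rcases h with h | h | h
  · refine no_sol_odd hq hq2 hcop hg1 hg2 (Or.inl rfl) x y 0 ((w : ℤ) ^ m) hx hy ?_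
    have := congrArg (fun z : ℕ => (z : ℤ)) h
    push_cast at this ⊢
    rw [pow_zero, one_mul, one_mul, this, ← pow_mul, mul_comm q m]
  · refine no_sol_odd hq hq2 hcop hg1 hg2 (Or.inr rfl) x y 0 (-(w : ℤ) ^ m) hx hy ?_
    have := congrArg (fun z : ℕ => (z : ℤ)) h
    push_cast at this ⊢
    rw [pow_zero, one_mul, hodd.neg_pow, ← pow_mul, mul_comm m q]
    linear_combination this
  · refine no_sol_odd hq hq2 hcop hg1 hg2 (Or.inr rfl) x y 0 ((w : ℤ) ^ m) hx hy ?_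
    have := congrArg (fun z : ℕ => (z : ℤ)) h
    push_cast at this ⊢
    rw [pow_zero, one_mul, ← pow_mul, mul_comm m q]
    linear_combination -this

/-- odd prime exponents, `k = q` -/
theorem exc_self {q m : ℕ} (hq : q.Prime) (hq2 : q ≠ 2) (hqm : q ∣ m) : Null (Exc q m) := by
  have h0 : ¬ ∃ t : ℕ, t ^ q = q := by
    rintro ⟨t, ht⟩
    have h1 : t ∣ q := by
      rw [← ht]; exact dvd_pow_self t hq.ne_zero
    rcases (Nat.dvd_prime hq).mp h1 with h2 | h2
    · rw [h2, one_pow] at ht; exact hq.one_lt.ne ht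
    · rw [h2] at ht
      have h3 : q ^ 1 < q ^ q := Nat.pow_lt_pow_right hq.one_lt hq.one_lt
      rw [pow_one] at h3; omega
  have h1 := null_not_dvd _ (fun r hr => hr.1.1) (kummer_density q q hq hq.pos h0)
  refine (h1.union (h1.shift q)).mono ?_
  rintro n ⟨hn, hcop, x, y, w, hx, hy, hw, h⟩
  by_contra hcon
  simp only [Set.mem_union, Set.mem_ofPred_eq, not_or, not_forall, not_not, exists_prop] at hcon
  have hqn : ¬ q ∣ n := by
    intro hd
    rw [Nat.coprime_self_add_right] at hcop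
    have h2 := Nat.dvd_gcd hd (dvd_refl q)
    rw [hcop.gcd_eq_one] at h2
    exact hq.one_lt.ne' (Nat.dvd_one.mp h2)
  obtain ⟨m, rfl⟩ := hqm
  have hodd := hq.odd_of_ne_two hq2
  rcases h with h | h | h
  · refine no_sol_q hq hq2 hqn hcon.1 hcon.2 (Or.inl rfl) x y ((w : ℤ) ^ m) hx hy ?_
    have := congrArg (fun z : ℕ => (z : ℤ)) h
    push_cast at this ⊢
    rw [one_mul, this, ← pow_mul, mul_comm q m]
  · refine no_sol_q hq hq2 hqn hcon.1 hcon.2 (Or.inr rfl) x y (-(w : ℤ) ^ m) hx hy ?_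
    have := congrArg (fun z : ℕ => (z : ℤ)) h
    push_cast at this ⊢
    rw [hodd.neg_pow, ← pow_mul, mul_comm m q]
    linear_combination this
  · refine no_sol_q hq hq2 hqn hcon.1 hcon.2 (Or.inr rfl) x y ((w : ℤ) ^ m) hx hy ?_
    have := congrArg (fun z : ℕ => (z : ℤ)) h
    push_cast at this ⊢
    rw [← pow_mul, mul_comm m q]
    linear_combination -this

/-- fourth powers modulo `r ≡ 1 (mod 4)` -/
theorem quartic {r : ℕ} (hr : r.Prime) {i a : ZMod r} (hi : i ^ 2 = -1)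
    (ha : ¬ ∃ t : ZMod r, t ^ 2 = a) {y : ℕ} {s : ZMod r} (h : s ^ 4 = a ^ y) : 4 ∣ y := by
  have : Fact r.Prime := ⟨hr⟩
  obtain ⟨y', rfl⟩ := dvd_of_pow_isPow Nat.prime_two ha (s := s ^ 2) (by rw [← h]; ring)
  have h3 : (s ^ 2 - a ^ y') * (s ^ 2 + a ^ y') = 0 := by
    rw [mul_comm 2 y', pow_mul] at h
    linear_combination h
  have h4 : 2 ∣ y' := by
    rcases mul_eq_zero.mp h3 with h5 | h5
    · exact dvd_of_pow_isPow Nat.prime_two ha (s := s) (by linear_combination h5)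
    · exact dvd_of_pow_isPow Nat.prime_two ha (s := i * s) (by
        rw [mul_pow, hi]; linear_combination -h5)
  obtain ⟨y'', rfl⟩ := h4
  exact ⟨y'', by ring⟩

theorem quartic_neg {r : ℕ} (hr : r.Prime) {i a : ZMod r} (hi : i ^ 2 = -1)
    (ha : ¬ ∃ t : ZMod r, t ^ 2 = a) {y : ℕ} {s : ZMod r} (h : -s ^ 4 = a ^ y) : 2 ∣ y := by
  have : Fact r.Prime := ⟨hr⟩
  exact dvd_of_pow_isPow Nat.prime_two ha (s := i * s ^ 2) (by rw [mul_pow, hi, ← h]; ring)

theorem neg_nonsq {r : ℕ} (hr : r.Prime) {i a : ZMod r} (hi : i ^ 2 = -1)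
    (ha : ¬ ∃ t : ZMod r, t ^ 2 = a) : ¬ ∃ t : ZMod r, t ^ 2 = -a := by
  rintro ⟨t, ht⟩
  exact ha ⟨i * t, by rw [mul_pow, hi, ht]; ring⟩

theorem cop_third {a b c x y m : ℕ} (hx : 0 < x) (hm : 0 < m) (hcop : Nat.Coprime a b)
    (h : a ^ x + c ^ m = b ^ y) (hy : 0 < y) : Nat.Coprime b c := by
  rw [Nat.coprime_iff_gcd_eq_one]
  by_contra hne
  obtain ⟨p, hp, hpd⟩ := Nat.exists_prime_and_dvd hne
  have h1 : p ∣ b := hpd.trans (Nat.gcd_dvd_left _ _)
  have h2 : p ∣ c := hpd.trans (Nat.gcd_dvd_right _ _)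
  have h3 : p ∣ a ^ x + c ^ m := by rw [h]; exact dvd_pow h1 hy.ne'
  have h4 : p ∣ a ^ x := (Nat.dvd_add_left (dvd_pow h2 hm.ne')).mp h3
  have h5 : p ∣ a := hp.dvd_of_dvd_pow h4
  have h6 := Nat.dvd_gcd h5 h1
  rw [hcop.gcd_eq_one] at h6
  exact hp.one_lt.ne' (Nat.dvd_one.mp h6)

/-- exponents divisible by `4` -/
theorem exc_four {k m : ℕ} (hm : 4 ∣ m) (hm0 : 0 < m) (hk0 : 0 < k) (hk : ¬ ∃ t : ℕ, t ^ 2 = k) :
    Null (Exc k m) := by
  have h1 := null_not_dvd {r : ℕ | (r.Prime ∧ 4 ∣ r - 1) ∧ ¬ ∃ t : ZMod r, t ^ 2 = (k : ZMod r)}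
    (fun r hr => hr.1.1) (nonsquare_density_four k hk0 hk)
  refine (h1.union (h1.shift k)).mono ?_
  rintro n ⟨hn, hcop, x, y, w, hx, hy, hw, h⟩
  by_contra hcon
  simp only [Set.mem_union, Set.mem_ofPred_eq, not_or, not_forall, not_not, exists_prop] at hcon
  obtain ⟨⟨r, ⟨⟨hr, hr4⟩, hnr⟩, hrn⟩, ⟨r', ⟨⟨hr', hr4'⟩, hnr'⟩, hrn'⟩⟩ := hcon
  have : Fact r.Prime := ⟨hr⟩
  have : Fact r'.Prime := ⟨hr'⟩
  have hsq : ∀ p : ℕ, p.Prime → 4 ∣ p - 1 → ∃ i : ZMod p, i ^ 2 = -1 := by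
    intro p hp hp4
    have : Fact p.Prime := ⟨hp⟩
    have h2 : IsSquare (-1 : ZMod p) := by
      rw [ZMod.exists_sq_eq_neg_one_iff]
      have := hp.two_le
      omega
    obtain ⟨i, hi⟩ := h2
    exact ⟨i, by rw [hi]; ring⟩
  obtain ⟨i, hi⟩ := hsq r hr hr4
  obtain ⟨i', hi'⟩ := hsq r' hr' hr4'
  have hnr'' := neg_nonsq hr' hi' hnr'
  have hn0 : (n : ZMod r) = 0 := (ZMod.natCast_eq_zero_iff n r).mpr hrn
  have hv0 : (n : ZMod r') + (k : ZMod r') = 0 := by
    have := (ZMod.natCast_eq_zero_iff (n + k) r').mpr hrn'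
    push_cast at this
    exact this
  have hn0' : (n : ZMod r') = -(k : ZMod r') := by linear_combination hv0
  obtain ⟨m, rfl⟩ := hm
  have hm1 : 0 < m := by omega
  rcases h with h | h | h
  · have h2 := congrArg (fun z : ℕ => (z : ZMod r)) h
    have h3 := congrArg (fun z : ℕ => (z : ZMod r')) h
    push_cast at h2 h3
    rw [hn0, zero_pow hx.ne', zero_add, zero_add] at h2
    rw [hv0, zero_pow hy.ne', add_zero, hn0'] at h3
    obtain ⟨y', rfl⟩ := quartic hr hi hnr (s := (w : ZMod r) ^ m) (y := y) (by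
      rw [h2, ← pow_mul, mul_comm m 4])
    obtain ⟨x', rfl⟩ := quartic hr' hi' hnr'' (s := (w : ZMod r') ^ m) (y := x) (by
      rw [h3, ← pow_mul, mul_comm m 4])
    have hF := fermatLastTheoremFour
    rw [mul_comm 4 x', mul_comm 4 y', mul_comm 4 m, pow_mul, pow_mul, pow_mul] at h
    exact hF _ _ _ (pow_ne_zero _ hn.ne') (pow_ne_zero _ (by omega)) (pow_ne_zero _ hw.ne') h
  · have h2 := congrArg (fun z : ℕ => (z : ZMod r)) h
    have h3 := congrArg (fun z : ℕ => (z : ZMod r')) h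
    push_cast at h2 h3
    rw [hn0, zero_pow hx.ne', zero_add, zero_add] at h2
    rw [hv0, zero_pow hy.ne', hn0'] at h3
    obtain ⟨y', rfl⟩ := quartic hr hi hnr (s := (w : ZMod r) ^ m) (y := y) (by
      rw [← h2, ← pow_mul, mul_comm m 4])
    obtain ⟨x', rfl⟩ := quartic_neg hr' hi' hnr'' (s := (w : ZMod r') ^ m) (y := x) (by
      rw [← pow_mul, mul_comm m 4]; linear_combination -h3)
    have hc := cop_third hx hm0 hcop h hy
    rw [mul_comm 2 x', mul_comm 4 y', mul_comm 4 m, pow_mul, pow_mul, pow_mul] at h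
    refine nat_no_sol_four (X := (n + k) ^ y') (W := w ^ m) (Y := n ^ x') (by positivity)
      (by positivity) (by positivity) (Nat.Coprime.pow _ _ hc) ?_
    rw [← h]; ring
  · have h2 := congrArg (fun z : ℕ => (z : ZMod r)) h
    have h3 := congrArg (fun z : ℕ => (z : ZMod r')) h
    push_cast at h2 h3
    rw [hn0, zero_pow hx.ne', zero_add] at h2
    rw [hv0, zero_pow hy.ne', zero_add, hn0'] at h3
    obtain ⟨y', rfl⟩ := quartic_neg hr hi hnr (s := (w : ZMod r) ^ m) (y := y) (by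
      rw [← pow_mul, mul_comm m 4]; linear_combination -h2)
    obtain ⟨x', rfl⟩ := quartic hr' hi' hnr'' (s := (w : ZMod r') ^ m) (y := x) (by
      rw [← h3, ← pow_mul, mul_comm m 4])
    have hc := cop_third hy hm0 hcop.symm h hx
    rw [mul_comm 4 x', mul_comm 2 y', mul_comm 4 m, pow_mul, pow_mul, pow_mul] at h
    refine nat_no_sol_four (X := n ^ x') (W := w ^ m) (Y := (n + k) ^ y') (by positivity)
      (by positivity) (by positivity) (Nat.Coprime.pow _ _ hc) ?_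
    rw [← h]; ring

/-- all exponents `m ≥ 3` -/
theorem exc_null {k m : ℕ} (hk : Squarefree k) (hk2 : 2 ≤ k) (hm : 3 ≤ m) : Null (Exc k m) := by
  rcases Nat.four_dvd_or_exists_odd_prime_and_dvd_of_two_lt (n := m) (by omega) with
    h | ⟨p, hp, hpm, hodd⟩
  · refine exc_four h (by omega) (by omega) ?_
    rintro ⟨t, rfl⟩
    have h1 := hk t (by rw [sq])
    rw [Nat.isUnit_iff] at h1
    subst h1
    norm_num at hk2
  · have hp2 : p ≠ 2 := by rintro rfl; exact absurd hodd (by decide)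
    by_cases hkp : k = p
    · subst hkp; exact exc_self hp hp2 hpm
    · exact exc_odd hp hp2 hpm hk hk2 hkp

end Pool.Agent.TH888.B1
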